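import Pool.Agent.Lib.MP_5d4057_al.CF.Main
import Pool.Agent.Lib.MP_5d4057_al.TW.Pos
import Pool.Agent.Lib.MP_5d4057_al.GX.Amal

/-!
# CF: the amalgam, with `ρ` totally geodesic on both factors (up to commensurability)
-/

set_option autoImplicit false

namespace Pool.Agent.Lib.MP_5d4057_al.CF

open Matrix Pool.Agent.Lib.MP_5d4057_al Pool.Agent.Lib.MP_5d4057_al.Hyb
  Pool.Agent.Lib.MP_5d4057_al.HM Pool.Agent.Lib.MP_5d4057_al.RC Pool.Agent.Lib.MP_5d4057_al.NU

variable {k m : ℕ}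

/-- A subgroup of finite index of an arithmetic group is arithmetic. -/
theorem isArith_sub {Γ Γ' : Subgroup (SUGroup m)} (h : IsArith m Γ) (hle : Γ' ≤ Γ)
    (hfin : Γ'.relIndex Γ ≠ 0) : IsArith m Γ' := by
  obtain ⟨K, A, O, hU, hO, hc⟩ := h
  refine ⟨K, A, O, hU, hO, Subgroup.Commensurable.trans ⟨hfin, ?_⟩ hc⟩
  rw [Subgroup.relIndex_eq_one.2 hle]
  exact one_ne_zero

/-- The elements of a group commensurable with `g (1 + Λ) g⁻¹` preserve the line of the normal
vector. -/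
theorem line_of_comm (hm : 1 ≤ m) {Λ : Subgroup (SUGroup m)} (hΛ : IsLattice Λ)
    {g : SUGroup (m + 1)} {S : Subgroup (SUGroup (m + 1))}
    (hc : Subgroup.Commensurable (Λ.map (emb g)) S) {s : SUGroup (m + 1)} (hs : s ∈ S) :
    ∃ c : ℂ, act s (act g (GX.e0 m)) = c • act g (GX.e0 m) := by
  obtain ⟨T, hT⟩ : ∃ T : Subgroup (SUGroup (m + 1)),
      T = (Λ.map (emb g)).comap (MulAut.conj s⁻¹).toMonoidHom := ⟨_, rfl⟩
  have hmT : ∀ x ∈ T, s⁻¹ * x * s ∈ Λ.map (emb g) := by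
    intro x hx
    rw [hT] at hx
    have h1 : s⁻¹ * x * (s⁻¹)⁻¹ ∈ Λ.map (emb g) := hx
    rwa [inv_inv] at h1
  have h1 : T.relIndex S ≠ 0 := by
    rw [hT, Subgroup.relIndex_comap]
    intro h
    refine hc.1 (Subgroup.relIndex_eq_zero_of_le_right ?_ h)
    rintro _ ⟨x, hx, rfl⟩
    exact S.mul_mem (S.mul_mem (S.inv_mem hs) hx) (S.inv_mem (S.inv_mem hs))
  have h2 : T.relIndex (Λ.map (emb g)) ≠ 0 := Subgroup.relIndex_ne_zero_trans h1 hc.2
  obtain ⟨Δ, hΔ⟩ : ∃ Δ : Subgroup (SUGroup m), Δ = T.comap (emb g) ⊓ Λ := ⟨_, rfl⟩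
  have hΔL : IsLattice Δ := by
    refine isLattice_of_relIndex hΛ (hΔ ▸ inf_le_right) ?_
    rw [hΔ, Subgroup.inf_relIndex_right, Subgroup.relIndex_comap]
    exact h2
  obtain ⟨v, hv⟩ : ∃ v : Vec (m + 1), v = act (g⁻¹ * s * g) (GX.e0 m) := ⟨_, rfl⟩
  have hfix : ∀ y ∈ Δ, act (extend m y) v = v := by
    intro y hy
    rw [hΔ] at hy
    obtain ⟨z, -, hz⟩ := hmT _ hy.1
    have e1 : extend m y * (g⁻¹ * s * g) = g⁻¹ * s * g * extend m z := by
      have h3 : emb g y = s * emb g z * s⁻¹ := by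
        rw [hz]
        group
      rw [emb_apply, emb_apply] at h3
      have h4 : extend m y = g⁻¹ * (s * (g * extend m z * g⁻¹) * s⁻¹) * g := by
        rw [← h3]
        group
      rw [h4]
      group
    rw [hv, ← act_mul, e1, act_mul, GX.act_extend_e0]
  obtain ⟨w, hw⟩ : ∃ w : Vec m, v = (Fin.cons (v 0) w : Vec (m + 1)) :=
    ⟨Fin.tail v, (Fin.cons_self_tail v).symm⟩
  have hw0 : w = 0 := by
    by_contra hne
    refine TW.not_line hm hΔL hne fun y hy => ⟨1, ?_⟩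
    have h3 := hfix y hy
    rw [hw, GX.act_extend_cons] at h3
    have h4 := congrArg (Fin.tail : Vec (m + 1) → Vec m) h3
    rw [Fin.tail_cons, Fin.tail_cons] at h4
    rw [one_smul]
    exact h4
  refine ⟨v 0, ?_⟩
  have h5 : v = v 0 • GX.e0 m := by
    rw [GX.e0_eq_cons]
    conv_lhs => rw [hw, hw0]
    funext i
    refine Fin.cases ?_ (fun i => ?_) i
    · simp
    · simp
  have h6 : act s (act g (GX.e0 m)) = act g v := by
    rw [hv, ← act_mul, ← act_mul]
    congr 1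
    group
  rw [h6]
  conv_lhs => rw [h5, act_smul]

/-- The piece in a group commensurable with `g (1 + Λ) g⁻¹`. -/
theorem piece_of_comm {Λ : Subgroup (SUGroup m)} (hΛ : IsLattice Λ) (hA : IsArith m Λ)
    {g : SUGroup (m + 1)} {S : Subgroup (SUGroup (m + 1))}
    (hc : Subgroup.Commensurable (Λ.map (emb g)) S) : Piece (Λ ⊓ S.comap (emb g)) g S := by
  have h1 : (Λ ⊓ S.comap (emb g)).relIndex Λ ≠ 0 := by
    rw [Subgroup.inf_relIndex_left, Subgroup.relIndex_comap]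
    exact hc.2
  refine ⟨isLattice_of_relIndex hΛ inf_le_left h1, isArith_sub hA inf_le_left h1, ?_, ?_⟩
  · rintro _ ⟨x, hx, rfl⟩
    exact hx.2
  · have h2 : (Λ ⊓ S.comap (emb g)).map (emb g) = Λ.map (emb g) ⊓ S := by
      ext x
      constructor
      · rintro ⟨y, hy, rfl⟩
        exact ⟨⟨y, hy.1, rfl⟩, hy.2⟩
      · rintro ⟨⟨y, hy, rfl⟩, h⟩
        exact ⟨y, ⟨hy, h⟩, rfl⟩
    rw [h2, Subgroup.inf_relIndex_right]
    exact hc.1

/-- Two hyperplanes whose normal vectors span a positive definite plane meet. -/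
theorem meet_of_lt {g : Fin 2 → SUGroup (k + 2)}
    (h : ‖herm (act (g 0) (GX.e0 (k + 1))) (act (g 1) (GX.e0 (k + 1)))‖ < 1) :
    Meet (g 0) (g 1) := by
  obtain ⟨u, X, hX, hg⟩ := GX.exists_frames g h
  have hb : (base (k + 2) : Vec (k + 2)) = (Fin.cons 0 (Fin.cons 0 (base k)) : Vec (k + 2)) := by
    rw [← inc_base, ← inc_base]
    rfl
  have hor : herm (GX.e0 (k + 1)) (base (k + 2)) = 0 := by
    rw [GX.herm_e0, hb, Fin.cons_zero]
  have hn : ∀ b, act (g b * extend (k + 1) (u b)) (GX.e0 (k + 1)) = act (g b) (nrm (k + 1)) := by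
    intro b
    rw [act_mul, GX.act_extend_e0, nrm, ← GX.e0_eq_cons]
  have hb1 : act (g 1 * extend (k + 1) (u 1)) (base (k + 2)) =
      act (g 0 * extend (k + 1) (u 0)) (base (k + 2)) := by
    rw [act, act, hg, ← mulVec_mulVec]
    congr 1
    rw [hb, bsum_mulVec_cons]
    simp
  refine ⟨act (g 0 * extend (k + 1) (u 0)) (base (k + 2)), orbit_mem _, ?_, ?_⟩
  · rw [← hn 0, herm_act, hor]
  · rw [← hn 1, ← hb1, herm_act, hor]

/-- **The theorem for the amalgam, totally geodesic on both factors.** -/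
theorem amalgam_cf (k : ℕ) (hk : 1 ≤ k) (Γ₃ : Subgroup (SUGroup k))
    (Γ : Fin 2 → Subgroup (SUGroup (k + 1))) (h₃ : IsLattice Γ₃)
    (ι : ∀ b, Γ₃ →* Γ b) (hι : ∀ b, Function.Injective (ι b))
    (ρ : Monoid.PushoutI ι →* SUGroup (k + 2))
    (hinj : ∀ b, Function.Injective (ρ.comp (Monoid.PushoutI.of b)))
    (Λ : Fin 2 → Subgroup (SUGroup (k + 1))) (g : Fin 2 → SUGroup (k + 2))
    (hL : ∀ b, IsLattice (Λ b)) (hA : ∀ b, IsArith (k + 1) (Λ b))
    (hc : ∀ b, Subgroup.Commensurable ((Λ b).map (emb (g b)))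
      (ρ.comp (Monoid.PushoutI.of b)).range)
    (hlat : IsLattice ρ.range) : IsArith (k + 2) ρ.range := by
  obtain ⟨S, hS⟩ : ∃ S : Fin 2 → Subgroup (SUGroup (k + 2)),
      S = fun b => (ρ.comp (Monoid.PushoutI.of b)).range := ⟨_, rfl⟩
  have hSb : ∀ b, S b = (ρ.comp (Monoid.PushoutI.of b)).range := fun b => by rw [hS]
  have hP : ∀ b, Piece (Λ b ⊓ (S b).comap (emb (g b))) (g b) (S b) := fun b =>
    piece_of_comm (hL b) (hA b) (by rw [hSb]; exact hc b)
  have hsup : ρ.range = ⨆ b, S b := by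
    apply le_antisymm
    · rintro _ ⟨w, rfl⟩
      induction w using Monoid.PushoutI.induction_on with
      | of b x =>
        refine Subgroup.mem_iSup_of_mem b ?_
        rw [hSb]
        exact ⟨x, rfl⟩
      | base x =>
        rw [← Monoid.PushoutI.of_apply_eq_base ι 0 x]
        refine Subgroup.mem_iSup_of_mem 0 ?_
        rw [hSb]
        exact ⟨ι 0 x, rfl⟩
      | mul x y hx hy =>
        rw [map_mul]
        exact Subgroup.mul_mem _ hx hy
    · refine iSup_le fun b => ?_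
      rw [hSb]
      rintro _ ⟨x, rfl⟩
      exact ⟨_, rfl⟩
  have hf : FGG ρ.range := by
    rw [hsup]
    exact fgg_cf hP
  -- the subgroup of the common group which goes to both standard parts
  obtain ⟨φ, hφ⟩ : ∃ φ : Γ₃ →* SUGroup (k + 2), φ = ρ.comp (Monoid.PushoutI.base ι) := ⟨_, rfl⟩
  have hφb : ∀ b x, φ x = ρ (Monoid.PushoutI.of b (ι b x)) := fun b x => by
    rw [hφ, Monoid.PushoutI.of_apply_eq_base]
    rfl
  have hφi : Function.Injective φ := by
    intro x y hxy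
    rw [hφb 0, hφb 0] at hxy
    exact hι 0 (hinj 0 hxy)
  have hφS : ∀ b x, φ x ∈ S b := fun b x => by
    rw [hφb b, hSb]
    exact ⟨_, rfl⟩
  obtain ⟨E, hE⟩ : ∃ E : Subgroup Γ₃, E =
      ((Λ 0).map (emb (g 0))).comap φ ⊓ ((Λ 1).map (emb (g 1))).comap φ := ⟨_, rfl⟩
  have hind : ∀ b, (((Λ b).map (emb (g b))).comap φ).index ≠ 0 := by
    intro b
    rw [Subgroup.index_comap]
    intro h
    refine (hc b).1 (Subgroup.relIndex_eq_zero_of_le_right ?_ h)
    rintro _ ⟨x, rfl⟩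
    rw [← hSb]
    exact hφS b x
  have hEi : E.index ≠ 0 := by
    rw [hE]
    exact Subgroup.index_inf_ne_zero (hind 0) (hind 1)
  have hEm : ∀ z ∈ E, φ z ∈ (Λ 0).map (emb (g 0)) ∧ φ z ∈ (Λ 1).map (emb (g 1)) := by
    intro z hz
    rw [hE] at hz
    exact ⟨hz.1, hz.2⟩
  have hle : E.map Γ₃.subtype ≤ Γ₃ := by
    rintro _ ⟨x, -, rfl⟩
    exact x.2
  have hE3 : IsLattice (E.map Γ₃.subtype) := by
    refine isLattice_of_relIndex h₃ hle ?_
    rw [Subgroup.relIndex, Subgroup.subgroupOf,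
      Subgroup.comap_map_eq_self_of_injective Γ₃.subtype_injective]
    exact hEi
  have hmE : ∀ x : E.map Γ₃.subtype, Subgroup.inclusion hle x ∈ E := by
    rintro ⟨_, y, hy, rfl⟩
    exact hy
  have hfix : ∀ b (z : SUGroup (k + 2)), z ∈ (Λ b).map (emb (g b)) →
      act z (act (g b) (GX.e0 (k + 1))) = act (g b) (GX.e0 (k + 1)) := by
    rintro b _ ⟨y, -, rfl⟩
    exact GX.act_emb_e0 (g b) y
  have hlt : ‖herm (act (g 0) (GX.e0 (k + 1))) (act (g 1) (GX.e0 (k + 1)))‖ < 1 := by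
    refine TW.herm_lt_one_fix hk hE3 hlat hf (φ.comp (Subgroup.inclusion hle))
      (hφi.comp (Subgroup.inclusion_injective hle)) ?_ ?_ ?_ ?_ ?_ ?_
    · intro γ
      rw [hsup]
      exact Subgroup.mem_iSup_of_mem 0 (hφS 0 _)
    · rw [q_act, GX.q_e0]
    · rw [q_act, GX.q_e0]
    · intro γ
      exact hfix 0 _ (hEm _ (hmE γ)).1
    · intro γ
      exact hfix 1 _ (hEm _ (hmE γ)).2
    · refine TW.not_prop_line hlat (n := fun b => act (g b) (GX.e0 (k + 1)))
        (fun b => by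
          show q (act (g b) (GX.e0 (k + 1))) = 1
          rw [q_act, GX.q_e0]) ?_
      rw [hsup]
      refine iSup_le fun b => ?_
      intro x hx
      refine Subgroup.subset_closure ⟨b, ?_⟩
      rw [hSb] at hx
      exact line_of_comm (by omega) (hL b) (hc b) hx
  have hmeet := meet_of_lt hlt
  have hconn : Conn g := by
    intro i i'
    fin_cases i <;> fin_cases i'
    · exact Relation.ReflTransGen.refl
    · exact Relation.ReflTransGen.single hmeet
    · exact Relation.ReflTransGen.single hmeet.symm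
    · exact Relation.ReflTransGen.refl
  have h1 := connected k hk g _ S hP hconn (by rw [← hsup]; exact hlat)
  rw [hsup]
  exact h1

end Pool.Agent.Lib.MP_5d4057_al.CF
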