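import Pool.Agent.Lib.MP_5d4057_al.HM.AppHarm

/-! The polarisation lemma. -/

set_option autoImplicit false

namespace Pool.Agent.Lib.MP_5d4057_al.CF

open Matrix Filter Topology Pool.Agent.Lib.MP_5d4057_al Pool.Agent.Lib.MP_5d4057_al.Hyb
  Pool.Agent.Lib.MP_5d4057_al.HM

open scoped ComplexOrder

variable {p m : ℕ}

/-- A sesquilinear map which vanishes on the diagonal of the cone is zero. -/
theorem sesq_zero {E : Type} [AddCommGroup E] [Module ℂ E] (S : Vec p → Vec p → E)
    (h1 : ∀ u u' v, S (u + u') v = S u v + S u' v) (h2 : ∀ u v v', S u (v + v') = S u v + S u v')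
    (h3 : ∀ (c : ℂ) u v, S (c • u) v = c • S u v)
    (h4 : ∀ (c : ℂ) u v, S u (c • v) = star c • S u v)
    (h : ∀ w ∈ Cone p, S w w = 0) (u v : Vec p) : S u v = 0 := by
  have key : ∀ x y : Vec p, (∀ z : ℂ, ‖z‖ = 1 → ∃ e : ℝ, 0 < e ∧
      S (x + ((e : ℂ) * z) • y) (x + ((e : ℂ) * z) • y) = 0 ∧
      S (x + (-(e : ℂ) * z) • y) (x + (-(e : ℂ) * z) • y) = 0) → S x x = 0 → S y y = 0 ∧ S y x = 0 := by
    intro x y hz hx
    have hexp : ∀ c : ℂ, S (x + c • y) (x + c • y) =
        S x x + (c • S y x + star c • S x y) + (c * star c) • S y y := by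
      intro c
      rw [h1, h2, h2, h3, h3, h4, h4, smul_smul]
      module
    have hpair : ∀ z : ℂ, ‖z‖ = 1 → S y y = 0 ∧ z • S y x + star z • S x y = 0 := by
      intro z hz1
      obtain ⟨e, he, e1, e2⟩ := hz z hz1
      have he' : (e : ℂ) ≠ 0 := by exact_mod_cast he.ne'
      have hz0 : z * star z = 1 := by
        have : z * (starRingEnd ℂ) z = 1 := by
          rw [Complex.mul_conj, Complex.normSq_eq_norm_sq, hz1]
          norm_num
        exact this
      rw [hexp, hx, zero_add] at e1 e2
      have hs : star ((e : ℂ) * z) = (e : ℂ) * star z := by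
        rw [star_mul']
        congr 1
        exact Complex.conj_ofReal e
      have hs' : star (-(e : ℂ) * z) = -(e : ℂ) * star z := by
        rw [star_mul', star_neg]
        congr 2
        exact Complex.conj_ofReal e
      rw [hs] at e1
      rw [hs'] at e2
      have a1 : ((e : ℂ) * z) * ((e : ℂ) * star z) = (e : ℂ) ^ 2 := by
        linear_combination (e : ℂ) ^ 2 * hz0
      have a2 : (-(e : ℂ) * z) * (-(e : ℂ) * star z) = (e : ℂ) ^ 2 := by
        linear_combination (e : ℂ) ^ 2 * hz0
      rw [a1] at e1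
      rw [a2] at e2
      have hyy : S y y = 0 := by
        have e3 : (2 * (e : ℂ) ^ 2) • S y y = 0 := by
          have := congrArg₂ (· + ·) e1 e2
          simp only [add_zero] at this
          rw [← this]
          module
        exact (smul_eq_zero.1 e3).resolve_left (mul_ne_zero two_ne_zero (pow_ne_zero 2 he'))
      refine ⟨hyy, ?_⟩
      rw [hyy, smul_zero, add_zero] at e1
      have e4 : (e : ℂ) • (z • S y x + star z • S x y) = 0 := by
        rw [← e1]
        module
      exact (smul_eq_zero.1 e4).resolve_left he'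
    obtain ⟨hyy, p1⟩ := hpair 1 norm_one
    obtain ⟨-, p2⟩ := hpair Complex.I Complex.norm_I
    refine ⟨hyy, ?_⟩
    rw [star_one, one_smul, one_smul] at p1
    have hI : star Complex.I = -Complex.I := Complex.conj_I
    rw [hI] at p2
    have p3 : (2 : ℂ) • S y x = 0 := by
      have h5 : Complex.I • (Complex.I • S y x + -Complex.I • S x y) = 0 := by
        rw [p2, smul_zero]
      rw [smul_add, smul_smul, smul_smul, mul_neg, Complex.I_mul_I] at h5
      have h6 : S y x + S x y - (-1 • S y x + - -1 • S x y : E) = 0 := by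
        have h7 : ((-1 : ℂ) • S y x + -(-1 : ℂ) • S x y) = 0 := h5
        have h8 : (-1 • S y x + - -1 • S x y : E) = (-1 : ℂ) • S y x + -(-1 : ℂ) • S x y := by
          module
        rw [h8, h7, p1, sub_zero]
      rw [← h6]
      module
    exact (smul_eq_zero.1 p3).resolve_left two_ne_zero
  -- the diagonal
  have hdiag : ∀ y : Vec p, S y y = 0 := by
    intro y
    refine (key (base p) y ?_ (h _ (base_mem p))).1
    intro z _
    have hc : Continuous fun e : ℝ => base p + ((e : ℂ) * z) • y := by fun_prop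
    have hc' : Continuous fun e : ℝ => base p + (-(e : ℂ) * z) • y := by fun_prop
    have n1 : ∀ᶠ e : ℝ in 𝓝 0, base p + ((e : ℂ) * z) • y ∈ Cone p := by
      refine hc.continuousAt.eventually_mem ?_
      rw [Complex.ofReal_zero, zero_mul, zero_smul, add_zero]
      exact mem_nhds_cone (base_mem p)
    have n2 : ∀ᶠ e : ℝ in 𝓝 0, base p + (-(e : ℂ) * z) • y ∈ Cone p := by
      refine hc'.continuousAt.eventually_mem ?_
      rw [Complex.ofReal_zero, neg_zero, zero_mul, zero_smul, add_zero]
      exact mem_nhds_cone (base_mem p)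
    obtain ⟨e, ⟨e1, e2⟩, he⟩ := (((n1.and n2).filter_mono nhdsWithin_le_nhds).and
      (self_mem_nhdsWithin (a := (0 : ℝ)) (s := Set.Ioi 0))).exists
    exact ⟨e, he, h _ e1, h _ e2⟩
  exact (key v u (fun z _ => ⟨1, one_pos, hdiag _, hdiag _⟩) (hdiag v)).2

theorem herm_single_ne {i k : Fin (p + 1)} (h : i ≠ k) :
    herm (Pi.single i 1 : Vec p) (Pi.single k 1) = 0 := by
  rw [herm, mulVec_single_one, dotProduct]
  refine Finset.sum_eq_zero fun l _ => ?_
  rw [col_apply, J, diagonal_apply]
  by_cases h1 : l = k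
  · subst h1
    rw [Pi.star_apply, Pi.single_eq_of_ne h.symm, star_zero, zero_mul]
  · rw [if_neg h1, mul_zero]

/-- Two linear maps which are proportional on every vector are proportional. -/
theorem prop_of_prop {V : Type} [AddCommGroup V] [Module ℂ V] {j j' : Vec p →ₗ[ℂ] V}
    (hj' : Function.Injective j') (h : ∀ v, ∃ c : ℂ, j v = c • j' v) :
    ∃ c : ℂ, ∀ v, j v = c • j' v := by
  obtain ⟨c, hc⟩ := h (Pi.single 0 1)
  refine ⟨c, ?_⟩
  have hi : ∀ i : Fin (p + 1), j (Pi.single i 1) = c • j' (Pi.single i 1) := by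
    intro i
    by_cases h0 : i = 0
    · rw [h0, hc]
    obtain ⟨ci, hci⟩ := h (Pi.single i 1)
    obtain ⟨d, hd⟩ := h (Pi.single 0 1 + Pi.single i 1)
    rw [map_add, hc, hci] at hd
    have h1 : j' ((c - d) • Pi.single 0 1 + (ci - d) • Pi.single i 1) = 0 := by
      rw [map_add, map_smul, map_smul]
      rw [map_add] at hd
      have h2 : (c - d) • j' (Pi.single 0 1) + (ci - d) • j' (Pi.single i 1) =
          (c • j' (Pi.single 0 1) + ci • j' (Pi.single i 1)) -
            d • (j' (Pi.single 0 1) + j' (Pi.single i 1)) := by module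
      rw [h2, hd, sub_self]
    have h2 : ((c - d) • Pi.single 0 1 + (ci - d) • Pi.single i 1 : Vec p) = 0 :=
      hj' (by rw [h1, map_zero])
    have e0 := congrFun h2 0
    have e1 := congrFun h2 i
    simp only [Pi.add_apply, Pi.smul_apply, Pi.single_eq_same, smul_eq_mul, mul_one,
      Pi.zero_apply, Pi.single_eq_of_ne (Ne.symm h0), Pi.single_eq_of_ne h0, mul_zero, add_zero,
      zero_add] at e0 e1
    rw [hci]
    congr 1
    rw [sub_eq_zero.1 e1, sub_eq_zero.1 e0]
  intro v
  have hv : v = ∑ i, v i • (Pi.single i 1 : Vec p) := by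
    ext i
    simp [Finset.sum_apply, Pi.single_apply]
  rw [hv, map_sum, map_sum, Finset.smul_sum]
  refine Finset.sum_congr rfl fun i _ => ?_
  rw [map_smul, map_smul, hi, smul_comm]

/-- For every vector there is a nonzero orthogonal vector. -/
theorem exists_orth (hp : 1 ≤ p) (v : Vec p) : ∃ u : Vec p, u ≠ 0 ∧ herm v u = 0 := by
  obtain ⟨s, t, hst⟩ : ∃ s t : Fin (p + 1), s ≠ t := ⟨0, ⟨1, by omega⟩, by
    intro h
    have := congrArg Fin.val h
    simp at this⟩
  by_cases h : herm v (Pi.single s 1) = 0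
  · exact ⟨Pi.single s 1, by
      intro h0
      have := congrFun h0 s
      simp at this, h⟩
  · refine ⟨herm v (Pi.single t 1) • Pi.single s 1 - herm v (Pi.single s 1) • Pi.single t 1,
      ?_, ?_⟩
    · intro h0
      have := congrFun h0 t
      simp only [Pi.sub_apply, Pi.smul_apply, Pi.single_eq_same, Pi.single_eq_of_ne hst.symm,
        smul_eq_mul, mul_zero, mul_one, zero_sub, Pi.zero_apply, neg_eq_zero] at this
      exact h this
    · rw [sub_eq_add_neg, herm_add_right, herm_smul_right, ← neg_smul, herm_smul_right]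
      ring

section

variable {N : ℕ} {R : Matrix (Fin N) (Fin N) ℂ} {j j' : Vec p →ₗ[ℂ] (Fin N → ℂ)} {a a' : ℂ}

/-- The polarised identity. -/
theorem polar_id
    (h : ∀ w ∈ Cone p, (q w : ℂ) • R = (2 * a) • vecMulVec (j w) (star (j w)) -
      (2 * a') • vecMulVec (j' w) (star (j' w))) (u v : Vec p) :
    herm v u • R = (2 * a) • vecMulVec (j u) (star (j v)) -
      (2 * a') • vecMulVec (j' u) (star (j' v)) := by
  have h1 := sesq_zero (fun u v => herm v u • R - ((2 * a) • vecMulVec (j u) (star (j v)) -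
      (2 * a') • vecMulVec (j' u) (star (j' v)))) ?_ ?_ ?_ ?_ ?_ u v
  · exact sub_eq_zero.1 h1
  · intro u u' v
    simp only [herm_add_right, map_add, Matrix.add_vecMulVec]
    module
  · intro u v v'
    simp only [herm_add_left, map_add, star_add, Matrix.vecMulVec_add]
    module
  · intro c u v
    simp only [herm_smul_right, map_smul, Matrix.smul_vecMulVec]
    module
  · intro c u v
    simp only [herm_smul_left, map_smul, star_smul, Matrix.vecMulVec_smul]
    module
  · intro w hw
    simp only [herm_self]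
    rw [h w hw, sub_self]

theorem vecMulVec_ne {x y : Fin N → ℂ} (hx : x ≠ 0) (hy : y ≠ 0) : vecMulVec x (star y) ≠ 0 := by
  obtain ⟨i, hi⟩ := Function.ne_iff.1 hx
  obtain ⟨k, hk⟩ := Function.ne_iff.1 hy
  intro h
  have := congrFun (congrFun h i) k
  rw [vecMulVec_apply, Pi.star_apply] at this
  exact mul_ne_zero hi (star_ne_zero.2 hk) this

/-- **The polarisation lemma.** -/
theorem polar (hp : 1 ≤ p) (hj' : Function.Injective j') (ha : a ≠ 0) (ha' : a' ≠ 0)
    (h : ∀ w ∈ Cone p, (q w : ℂ) • R = (2 * a) • vecMulVec (j w) (star (j w)) -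
      (2 * a') • vecMulVec (j' w) (star (j' w))) :
    R = 0 ∧ ∃ c : ℂ, c ≠ 0 ∧ (∀ w, j w = c • j' w) ∧ a * (c * star c) = a' := by
  have hid := polar_id h
  have hpr : ∀ v, ∃ c : ℂ, j v = c • j' v := by
    intro v
    by_cases hv : v = 0
    · exact ⟨0, by rw [hv, map_zero, map_zero, smul_zero]⟩
    obtain ⟨u, hu, huv⟩ := exists_orth hp v
    have h1 := hid u v
    rw [huv, zero_smul] at h1
    have h2 : (2 * a) • vecMulVec (j u) (star (j v)) =
        (2 * a') • vecMulVec (j' u) (star (j' v)) := (sub_eq_zero.1 h1.symm)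
    have hju : j' u ≠ 0 := fun h0 => hu (hj' (by rw [h0, map_zero]))
    have hjv : j' v ≠ 0 := fun h0 => hv (hj' (by rw [h0, map_zero]))
    obtain ⟨i, hi⟩ := Function.ne_iff.1 hju
    obtain ⟨k, hk⟩ := Function.ne_iff.1 hjv
    have e : ∀ l, a * (j u i * star (j v l)) = a' * (j' u i * star (j' v l)) := by
      intro l
      have := congrFun (congrFun h2 i) l
      simp only [Matrix.smul_apply, vecMulVec_apply, Pi.star_apply, smul_eq_mul] at this
      linear_combination (1 / 2 : ℂ) * this
    have hjui : j u i ≠ 0 := by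
      intro h0
      have h3 := e k
      rw [h0, zero_mul, mul_zero] at h3
      exact mul_ne_zero ha' (mul_ne_zero hi (star_ne_zero.2 hk)) h3.symm
    refine ⟨star (a' * j' u i / (a * j u i)), ?_⟩
    funext l
    have h3 := e l
    have h4 : star (j v l) = a' * j' u i / (a * j u i) * star (j' v l) := by
      field_simp
      linear_combination h3
    have h5 := congrArg star h4
    rw [star_star, star_mul', star_star] at h5
    rw [Pi.smul_apply, smul_eq_mul, h5]
  obtain ⟨c, hc⟩ := prop_of_prop hj' hpr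
  obtain ⟨u, hu, huv⟩ := exists_orth hp (base p)
  have hb0 : base p ≠ 0 := by
    intro h0
    have := congrFun h0 (Fin.last p)
    simp [base] at this
  have hju : j' u ≠ 0 := fun h0 => hu (hj' (by rw [h0, map_zero]))
  have hjb : j' (base p) ≠ 0 := fun h0 => hb0 (hj' (by rw [h0, map_zero]))
  have h1 := hid u (base p)
  rw [huv, zero_smul, hc, hc, star_smul, Matrix.smul_vecMulVec, Matrix.vecMulVec_smul] at h1
  have h2 : (2 * (a * (c * star c) - a')) • vecMulVec (j' u) (star (j' (base p))) = 0 := by
    rw [h1]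
    module
  have h3 : a * (c * star c) = a' := by
    rcases smul_eq_zero.1 h2 with h4 | h4
    · exact sub_eq_zero.1 ((mul_eq_zero.1 h4).resolve_left two_ne_zero)
    · exact absurd h4 (vecMulVec_ne hju hjb)
  have hc0 : c ≠ 0 := by
    rintro rfl
    rw [zero_mul, mul_zero] at h3
    exact ha' h3.symm
  refine ⟨?_, c, hc0, hc, h3⟩
  have h4 := h (base p) (base_mem p)
  rw [q_base, hc, star_smul, Matrix.smul_vecMulVec, Matrix.vecMulVec_smul] at h4
  have h5 : R = (-(2 * (a * (c * star c) - a'))) •
      vecMulVec (j' (base p)) (star (j' (base p))) := by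
    have h6 : R = (-1 : ℂ) • ((((-1 : ℝ) : ℂ)) • R) := by
      rw [smul_smul]
      norm_num
    rw [h6, h4]
    module
  rw [h5, h3, sub_self, mul_zero, neg_zero, zero_smul]

/-- The standard metric is not constant on a space of positive dimension. -/
theorem polar_absurd (hp : 1 ≤ p) (hj : Function.Injective j) (ha : a ≠ 0)
    (h : ∀ w ∈ Cone p, (q w : ℂ) • R = (2 * a) • vecMulVec (j w) (star (j w))) : False := by
  have hid := polar_id (R := R) (j := j) (j' := 0) (a := a) (a' := 0) (fun w hw => by
    rw [h w hw]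
    simp)
  obtain ⟨u, hu, huv⟩ := exists_orth hp (base p)
  have hb0 : base p ≠ 0 := by
    intro h0
    have := congrFun h0 (Fin.last p)
    simp [base] at this
  have hju : j u ≠ 0 := fun h0 => hu (hj (by rw [h0, map_zero]))
  have hjb : j (base p) ≠ 0 := fun h0 => hb0 (hj (by rw [h0, map_zero]))
  have h1 := hid u (base p)
  rw [huv, zero_smul, mul_zero, zero_smul, sub_zero] at h1
  exact (smul_ne_zero (mul_ne_zero two_ne_zero ha) (vecMulVec_ne hju hjb)) h1.symm

end

end Pool.Agent.Lib.MP_5d4057_al.CF
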