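import Pool.Agent.Lib.MP_5d4057_al.CF.Defs

/-!
# CF: the elements of a piece are block diagonal
-/

set_option autoImplicit false

namespace Pool.Agent.Lib.MP_5d4057_al.CF

open Matrix Filter Topology Pool.Agent.Lib.MP_5d4057_al Pool.Agent.Lib.MP_5d4057_al.Hyb
  Pool.Agent.Lib.MP_5d4057_al.HM Pool.Agent.Lib.MP_5d4057_al.RC Pool.Agent.Lib.MP_5d4057_al.NU

variable {j : ℕ} {Λ : Subgroup (SUGroup j)} {g : SUGroup (j + 1)} {S : Subgroup (SUGroup (j + 1))}

/-- The form of a block. -/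
theorem blk_form {x : SUGroup (j + 1)} {χ : ℂ} {Y : Mat (j + 1)}
    (h : x.toMatrix = dsum χ Y) : star χ * χ = 1 ∧ Yᴴ * J j * Y = J j := by
  have hu : (dsum χ Y)ᴴ * J (j + 1) * dsum χ Y = J (j + 1) := by
    rw [← h]
    exact pres _
  rw [J_succ, dsum_conjTranspose, dsum_mul, dsum_mul, mul_one] at hu
  refine ⟨?_, ?_⟩
  · have := congrFun (congrFun hu 0) 0
    rwa [dsum_zero_zero, dsum_zero_zero] at this
  · ext a b
    have := congrFun (congrFun hu a.succ) b.succ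
    rwa [dsum_succ_succ, dsum_succ_succ] at this

/-- A vector fixed by a spanning set of matrices of size at least two is zero. -/
theorem eq_zero_of_fix {n : ℕ} (hn : 1 ≤ n) {Δ : Subgroup (SUGroup n)}
    (hspan : Submodule.span ℂ (SUGroup.toMatrix '' (Δ : Set (SUGroup n))) = ⊤)
    {v : Vec n} (h : ∀ x ∈ Δ, act x v = v) : v = 0 := by
  have hall : ∀ M : Matrix (Fin (n + 1)) (Fin (n + 1)) ℂ, ∃ c : ℂ, M *ᵥ v = c • v := by
    intro M
    have hM : M ∈ Submodule.span ℂ (SUGroup.toMatrix '' (Δ : Set (SUGroup n))) := by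
      rw [hspan]
      trivial
    induction hM using Submodule.span_induction with
    | mem x hx =>
      obtain ⟨γ, hγ, rfl⟩ := hx
      exact ⟨1, by rw [one_smul]; exact h γ hγ⟩
    | zero => exact ⟨0, by rw [zero_mulVec, zero_smul]⟩
    | add x y _ _ hx hy =>
      obtain ⟨c, hc⟩ := hx
      obtain ⟨d, hd⟩ := hy
      exact ⟨c + d, by rw [add_mulVec, hc, hd, add_smul]⟩
    | smul a x _ hx =>
      obtain ⟨c, hc⟩ := hx
      exact ⟨a * c, by rw [smul_mulVec, hc, smul_smul]⟩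
  by_contra hne
  obtain ⟨l, hl⟩ : ∃ l, v l ≠ 0 := by
    by_contra hcon
    push Not at hcon
    exact hne (funext hcon)
  have : Nontrivial (Fin (n + 1)) := Fin.nontrivial_iff_two_le.2 (by omega)
  obtain ⟨i, hi⟩ : ∃ i : Fin (n + 1), i ≠ l := exists_ne l
  obtain ⟨c, hc⟩ := hall (Matrix.single i l 1)
  have h4 := congrFun hc l
  have h5 := congrFun hc i
  rw [Matrix.mulVec, dotProduct] at h4 h5
  rw [Finset.sum_eq_zero (fun a _ => by
    rw [Matrix.single_apply, if_neg (by rintro ⟨h6, -⟩; exact hi h6), zero_mul])] at h4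
  rw [Finset.sum_eq_single l (fun a _ ha => by
    rw [Matrix.single_apply, if_neg (by rintro ⟨-, h6⟩; exact ha h6.symm), zero_mul])
    (fun h6 => absurd (Finset.mem_univ _) h6), Matrix.single_apply, if_pos ⟨rfl, rfl⟩, one_mul] at h5
  have hc0 : c = 0 := by
    rcases mul_eq_zero.1 h4.symm with h6 | h6
    · exact h6
    · exact absurd h6 hl
  rw [hc0, zero_smul] at h5
  exact hl h5

/-- An element which preserves the line of `e_0` is block diagonal. -/
theorem blk_of_col {x : SUGroup (j + 1)} (h : ∀ i : Fin (j + 1), x.toMatrix i.succ 0 = 0) :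
    ∃ (χ : ℂ) (Y : Mat (j + 1)), x.toMatrix = dsum χ Y := by
  have hp := pres x
  have hent : ∀ l : Fin (j + 1 + 1), (x.toMatrixᴴ * J (j + 1) * x.toMatrix) 0 l =
      star (x.toMatrix 0 0) * x.toMatrix 0 l := by
    intro l
    rw [Matrix.mul_assoc, Matrix.mul_apply, Fin.sum_univ_succ, Finset.sum_eq_zero, add_zero,
      conjTranspose_apply, J, Matrix.diagonal_mul, if_neg (Fin.last_pos.ne), one_mul]
    intro i _
    rw [conjTranspose_apply, h, star_zero, zero_mul]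
  have h00 : star (x.toMatrix 0 0) * x.toMatrix 0 0 = 1 := by
    rw [← hent, hp, J, Matrix.diagonal_apply_eq, if_neg (Fin.last_pos.ne)]
  have hne : star (x.toMatrix 0 0) ≠ 0 := left_ne_zero_of_mul_eq_one h00
  have h0l : ∀ l : Fin (j + 1), x.toMatrix 0 l.succ = 0 := by
    intro l
    have h1 := hent l.succ
    rw [hp, J, Matrix.diagonal_apply_ne _ (Fin.succ_ne_zero l).symm] at h1
    exact (mul_eq_zero.1 h1.symm).resolve_left hne
  refine ⟨x.toMatrix 0 0, x.toMatrix.submatrix Fin.succ Fin.succ, ?_⟩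
  ext a b
  refine Fin.cases ?_ (fun a => ?_) a <;> refine Fin.cases ?_ (fun b => ?_) b
  · rw [dsum_zero_zero]
  · rw [dsum_zero_succ, h0l]
  · rw [dsum_succ_zero, h]
  · rw [dsum_succ_succ]
    rfl

/-- PROOF: `P = Λ.map (emb g)` has finite index in `S`, so `Δ = {y ∈ Λ | s⁻¹ * emb g y * s ∈ P}` has
finite index in `Λ` (conjugation by `s` maps `S` to itself, see the beginning of `wide_scalar`); with
`B = g⁻¹ * s * g` and `y ∈ Δ`: `(1 ⊕ y) B = B (1 ⊕ y')`, so `(1 ⊕ y) (B e_0) = B e_0`. `Δ` spans the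
matrices (`span_top_fin`), so the lower part of `B e_0` is zero (a vector fixed by all `y ∈ Δ`: the
span maps it into its own line, and `j ≥ 1`). `B` preserves the form, so it maps the orthogonal
complement of `e_0` to itself: `B` is block diagonal. -/
theorem blk (hj : 1 ≤ j) (hP : Piece Λ g S) {s : SUGroup (j + 1)} (hs : s ∈ S) :
    ∃ (χ : ℂ) (Y : Mat (j + 1)), star χ * χ = 1 ∧ Yᴴ * J j * Y = J j ∧
      (g⁻¹ * s * g).toMatrix = dsum χ Y := by
  obtain ⟨P, hPd⟩ : ∃ P, P = Λ.map (emb g) := ⟨_, rfl⟩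
  obtain ⟨Q, hQ⟩ : ∃ Q : Subgroup (SUGroup (j + 1)), Q = P.comap (MulAut.conj s⁻¹).toMonoidHom :=
    ⟨_, rfl⟩
  have hmap : S.map (MulAut.conj s⁻¹).toMonoidHom = S := by
    ext x
    constructor
    · rintro ⟨y, hy, rfl⟩
      show s⁻¹ * y * (s⁻¹)⁻¹ ∈ S
      rw [inv_inv]
      exact S.mul_mem (S.mul_mem (S.inv_mem hs) hy) hs
    · intro hx
      refine ⟨s * x * s⁻¹, S.mul_mem (S.mul_mem hs hx) (S.inv_mem hs), ?_⟩
      show s⁻¹ * (s * x * s⁻¹) * (s⁻¹)⁻¹ = x
      group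
  have hQi : Q.relIndex S ≠ 0 := by
    rw [hQ, Subgroup.relIndex_comap, hmap, hPd]
    exact hP.fin
  obtain ⟨Δ, hΔ⟩ : ∃ Δ : Subgroup (SUGroup j), Δ = Λ ⊓ Q.comap (emb g) := ⟨_, rfl⟩
  have hΔi : Δ.relIndex Λ ≠ 0 := by
    rw [hΔ, Subgroup.inf_relIndex_left, Subgroup.relIndex_comap]
    intro h0
    exact hQi (Subgroup.relIndex_eq_zero_of_le_right hP.le h0)
  have hspan := span_top_fin hj Λ Δ hP.lat hΔi
  obtain ⟨B, hB⟩ : ∃ B, B = g⁻¹ * s * g := ⟨_, rfl⟩
  have hcomm : ∀ y ∈ Δ, ∃ y' : SUGroup j, extend j y * B = B * extend j y' := by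
    intro y hy
    rw [hΔ] at hy
    have h1 : s⁻¹ * emb g y * (s⁻¹)⁻¹ ∈ P := by
      have h2 : emb g y ∈ Q := hy.2
      rw [hQ] at h2
      exact h2
    rw [hPd] at h1
    obtain ⟨y', -, h3⟩ := h1
    refine ⟨y', ?_⟩
    rw [emb_apply, emb_apply] at h3
    have h4 : g * extend j y' * g⁻¹ = s⁻¹ * (g * extend j y * g⁻¹) * s := by
      rw [h3, inv_inv]
    have h5 : extend j y' = g⁻¹ * (s⁻¹ * (g * extend j y * g⁻¹) * s) * g := by
      rw [← h4]
      group
    rw [h5, hB]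
    group
  have hcol : ∀ i : Fin (j + 1), B.toMatrix i.succ 0 = 0 := by
    have h1 : (fun i : Fin (j + 1) => B.toMatrix i.succ 0) = (0 : Vec j) := by
      refine eq_zero_of_fix hj hspan fun y hy => ?_
      obtain ⟨y', hy'⟩ := hcomm y hy
      have h2 := congrArg SUGroup.toMatrix hy'
      rw [toMatrix_mul, toMatrix_mul, extend_toMatrix, extend_toMatrix] at h2
      funext i
      have h3 := congrFun (congrFun h2 i.succ) 0
      have h4 : (dsum 1 y.toMatrix * B.toMatrix) i.succ 0 =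
          ∑ l : Fin (j + 1), y.toMatrix i l * B.toMatrix l.succ 0 := by
        rw [Matrix.mul_apply, Fin.sum_univ_succ, dsum_succ_zero, zero_mul, zero_add]
        exact Finset.sum_congr rfl fun l _ => by rw [dsum_succ_succ]
      have h5 : (B.toMatrix * dsum 1 y'.toMatrix) i.succ 0 = B.toMatrix i.succ 0 := by
        rw [Matrix.mul_apply, Fin.sum_univ_succ, dsum_zero_zero, mul_one,
          Finset.sum_eq_zero (fun l _ => by rw [dsum_succ_zero, mul_zero]), add_zero]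
      rw [h4, h5] at h3
      exact h3
    exact fun i => congrFun h1 i
  obtain ⟨χ, Y, h⟩ := blk_of_col hcol
  obtain ⟨h1, h2⟩ := blk_form h
  exact ⟨χ, Y, h1, h2, by rw [← hB]; exact h⟩

/-- The action of a block diagonal element on the hyperplane. -/
theorem act_hyp_blk {s : SUGroup (j + 1)} {χ : ℂ} {Y : Mat (j + 1)}
    (h : (g⁻¹ * s * g).toMatrix = dsum χ Y) (w : Vec j) :
    act s (HM.hyp g w) = HM.hyp g (Y *ᵥ w) := by
  rw [hyp_apply, hyp_apply, ← act_mul]
  have e : s * g = g * (g⁻¹ * s * g) := by group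
  rw [e, act_mul]
  congr 1
  rw [act, h, dsum_mulVec_inc]

/-- Matrices which preserve `J`. -/
theorem herm_mulVec {Y : Mat (j + 1)} (h : Yᴴ * J j * Y = J j) (v w : Vec j) :
    herm (Y *ᵥ v) (Y *ᵥ w) = herm v w := by
  rw [herm, herm, star_mulVec, mulVec_mulVec, ← dotProduct_mulVec, mulVec_mulVec,
    ← Matrix.mul_assoc, h]

theorem q_mulVec {Y : Mat (j + 1)} (h : Yᴴ * J j * Y = J j) (w : Vec j) : q (Y *ᵥ w) = q w := by
  rw [q, q, herm_mulVec h]

theorem mul_J_mul_of {Y : Mat (j + 1)} (h : Yᴴ * J j * Y = J j) : Y * J j * Yᴴ = J j := by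
  have h1 : (J j * Yᴴ * J j) * Y = 1 := by
    rw [Matrix.mul_assoc, Matrix.mul_assoc, ← Matrix.mul_assoc Yᴴ, h, J_mul_J]
  have h2 : Y * (J j * Yᴴ * J j) = 1 := mul_eq_one_comm.1 h1
  calc Y * J j * Yᴴ = Y * (J j * Yᴴ * J j) * J j := by
        simp only [Matrix.mul_assoc]
        rw [J_mul_J, mul_one]
    _ = J j := by rw [h2, one_mul]

theorem std_mulVec {Y : Mat (j + 1)} (h : Yᴴ * J j * Y = J j) (w : Vec j) :
    std (Y *ᵥ w) = Y * std w * Yᴴ := by
  rw [std, std, q_mulVec h, Matrix.mul_add, Matrix.add_mul, mul_J_mul_of h, Matrix.mul_smul,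
    Matrix.smul_mul, mul_vecMulVec, vecMulVec_mul, star_mulVec]

end Pool.Agent.Lib.MP_5d4057_al.CF
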