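import Pool.Agent.Lib.MP_5d4057_al.CF.Blk
import Pool.Agent.Lib.MP_5d4057_al.GX.FrmA

/-!
# CF: two hyperplanes which meet
-/

set_option autoImplicit false

namespace Pool.Agent.Lib.MP_5d4057_al.CF

open Matrix Filter Topology Pool.Agent.Lib.MP_5d4057_al Pool.Agent.Lib.MP_5d4057_al.Hyb
  Pool.Agent.Lib.MP_5d4057_al.HM Pool.Agent.Lib.MP_5d4057_al.RC Pool.Agent.Lib.MP_5d4057_al.NU

open scoped ComplexOrder

variable {j k : ℕ}

theorem nrm_eq_e0 (j : ℕ) : nrm j = GX.e0 j := GX.e0_eq_cons.symm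

theorem Meet.symm {g g' : SUGroup (j + 1)} (h : Meet g g') : Meet g' g := by
  obtain ⟨v, hv, h1, h2⟩ := h
  exact ⟨v, hv, h2, h1⟩

/-- If `X 0 1 = 0` then the normal vectors are proportional. -/
theorem prop_of_zero {g0 g1 : SUGroup (k + 2)} {X : Mat 2}
    (hX : Xᴴ * X = 1) (h0 : X 0 1 = 0) (hg : g1.toMatrix = g0.toMatrix * bsum X 1) :
    act g1 (nrm (k + 1)) = X 0 0 • act g0 (nrm (k + 1)) := by
  have h1 : X * Xᴴ = 1 := mul_eq_one_comm.1 hX
  have h2 := congrFun (congrFun h1 0) 0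
  have h3 := congrFun (congrFun hX 0) 0
  rw [Matrix.mul_apply, Fin.sum_univ_two, conjTranspose_apply, conjTranspose_apply, h0] at h2
  rw [Matrix.mul_apply, Fin.sum_univ_two, conjTranspose_apply, conjTranspose_apply] at h3
  have h4 : star (X 1 0) * X 1 0 = 0 := by
    have h5 : star (X 0 0) * X 0 0 = 1 := by
      rw [mul_comm]
      simpa using h2
    rw [h5, one_apply_eq] at h3
    simpa using h3
  have h10 : X 1 0 = 0 := by
    rcases mul_eq_zero.1 h4 with h | h
    · exact star_eq_zero.1 h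
    · exact h
  have h6 : (nrm (k + 1) : Vec (k + 2)) = Fin.cons 1 (Fin.cons 0 0) := by
    rw [nrm]
    congr 1
    funext i
    refine Fin.cases ?_ (fun i => ?_) i <;> rfl
  have h7 : bsum X (1 : Matrix (Fin (k + 1)) (Fin (k + 1)) ℂ) *ᵥ (nrm (k + 1) : Vec (k + 2)) =
      X 0 0 • (nrm (k + 1) : Vec (k + 2)) := by
    rw [h6, bsum_mulVec_cons, h10]
    funext i
    refine Fin.cases ?_ (fun i => ?_) i
    · simp
    · refine Fin.cases ?_ (fun i => ?_) i
      · simp
      · simp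
  rw [act, act, hg, ← mulVec_mulVec, h7, mulVec_smul]

/-- Equal hyperplanes, or a common frame. PROOF: the two unit normal vectors are in the positive
definite space `v^⊥`, so `‖herm n n'‖ ≤ 1` (Cauchy - Schwarz) with equality only if they are
proportional; otherwise `GX.exists_frames`, and `X 0 1 = 0` would make them proportional
(`GX.prop_of_zero` in GX/Fin.lean: copy the computation). -/
theorem meet_frame {g g' : SUGroup (k + 2)} (h : Meet g g') :
    (∃ c : ℂ, act g' (nrm (k + 1)) = c • act g (nrm (k + 1))) ∨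
    ∃ (u u' : SUGroup (k + 1)) (X : Mat 2), Xᴴ * X = 1 ∧ X 0 1 ≠ 0 ∧
      (g' * extend (k + 1) u').toMatrix = (g * extend (k + 1) u).toMatrix * bsum X 1 := by
  obtain ⟨v, hv, h0, h1⟩ := h
  obtain ⟨n0, hn0⟩ : ∃ n0, n0 = act g (nrm (k + 1)) := ⟨_, rfl⟩
  obtain ⟨n1, hn1⟩ : ∃ n1, n1 = act g' (nrm (k + 1)) := ⟨_, rfl⟩
  rw [← hn0] at h0
  rw [← hn1] at h1
  obtain ⟨c, hc⟩ : ∃ c, c = herm n0 n1 := ⟨_, rfl⟩
  have hq0 : herm n0 n0 = 1 := by
    rw [herm_self, hn0, q_act, nrm_eq_e0, GX.q_e0, Complex.ofReal_one]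
  have hq1 : herm n1 n1 = 1 := by
    rw [herm_self, hn1, q_act, nrm_eq_e0, GX.q_e0, Complex.ofReal_one]
  have hc' : herm n1 n0 = star c := by rw [herm_comm, ← hc]
  obtain ⟨p, hp⟩ : ∃ p, p = n1 + (-c) • n0 := ⟨_, rfl⟩
  by_cases hp0 : p = 0
  · left
    refine ⟨c, ?_⟩
    rw [hp, neg_smul, ← sub_eq_add_neg, sub_eq_zero] at hp0
    rw [← hn0, ← hn1]
    exact hp0
  · right
    have hqp : herm p p = ((1 - ‖c‖ ^ 2 : ℝ) : ℂ) := by
      rw [hp, herm_add_right, herm_add_left, herm_smul_right, herm_add_left, herm_smul_left,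
        herm_smul_left, hq0, hq1, ← hc, hc', star_neg]
      have hcc : star c * c = (‖c‖ : ℂ) ^ 2 := by
        rw [RCLike.star_def, Complex.conj_mul']
      push_cast
      rw [← hcc]
      ring
    have hqp' : q p = 1 - ‖c‖ ^ 2 := by
      have h2 := herm_self p
      rw [hqp] at h2
      exact_mod_cast h2.symm
    have hvp : herm v p = 0 := by
      rw [hp, herm_add_right, herm_smul_right, herm_comm n1 v, herm_comm n0 v, h0, h1]
      simp
    have hpos : 0 < q p := q_pos_of_orth hv hvp hp0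
    have hlt : ‖c‖ < 1 := by
      rw [hqp'] at hpos
      nlinarith [norm_nonneg c]
    obtain ⟨u, X, hX, hg⟩ := GX.exists_frames ![g, g'] (by
      show ‖herm (act g (GX.e0 (k + 1))) (act g' (GX.e0 (k + 1)))‖ < 1
      rw [← nrm_eq_e0, ← hn0, ← hn1, ← hc]
      exact hlt)
    refine ⟨u 0, u 1, X, hX, ?_, hg⟩
    intro h01
    have h2 := prop_of_zero hX h01 hg
    have h3 : ∀ (a : SUGroup (k + 2)) (b : SUGroup (k + 1)),
        act (a * extend (k + 1) b) (nrm (k + 1)) = act a (nrm (k + 1)) := by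
      intro a b
      rw [act_mul, nrm_eq_e0, GX.act_extend_e0]
    have h4 : n1 = X 0 0 • n0 := by
      rw [hn0, hn1, ← h3 g' (u 1), ← h3 g (u 0)]
      exact h2
    have h5 : c = X 0 0 := by
      rw [hc, h4, herm_smul_right, hq0, mul_one]
    refine hp0 ?_
    rw [hp, h5, h4, neg_smul, ← sub_eq_add_neg, sub_self]

/-- Equal hyperplanes. PROOF: `g⁻¹ g' e_0 = c e_0` and `g⁻¹ g'` preserves the form, so
`(g⁻¹ g').toMatrix = dsum c Y`. -/
theorem hyp_of_prop {g g' : SUGroup (j + 1)} {c : ℂ} (h : act g' (nrm j) = c • act g (nrm j)) :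
    ∃ Y : Mat (j + 1), Yᴴ * J j * Y = J j ∧ ∀ w : Vec j, HM.hyp g' w = HM.hyp g (Y *ᵥ w) := by
  obtain ⟨x, hx⟩ : ∃ x, x = g⁻¹ * g' := ⟨_, rfl⟩
  have h1 : act x (nrm j) = c • nrm j := by
    rw [hx, act_mul, h, act_smul, ← act_mul, inv_mul_cancel, act_one]
  have hcol : ∀ i : Fin (j + 1), x.toMatrix i.succ 0 = 0 := by
    intro i
    have h2 := congrFun h1 i.succ
    rw [nrm_eq_e0, act, GX.e0, mulVec_single_one, Pi.smul_apply,
      Pi.single_eq_of_ne (Fin.succ_ne_zero i), smul_zero] at h2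
    exact h2
  obtain ⟨χ, Y, hY⟩ := blk_of_col hcol
  refine ⟨Y, (blk_form hY).2, fun w => ?_⟩
  have e : g' = g * x := by
    rw [hx]
    group
  rw [hyp_apply, hyp_apply, e, act_mul]
  congr 1
  rw [act, hY, dsum_mulVec_inc]

/-- The common part of two hyperplanes which meet. PROOF: `meet_frame`. In the first case
`A = Y * inc`, `B = inc` from `hyp_of_prop`; in the second case `A x = act u (inc x)`,
`B x = act u' (inc x)`. -/
theorem meet_lin {g g' : SUGroup (k + 2)} (h : Meet g g') :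
    ∃ A B : Vec k →ₗ[ℂ] Vec (k + 1), (∀ x, q (A x) = q x) ∧ (∀ x, q (B x) = q x) ∧
      ∀ x, HM.hyp g (A x) = HM.hyp g' (B x) := by
  rcases meet_frame h with ⟨c, hc⟩ | ⟨u, u', X, -, -, hg⟩
  · obtain ⟨Y, hY, h1⟩ := hyp_of_prop hc
    refine ⟨(Matrix.toLin' Y).comp (inc k).toLinearMap, (inc k).toLinearMap, fun x => ?_,
      fun x => q_inc x, fun x => ?_⟩
    · show q (Matrix.toLin' Y (inc k x)) = q x
      rw [Matrix.toLin'_apply, q_mulVec hY, q_inc]
    · show HM.hyp g (Matrix.toLin' Y (inc k x)) = HM.hyp g' (inc k x)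
      rw [Matrix.toLin'_apply, h1]
  · refine ⟨((actC u).comp (inc k)).toLinearMap, ((actC u').comp (inc k)).toLinearMap,
      fun x => ?_, fun x => ?_, fun x => ?_⟩
    · show q (act u (inc k x)) = q x
      rw [q_act, q_inc]
    · show q (act u' (inc k x)) = q x
      rw [q_act, q_inc]
    · show act g (inc (k + 1) (act u (inc k x))) = act g' (inc (k + 1) (act u' (inc k x)))
      rw [← act_extend, ← act_extend, ← act_mul, ← act_mul]
      rw [act, act, hg, ← mulVec_mulVec]
      congr 1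
      rw [inc_apply, inc_apply, bsum_mulVec_cons, one_mulVec]
      simp

/-- Isometries are injective. PROOF: polarise: `herm (A x) (A y) = herm x y`. -/
theorem inj_of_isom {p : ℕ} {A : Vec p →ₗ[ℂ] Vec j} (hA : ∀ x, q (A x) = q x) :
    Function.Injective A := by
  have hadd : ∀ {m : ℕ} (v w : Vec m), ((q (v + w) : ℝ) : ℂ) =
      (q v : ℂ) + (q w : ℂ) + herm v w + herm w v := by
    intro m v w
    rw [← herm_self, ← herm_self, ← herm_self, herm_add_right, herm_add_left, herm_add_left]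
    ring
  have hre : ∀ x y, herm (A x) (A y) + herm (A y) (A x) = herm x y + herm y x := by
    intro x y
    have h1 := hadd (A x) (A y)
    have h2 := hadd x y
    rw [← map_add, hA, hA, hA] at h1
    linear_combination h2 - h1
  have hherm : ∀ x y, herm (A x) (A y) = herm x y := by
    intro x y
    have h1 := hre x y
    have h2 := hre x (Complex.I • y)
    rw [map_smul, herm_smul_right, herm_smul_left, herm_smul_right, herm_smul_left,
      RCLike.star_def, Complex.conj_I] at h2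
    have h3 : Complex.I * Complex.I = -1 := Complex.I_mul_I
    linear_combination (1 / 2) * h1 - (Complex.I / 2) * h2 + ((1 / 2) * (herm (A x) (A y) - herm (A y) (A x) - herm x y + herm y x)) * h3
  rw [← LinearMap.ker_eq_bot, LinearMap.ker_eq_bot']
  intro x hx
  have h1 : herm x (J p *ᵥ x) = 0 := by
    rw [← hherm, hx, herm, star_zero, zero_dotProduct]
  rw [herm, mulVec_mulVec, J_mul_J, one_mulVec] at h1
  have h2 : x ⬝ᵥ star x = 0 := by
    rw [dotProduct_comm]
    exact h1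
  exact dotProduct_self_star_eq_zero.1 h2

end Pool.Agent.Lib.MP_5d4057_al.CF
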