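import Pool.Agent.Lib.MP_5d4057_al.CF.Pol
import Pool.Agent.Lib.MP_5d4057_al.CF.Blk
import Pool.Agent.Lib.MP_5d4057_al.CF.Meet

/-!
# CF: comparison of two adjacent pieces
-/

set_option autoImplicit false

namespace Pool.Agent.Lib.MP_5d4057_al.CF

open Matrix Filter Topology Pool.Agent.Lib.MP_5d4057_al Pool.Agent.Lib.MP_5d4057_al.Hyb
  Pool.Agent.Lib.MP_5d4057_al.HM Pool.Agent.Lib.MP_5d4057_al.RC Pool.Agent.Lib.MP_5d4057_al.NU

open scoped ComplexOrder MatrixOrder Matrix.Norms.L2Operator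

variable {j p : ℕ} {g g' : SUGroup (j + 1)} {F : Vec (j + 1) → Mat (j + 2)}
  {Q Q' : Mat (j + 2)} {l a l' a' : ℂ} {A B : Vec p →ₗ[ℂ] Vec j}

/-- A slice with a term of rank one. -/
theorem slice_rk (Q : Mat (j + 2)) (l a c : ℂ) (x : Vec j) :
    Q * dsum l (a • (J j + c • vecMulVec x (star x))) * Qᴴ =
      nf Q l a + (a * c) • vecMulVec (Q *ᵥ inc j x) (star (Q *ᵥ inc j x)) := by
  have e1 : dsum l (a • (J j + c • vecMulVec x (star x))) =
      dsum l (a • J j) + (a * c) • vecMulVec (inc j x) (star (inc j x)) := by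
    rw [← dsum_zero_vm, ← smul_dsum_zero]
    ext i k
    refine Fin.cases ?_ (fun i => ?_) i <;> refine Fin.cases ?_ (fun k => ?_) k
    · simp
    · simp
    · simp
    · simp only [Matrix.add_apply, dsum_succ_succ, Matrix.smul_apply, smul_eq_mul]
      ring
  rw [e1, nf, Matrix.mul_add, Matrix.add_mul, Matrix.mul_smul, Matrix.smul_mul, mul_vecMulVec,
    vecMulVec_mul, star_mulVec]

/-- The conjugate of the standard metric. -/
theorem std_cj (w : Vec j) : (std w).map cj =
    J j + (-2 * (q w : ℂ)⁻¹) • vecMulVec (star w) (star (star w)) := by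
  have hJ : ∀ i k, cj (J j i k) = J j i k := by
    intro i k
    rw [cj_apply, J, diagonal_apply]
    split_ifs <;> simp
  have hc : cj (-2 * (q w : ℂ)⁻¹) = -2 * (q w : ℂ)⁻¹ := by
    rw [cj_apply, map_mul, map_neg, map_inv₀, Complex.conj_ofReal, map_ofNat]
  ext i k
  rw [Matrix.map_apply, std, Matrix.add_apply, Matrix.smul_apply, smul_eq_mul, map_add, map_mul, hJ,
    hc, vecMulVec_apply, map_mul, Matrix.add_apply, Matrix.smul_apply, smul_eq_mul,
    vecMulVec_apply]
  rfl

/-- The metric of type S as a quadratic function. -/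
theorem TyS.eq (h : TyS F g Q l a) {w : Vec j} (hw : w ∈ Cone j) :
    (q w : ℂ) • (nf Q l a - F (HM.hyp g w)) =
      (2 * a) • vecMulVec (Q *ᵥ inc j w) (star (Q *ᵥ inc j w)) := by
  have hq := q_ne hw
  have e3 : (q w : ℂ) * (a * (-2 * (q w : ℂ)⁻¹)) = -(2 * a) := by
    field_simp
  rw [h.slice w hw, std, slice_rk, sub_add_cancel_left, smul_neg, smul_smul, e3, neg_smul, neg_neg]

theorem TyC.eq (h : TyC F g Q l a) {w : Vec j} (hw : w ∈ Cone j) :
    (q w : ℂ) • (nf Q l a - F (HM.hyp g w)) =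
      (2 * a) • vecMulVec (Q *ᵥ inc j (star w)) (star (Q *ᵥ inc j (star w))) := by
  have hq := q_ne hw
  have e3 : (q w : ℂ) * (a * (-2 * (q w : ℂ)⁻¹)) = -(2 * a) := by
    field_simp
  rw [h.slice w hw, std_cj, slice_rk, sub_add_cancel_left, smul_neg, smul_smul, e3, neg_smul,
    neg_neg]

/-- The linear map `x ↦ Q (0, A x)`. -/
noncomputable def qinc (Q : Mat (j + 2)) (A : Vec p →ₗ[ℂ] Vec j) : Vec p →ₗ[ℂ] Vec (j + 1) :=
  Q.mulVecLin ∘ₗ (inc j : Vec j →ₗ[ℂ] Vec (j + 1)) ∘ₗ A

theorem qinc_apply (x : Vec p) : qinc Q A x = Q *ᵥ inc j (A x) := rfl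

theorem inc_inj : Function.Injective (inc j) := by
  intro x y h
  funext i
  exact congrFun h i.succ

theorem qinc_inj (hQ : IsUnit Q) (hA : Function.Injective A) :
    Function.Injective (qinc Q A) := by
  intro x y h
  rw [qinc_apply, qinc_apply] at h
  exact hA (inc_inj (mulVec_injective_of_isUnit hQ h))

/-- The conjugate of a linear map. -/
noncomputable def cbar (A : Vec p →ₗ[ℂ] Vec j) : Vec p →ₗ[ℂ] Vec j where
  toFun x := star (A (star x))
  map_add' x y := by rw [star_add, map_add, star_add]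
  map_smul' c x := by rw [star_smul, map_smul, star_smul, star_star, RingHom.id_apply]

theorem cbar_apply (x : Vec p) : cbar A x = star (A (star x)) := rfl

theorem q_star (x : Vec p) : q (star x) = q x := by
  rw [q_eq, q_eq]
  simp only [Pi.star_apply, norm_star]

theorem q_cbar (hA : ∀ x, q (A x) = q x) (x : Vec p) : q (cbar A x) = q x := by
  rw [cbar_apply, q_star, hA, q_star]

theorem cone_of_isom (hA : ∀ x, q (A x) = q x) {w : Vec p} (hw : w ∈ Cone p) : A w ∈ Cone j := by
  show q (A w) < 0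
  rw [hA]
  exact hw

/-- Two adjacent pieces of type S. -/
theorem adj_SS (hp : 1 ≤ p) (hA : ∀ x, q (A x) = q x) (hB : ∀ x, q (B x) = q x)
    (hAB : ∀ x, HM.hyp g (A x) = HM.hyp g' (B x)) (h : TyS F g Q l a) (h' : TyS F g' Q' l' a') :
    nf Q l a = nf Q' l' a' ∧ ∃ c : ℂ, c ≠ 0 ∧ a * (c * star c) = a' ∧
      ∀ x, Q *ᵥ inc j (A x) = c • (Q' *ᵥ inc j (B x)) := by
  obtain ⟨h0, c, hc, h1, h2⟩ := polar (R := nf Q l a - nf Q' l' a') (j := qinc Q A)
    (j' := qinc Q' B) hp (qinc_inj h'.unit (inj_of_isom hB)) h.ha.ne' h'.ha.ne' (fun w hw => by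
      have e1 := h.eq (cone_of_isom hA hw)
      have e2 := h'.eq (cone_of_isom hB hw)
      rw [hA, hAB] at e1
      rw [hB] at e2
      have e3 : (q w : ℂ) • (nf Q l a - nf Q' l' a') =
          (q w : ℂ) • (nf Q l a - F (HM.hyp g' (B w))) -
            (q w : ℂ) • (nf Q' l' a' - F (HM.hyp g' (B w))) := by
        rw [← smul_sub]
        congr 1
        abel
      rw [e3, e1, e2, qinc_apply, qinc_apply])
  exact ⟨sub_eq_zero.1 h0, c, hc, h2, h1⟩

/-- A piece of type S and a piece of type B are not adjacent. -/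
theorem not_SB (hp : 1 ≤ p) (hA : ∀ x, q (A x) = q x) (hB : ∀ x, q (B x) = q x)
    (hAB : ∀ x, HM.hyp g (A x) = HM.hyp g' (B x)) (h : TyS F g Q l a) (h' : TyB F g') : False := by
  refine polar_absurd (R := nf Q l a - F (HM.hyp g' (base j))) (j := qinc Q A) hp
    (qinc_inj h.unit (inj_of_isom hA)) h.ha.ne' (fun w hw => ?_)
  have e1 := h.eq (cone_of_isom hA hw)
  rw [hA, hAB, h' _ (cone_of_isom hB hw)] at e1
  exact e1

/-- A piece of type C and a piece of type B are not adjacent. -/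
theorem not_CB (hp : 1 ≤ p) (hA : ∀ x, q (A x) = q x) (hB : ∀ x, q (B x) = q x)
    (hAB : ∀ x, HM.hyp g (A x) = HM.hyp g' (B x)) (h : TyC F g Q l a) (h' : TyB F g') : False := by
  refine polar_absurd (R := nf Q l a - F (HM.hyp g' (base j))) (j := qinc Q (cbar A)) hp
    (qinc_inj h.unit (inj_of_isom (q_cbar hA))) h.ha.ne' (fun w hw => ?_)
  have hw' : star w ∈ Cone p := by
    show q (star w) < 0
    rw [q_star]
    exact hw
  have e1 := h.eq (cone_of_isom hA hw')
  rw [hA, hAB, h' _ (cone_of_isom hB hw'), q_star] at e1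
  exact e1

/-- The hyperplanes of a piece of type S and of a piece of type C are different. -/
theorem not_SC_eq (hj : 2 ≤ j) {Y : Mat (j + 1)} (hY : Yᴴ * J j * Y = J j)
    (hg : ∀ w : Vec j, HM.hyp g' w = HM.hyp g (Y *ᵥ w)) (h : TyS F g Q l a)
    (h' : TyC F g' Q' l' a') : False := by
  obtain ⟨R, hR⟩ : ∃ R, R = nf Q l a - nf Q' l' a' := ⟨_, rfl⟩
  obtain ⟨u, hu⟩ : ∃ u : Vec j →ₗ[ℂ] Vec (j + 1), u = qinc Q Y.mulVecLin := ⟨_, rfl⟩
  obtain ⟨v, hv⟩ : ∃ v : Vec j →ₗ[ℂ] Vec (j + 1), v = qinc Q' LinearMap.id := ⟨_, rfl⟩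
  have hvi : Function.Injective v := by
    rw [hv]
    exact qinc_inj h'.unit Function.injective_id
  have hid : ∀ x y : Vec j, herm y x • R - (2 * a) • vecMulVec (u x) (star (u y)) +
      (2 * a') • vecMulVec (v (star y)) (star (v (star x))) = 0 := by
    intro x y
    refine sesq_zero (fun x y => herm y x • R - (2 * a) • vecMulVec (u x) (star (u y)) +
      (2 * a') • vecMulVec (v (star y)) (star (v (star x)))) ?_ ?_ ?_ ?_ ?_ x y
    · intro x x' y
      simp only [herm_add_right, map_add, star_add, Matrix.add_vecMulVec, Matrix.vecMulVec_add]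
      module
    · intro x y y'
      simp only [herm_add_left, map_add, star_add, Matrix.add_vecMulVec, Matrix.vecMulVec_add]
      module
    · intro c x y
      simp only [herm_smul_right, map_smul, star_smul, star_star, Matrix.smul_vecMulVec,
        Matrix.vecMulVec_smul]
      module
    · intro c x y
      simp only [herm_smul_left, map_smul, star_smul, Matrix.smul_vecMulVec,
        Matrix.vecMulVec_smul]
      module
    · intro w hw
      have hYw : Y *ᵥ w ∈ Cone j := by
        show q (Y *ᵥ w) < 0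
        rw [q_mulVec hY]
        exact hw
      have e1 := h.eq hYw
      have e2 := h'.eq hw
      rw [q_mulVec hY] at e1
      rw [hg] at e2
      have e3 : (q w : ℂ) • R = (q w : ℂ) • (nf Q l a - F (HM.hyp g (Y *ᵥ w))) -
            (q w : ℂ) • (nf Q' l' a' - F (HM.hyp g (Y *ᵥ w))) := by
        rw [← smul_sub, hR]
        congr 1
        abel
      have e4 : u w = Q *ᵥ inc j (Y *ᵥ w) := by
        rw [hu]
        rfl
      have e5 : v (star w) = Q' *ᵥ inc j (star w) := by
        rw [hv]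
        rfl
      simp only [herm_self]
      rw [e3, e1, e2, e4, e5]
      abel
  have hb0 : (base j) ≠ 0 := by
    intro h0
    have := congrFun h0 (Fin.last j)
    simp [base] at this
  have hvb : v (star (base j)) ≠ 0 := by
    intro h0
    have h1 : star (base j) = 0 := hvi (by rw [h0, map_zero])
    exact hb0 (star_eq_zero.1 h1)
  obtain ⟨k, hk⟩ := Function.ne_iff.1 hvb
  have hpr : ∀ y : Vec j, herm y (base j) = 0 → ∃ c : ℂ, v (star y) = c • u (base j) := by
    intro y hy
    have h1 := hid (base j) y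
    rw [hy, zero_smul, zero_sub] at h1
    refine ⟨a * star (u y k) / (a' * star (v (star (base j)) k)), ?_⟩
    funext i
    have h2 := congrFun (congrFun h1 i) k
    simp only [Matrix.add_apply, Matrix.neg_apply, Matrix.smul_apply, vecMulVec_apply,
      Pi.star_apply, smul_eq_mul, Matrix.zero_apply] at h2
    have ha' : a' ≠ 0 := h'.ha.ne'
    have hk' : star (v (star (base j)) k) ≠ 0 := star_ne_zero.2 hk
    rw [Pi.smul_apply, smul_eq_mul]
    field_simp
    linear_combination (1 / 2 : ℂ) * h2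
  obtain ⟨i₀, i₁, h01, h0l, h1l⟩ : ∃ i₀ i₁ : Fin (j + 1), i₀ ≠ i₁ ∧ i₀ ≠ Fin.last j ∧
      i₁ ≠ Fin.last j := by
    refine ⟨⟨0, by omega⟩, ⟨1, by omega⟩, ?_, ?_, ?_⟩ <;>
    · intro h0
      have := congrArg Fin.val h0
      simp at this
      try omega
  obtain ⟨c₀, hc₀⟩ := hpr (Pi.single i₀ 1) (herm_single_ne h0l)
  obtain ⟨c₁, hc₁⟩ := hpr (Pi.single i₁ 1) (herm_single_ne h1l)
  have h1 : c₁ • star (Pi.single i₀ 1 : Vec j) - c₀ • star (Pi.single i₁ 1 : Vec j) = 0 := by
    apply hvi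
    rw [map_sub, map_smul, map_smul, hc₀, hc₁, map_zero, smul_smul, smul_smul, mul_comm, sub_self]
  have h2 := congrFun h1 i₁
  rw [Pi.sub_apply, Pi.smul_apply, Pi.smul_apply, Pi.star_apply, Pi.star_apply,
    Pi.single_eq_of_ne h01.symm, Pi.single_eq_same, star_zero, smul_zero, star_one, zero_sub,
    Pi.zero_apply, neg_eq_zero, smul_eq_mul, mul_one] at h2
  rw [h2, zero_smul] at hc₀
  have h3 : star (Pi.single i₀ 1 : Vec j) = 0 := hvi (by rw [hc₀, map_zero])
  have h4 := congrFun h3 i₀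
  simp at h4

/-- The translate of a piece of type S. -/
theorem TyS.act (h : TyS F g Q l a) {G : Subgroup (SUGroup (j + 1))} {t : ℂ ≃+* ℂ}
    (hFe : Equi (rhoT t G) F) {x : SUGroup (j + 1)} (hx : x ∈ G) :
    TyS F (x * g) (x.toMatrix.map t * Q) l a where
  unit := (tm_unit t (by rw [det_toMatrix]; exact one_ne_zero)).mul h.unit
  hl := h.hl
  ha := h.ha
  slice w hw := by
    have h1 := hFe ⟨x, hx⟩ _ (hyp_mem g hw)
    rw [rhoT_apply] at h1
    rw [hyp_apply, act_mul]
    rw [hyp_apply] at h1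
    refine h1.trans ?_
    rw [← hyp_apply, h.slice w hw, conjTranspose_mul]
    simp only [Matrix.mul_assoc]

/-- The translate of a piece of type C. -/
theorem TyC.act (h : TyC F g Q l a) {G : Subgroup (SUGroup (j + 1))} {t : ℂ ≃+* ℂ}
    (hFe : Equi (rhoT t G) F) {x : SUGroup (j + 1)} (hx : x ∈ G) :
    TyC F (x * g) (x.toMatrix.map t * Q) l a where
  unit := (tm_unit t (by rw [det_toMatrix]; exact one_ne_zero)).mul h.unit
  hl := h.hl
  ha := h.ha
  slice w hw := by
    have h1 := hFe ⟨x, hx⟩ _ (hyp_mem g hw)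
    rw [rhoT_apply] at h1
    rw [hyp_apply, act_mul]
    rw [hyp_apply] at h1
    refine h1.trans ?_
    rw [← hyp_apply, h.slice w hw, conjTranspose_mul]
    simp only [Matrix.mul_assoc]

/-- Type S in another frame. -/
theorem TyS.frame (h : TyS F g Q l a) (u : SUGroup j) :
    TyS F (g * extend j u) (Q * dsum 1 u.toMatrix) l a where
  unit := h.unit.mul (toMatrix_unit (extend j u))
  hl := h.hl
  ha := h.ha
  slice w hw := by
    rw [hyp_apply, act_mul, act_extend, ← hyp_apply, h.slice _ (act_mem u hw), std_act,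
      conjTranspose_mul, dsum_conjTranspose, star_one]
    have e1 : dsum l (a • (u.toMatrix * std w * u.toMatrixᴴ)) =
        dsum 1 u.toMatrix * dsum l (a • std w) * dsum 1 u.toMatrixᴴ := by
      rw [dsum_mul, dsum_mul, one_mul, mul_one, Matrix.mul_smul, Matrix.smul_mul]
    rw [e1]
    simp only [Matrix.mul_assoc]

/-- Type C in another frame. -/
theorem TyC.frame (h : TyC F g Q l a) (u : SUGroup j) :
    TyC F (g * extend j u) (Q * dsum 1 (u.toMatrix.map cj)) l a where
  unit := h.unit.mul (by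
    have h1 := tm_unit cj (A := (extend j u).toMatrix) (by rw [det_toMatrix]; exact one_ne_zero)
    rw [extend_toMatrix, tm_dsum, map_one] at h1
    exact h1)
  hl := h.hl
  ha := h.ha
  slice w hw := by
    rw [hyp_apply, act_mul, act_extend, ← hyp_apply, h.slice _ (act_mem u hw), std_act,
      conjTranspose_mul, dsum_conjTranspose, star_one, tm_mul, tm_mul, ← cj_ct]
    have e1 : dsum l (a • (u.toMatrix.map cj * (std w).map cj * (u.toMatrix.map cj)ᴴ)) =
        dsum 1 (u.toMatrix.map cj) * dsum l (a • (std w).map cj) *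
          dsum 1 (u.toMatrix.map cj)ᴴ := by
      rw [dsum_mul, dsum_mul, one_mul, mul_one, Matrix.mul_smul, Matrix.smul_mul]
    rw [e1]
    simp only [Matrix.mul_assoc]

end Pool.Agent.Lib.MP_5d4057_al.CF
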