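import Pool.Agent.Lib.MP_5d4057_al.CF.Defs

/-!
# CF: the normal derivative in the normal direction, without a reflection
-/

set_option autoImplicit false

namespace Pool.Agent.Lib.MP_5d4057_al.CF

open Matrix Filter Topology Pool.Agent.Lib.MP_5d4057_al Pool.Agent.Lib.MP_5d4057_al.Hyb
  Pool.Agent.Lib.MP_5d4057_al.HM Pool.Agent.Lib.MP_5d4057_al.RC Pool.Agent.Lib.MP_5d4057_al.NU

open scoped ComplexOrder MatrixOrder Matrix.Norms.L2Operator

variable {j : ℕ}

/-- A metric which is standard on the hyperplane and equivariant under a group of the hyperplane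
(`Pce`, `Pco` without the symmetry). -/
structure Pcw (j : ℕ) (Γ : Subgroup (SUGroup j)) (G : Vec (j + 1) → Mat (j + 2)) (l a : ℂ) :
    Prop where
  harm : Harm G
  hl : 0 < l
  ha : 0 < a
  slice : ∀ w ∈ Cone j, G (inc j w) = dsum l (a • std w)
  equi : ∀ γ ∈ Γ, ∀ v ∈ Cone (j + 1), G (act (extend j γ) v) =
    dsum 1 γ.toMatrix * G v * (dsum 1 γ.toMatrix)ᴴ

variable {Γ : Subgroup (SUGroup j)} {G : Vec (j + 1) → Mat (j + 2)} {l a : ℂ}

/-- The tangential derivatives. -/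
theorem Pcw.tan (P : Pcw j Γ G l a) {w : Vec j} (hw : w ∈ Cone j) (η : Vec j) :
    pz G (inc j w) (inc j η) =
      (a * (-2 * (q w : ℂ)⁻¹)) • vecMulVec (inc j (prj w η)) (star (inc j w)) ∧
    pb G (inc j w) (inc j η) =
      (a * (-2 * (q w : ℂ)⁻¹)) • vecMulVec (inc j w) (star (inc j (prj w η))) := by
  have h1 : HasZ (fun w => G (inc j w)) w η _ _ :=
    (hasZ (P.harm.diff (inc_mem hw)) (inc j η)).comp_lin (inc j)
  have h2 : HasZ (fun w => dsum l (a • std w)) w η _ _ :=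
    ((hasZ_std hw η).const_smul a).dsum l
  have h3 : (fun w => dsum l (a • std w)) =ᶠ[𝓝 w] fun w => G (inc j w) := by
    filter_upwards [mem_nhds_cone hw] with v hv
    exact (P.slice v hv).symm
  constructor
  · rw [← h1.pz, ← pz_congr h3, h2.pz, stdA, smul_smul, smul_dsum_zero, dsum_zero_vm]
  · rw [← h1.pb, ← pb_congr h3, h2.pb, stdB, smul_smul, smul_dsum_zero, dsum_zero_vm]

theorem Pcw.inv (P : Pcw j Γ G l a) {w : Vec j} (hw : w ∈ Cone j) :
    (G (inc j w))⁻¹ = dsum l⁻¹ (a⁻¹ • (std w)⁻¹) := by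
  rw [P.slice w hw, dsum_inv' P.hl.ne' (smul_unit P.ha.ne' (std_unit hw)),
    smul_matInv P.ha.ne' (std_unit hw)]

/-- `G⁻¹` on vectors orthogonal to `w`. -/
theorem Pcw.inv_orth (P : Pcw j Γ G l a) {w : Vec j} (hw : w ∈ Cone j) {x : Vec j}
    (hx : herm w x = 0) : (G (inc j w))⁻¹ *ᵥ inc j x = a⁻¹ • (J (j + 1) *ᵥ inc j x) := by
  rw [P.inv hw, dsum_mulVec_inc, smul_mulVec, std_inv_mulVec hw hx, map_smul, J_inc]

theorem Pcw.inv_self (P : Pcw j Γ G l a) {w : Vec j} (hw : w ∈ Cone j) :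
    (G (inc j w))⁻¹ *ᵥ inc j w = -(a⁻¹ • (J (j + 1) *ᵥ inc j w)) := by
  rw [P.inv hw, dsum_mulVec_inc, smul_mulVec, std_inv_self hw, smul_neg, map_neg, map_smul, J_inc]

/-- `G⁻¹` on the normal vector. -/
theorem Pcw.inv_nrm (P : Pcw j Γ G l a) {w : Vec j} (hw : w ∈ Cone j) :
    (G (inc j w))⁻¹ *ᵥ nrm j = l⁻¹ • nrm j := by
  rw [P.inv hw, nrm, dsum_mulVec_cons, mulVec_zero, mul_one]
  ext i
  refine Fin.cases ?_ (fun i => ?_) i <;> simp

theorem Pcw.real (P : Pcw j Γ G l a) : star a = a := by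
  rw [Complex.star_def, Complex.conj_eq_iff_im]
  exact (Complex.lt_def.1 P.ha).2.symm

theorem Pcw.inv_herm (P : Pcw j Γ G l a) {w : Vec j} (hw : w ∈ Cone j) :
    ((G (inc j w))⁻¹).IsHermitian := (P.harm.pos _ (inc_mem hw)).inv.isHermitian

theorem Pcw.inv_self' (P : Pcw j Γ G l a) {w : Vec j} (hw : w ∈ Cone j) :
    star (inc j w) ᵥ* (G (inc j w))⁻¹ = -(a⁻¹ • (star (inc j w) ᵥ* J (j + 1))) := by
  rw [star_vecMul' (P.inv_herm hw), P.inv_self hw, star_neg, star_smul, star_inv₀, P.real,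
    star_vecMul' (J_herm (n := j + 1))]

/-- The commutation relation. -/
theorem Pcw.comm_rel (P : Pcw j Γ G l a) {w : Vec j} (hw : w ∈ Cone j) {η : Vec j}
    (hη : herm w η = 0) (y : Vec (j + 1)) :
    herm (inc j w) y • ((NN G w * J (j + 1)) *ᵥ inc j η) =
      -(herm (inc j w) ((NN G w * J (j + 1)) *ᵥ y) • inc j η) := by
  have hq := q_ne hw
  have hu := inc_mem hw
  have h1 : pz G (inc j w) (nrm j) * (G (inc j w))⁻¹ * pz G (inc j w) (inc j η) =
      pz G (inc j w) (inc j η) * (G (inc j w))⁻¹ * pz G (inc j w) (nrm j) :=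
    P.harm.comm _ hu (nrm j) (inc j η)
  rw [(P.tan hw η).1, prj_eq hη] at h1
  have h2 := congrArg (fun A : Mat (j + 2) => A *ᵥ (J (j + 1) *ᵥ y)) h1
  have e1 : star (inc j w) ⬝ᵥ (J (j + 1) *ᵥ y) = herm (inc j w) y := rfl
  have hN : pz G (inc j w) (nrm j) = NN G w := rfl
  simp only [Matrix.mul_smul, Matrix.smul_mul, smul_mulVec, ← mulVec_mulVec, vmv, e1, mulVec_smul,
    P.inv_orth hw hη, hN] at h2
  have e2 : star (inc j w) ⬝ᵥ (G (inc j w))⁻¹ *ᵥ NN G w *ᵥ J (j + 1) *ᵥ y =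
      -(a⁻¹ * herm (inc j w) (NN G w *ᵥ J (j + 1) *ᵥ y)) := by
    rw [dotProduct_mulVec, P.inv_self' hw, neg_dotProduct, smul_dotProduct, smul_eq_mul,
      ← dotProduct_mulVec]
    rfl
  rw [e2] at h2
  rw [← mulVec_mulVec, ← mulVec_mulVec]
  have ha := P.ha.ne'
  have hc : a * (-2 * (q w : ℂ)⁻¹) ≠ 0 := by
    refine mul_ne_zero ha (mul_ne_zero (by norm_num) (inv_ne_zero hq))
  have h3 := smul_right_injective (Vec (j + 1)) hc h2
  have h4 := congrArg (fun x : Vec (j + 1) => a • x) h3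
  simp only [smul_smul] at h4
  have e3 : a * (herm (inc j w) y * a⁻¹) = herm (inc j w) y := by field_simp
  have e4 : a * -(a⁻¹ * herm (inc j w) (NN G w *ᵥ J (j + 1) *ᵥ y)) =
      -herm (inc j w) (NN G w *ᵥ J (j + 1) *ᵥ y) := by field_simp
  rw [e3, e4, neg_smul] at h4
  exact h4

/-- The normal derivative of the normal vector. -/
theorem Pcw.col (w : Vec j) : NN G w *ᵥ nrm j = (NN G w 0 0) • nrm j + inc j (bt G w) := by
  have h0 : (NN G w *ᵥ nrm j) 0 = NN G w 0 0 := by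
    have h1 : nrm j = (Pi.single 0 1 : Vec (j + 1)) := by
      ext i
      refine Fin.cases ?_ (fun i => ?_) i
      · rw [Pi.single_eq_same]
        rfl
      · rw [Pi.single_eq_of_ne (Fin.succ_ne_zero i)]
        rfl
    rw [h1, mulVec_single_one]
    rfl
  ext i
  refine Fin.cases ?_ (fun i => ?_) i
  · rw [h0, Pi.add_apply, Pi.smul_apply, inc_zero, add_zero]
    show _ = NN G w 0 0 * 1
    rw [mul_one]
  · rw [Pi.add_apply, Pi.smul_apply, inc_succ]
    show _ = NN G w 0 0 * 0 + bt G w i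
    rw [mul_zero, zero_add]
    rfl

theorem Pcw.orth (hj : 1 ≤ j) (P : Pcw j Γ G l a) {w : Vec j} (hw : w ∈ Cone j) :
    herm w (bt G w) = 0 := by
  obtain ⟨η, hη0, hη⟩ := HM.exists_orth hj hw
  have h1 := P.comm_rel hw hη (nrm j)
  have e1 : herm (inc j w) (nrm j) = 0 := by
    rw [herm, J_nrm, star_inc, nrm, cons_dot_cons, zero_mul, dotProduct_zero, add_zero]
  rw [e1, zero_smul, ← mulVec_mulVec, J_nrm, Pcw.col, herm_add_right, herm_smul_right, e1, mul_zero,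
    zero_add, herm_inc] at h1
  have h2 := neg_eq_zero.1 h1.symm
  rcases smul_eq_zero.1 h2 with h3 | h3
  · exact h3
  · exfalso
    apply hη0
    ext i
    have := congrFun h3 i.succ
    rwa [inc_succ] at this

theorem Pcw.pb_bt (hj : 1 ≤ j) (P : Pcw j Γ G l a) {w : Vec j} (hw : w ∈ Cone j) (η : Vec j) :
    HasZ (bt G) w η (pz (bt G) w η) (-((herm η (bt G w) / (q w : ℂ)) • w)) := by
  have hq := q_ne hw
  have hu := inc_mem hw
  have ha := P.ha.ne'
  have horth := P.orth hj hw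
  have hcol := Pcw.col (G := G) w
  have h1 : HasZ (fun v => pz G v (nrm j)) (inc j w) (inc j η) _ _ :=
    hasZ (hasFDerivAt_pz (P.harm.cda hu) (nrm j)).differentiableAt (inc j η)
  have h2 : HasZ (bt G) w η _ _ := (h1.comp_lin (inc j)).clm (btL j)
  refine HasZ.of_eq h2 h2.pz.symm ?_
  rw [← pz_pb_comm (P.harm.cda hu) (nrm j) (inc j η)]
  have h3 : pz (fun v => pb G v (inc j η)) (inc j w) (nrm j) = (1 / 2 : ℂ) •
      (pb G (inc j w) (inc j η) * (G (inc j w))⁻¹ * NN G w +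
        NN G w * (G (inc j w))⁻¹ * pb G (inc j w) (inc j η)) :=
    P.harm.ph _ hu (nrm j) (inc j η)
  have e0 : star (inc j (prj w η)) ⬝ᵥ nrm j = 0 := by
    rw [star_inc, nrm, cons_dot_cons, zero_mul, dotProduct_zero, add_zero]
  have e1 : herm (prj w η) (bt G w) = herm η (bt G w) := by
    rw [prj, herm_sub_left, herm_smul_left, horth, mul_zero, sub_zero]
  rw [h3, (P.tan hw η).2, btL_apply, smul_mulVec, add_mulVec, ← mulVec_mulVec, ← mulVec_mulVec,
    ← mulVec_mulVec, ← mulVec_mulVec, hcol, mulVec_add, mulVec_smul, P.inv_nrm hw,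
    P.inv_orth hw horth, smul_mulVec, smul_mulVec, vmv, vmv,
    e0, zero_smul, smul_zero, mulVec_zero, mulVec_zero, add_zero, dotProduct_add, dotProduct_smul,
    dotProduct_smul, e0, smul_zero, smul_zero, zero_add, dotProduct_smul]
  have e2 : star (inc j (prj w η)) ⬝ᵥ J (j + 1) *ᵥ inc j (bt G w) = herm η (bt G w) := by
    rw [← e1, ← herm_inc]
    rfl
  rw [e2, smul_eq_mul, map_smul, map_smul, map_smul, tl_inc, smul_smul, smul_smul, ← neg_smul]
  congr 1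
  field_simp

theorem Pcw.bt_smul (P : Pcw j Γ G l a) {c : ℂ} (hc : c ≠ 0) {w : Vec j} (hw : w ∈ Cone j) :
    bt G (c • w) = c⁻¹ • bt G w := by
  have h1 := pz_homog P.harm.hom (inc_mem hw) (fun u hu => P.harm.diff hu) hc (nrm j)
  have h2 : c • NN G (c • w) = NN G w := by
    rw [NN, map_smul, h1]
    rfl
  rw [bt, bt, ← h2, smul_mulVec, map_smul, smul_smul, inv_mul_cancel₀ hc, one_smul]

theorem Pcw.bt_act (P : Pcw j Γ G l a) {γ : SUGroup j} (hγ : γ ∈ Γ) {w : Vec j}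
    (hw : w ∈ Cone j) : bt G (act γ w) = act γ (bt G w) := by
  have hu := inc_mem hw
  set D := (extend j γ).toMatrix with hD
  have h1 : HasZ (fun v => G (actC (extend j γ) v)) (inc j w) (nrm j) _ _ :=
    (hasZ (P.harm.diff (act_mem (extend j γ) hu)) (actC (extend j γ) (nrm j))).comp_lin
      (actC (extend j γ))
  have h2 : HasZ (fun v => D * G v * Dᴴ) (inc j w) (nrm j) _ _ :=
    (hasZ (P.harm.diff hu) (nrm j)).clm (ContinuousLinearMap.mulLeftRight ℂ (Mat (j + 2)) D Dᴴ)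
  have h3 : (fun v => G (actC (extend j γ) v)) =ᶠ[𝓝 (inc j w)] fun v => D * G v * Dᴴ := by
    filter_upwards [mem_nhds_cone hu] with v hv
    exact P.equi γ hγ v hv
  have h4 : pz G (act (extend j γ) (inc j w)) (actC (extend j γ) (nrm j)) =
      D * pz G (inc j w) (nrm j) * Dᴴ := by
    rw [← h1.pz, pz_congr h3, h2.pz]
    rfl
  rw [actC_apply, act_nrm, act_extend] at h4
  have h5 : NN G (act γ w) = D * NN G w * Dᴴ := h4
  have h6 : Dᴴ *ᵥ nrm j = nrm j := by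
    rw [hD, extend_toMatrix, dsum_conjTranspose, star_one, nrm, dsum_mulVec_cons, mulVec_zero,
      mul_one]
  rw [bt, h5, ← mulVec_mulVec, ← mulVec_mulVec, h6]
  exact (act_extend_hd γ _).2

theorem Pcw.sec (hj : 1 ≤ j) (P : Pcw j Γ G l a) : Sec Γ (bt G) where
  cd := by
    have h1 : ContDiffOn ℝ 1 (fderiv ℝ G) (Cone (j + 1)) :=
      P.harm.cd.fderiv_of_isOpen (isOpen_cone _) (by rw [one_add_one_eq_two])
    have h2 : ContDiffOn ℝ 1 (fun w => fderiv ℝ G (inc j w)) (Cone j) :=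
      h1.comp (((inc j).restrictScalars ℝ).contDiff.contDiffOn) fun w hw => inc_mem hw
    have h3 : ContDiffOn ℝ 1 (fun w => (1 / 2 : ℂ) • (fderiv ℝ G (inc j w) (nrm j) -
        Complex.I • fderiv ℝ G (inc j w) (Complex.I • nrm j))) (Cone j) :=
      ((h2.clm_apply contDiffOn_const).sub
        ((h2.clm_apply contDiffOn_const).const_smul Complex.I)).const_smul (1 / 2 : ℂ)
    exact ((btL j).restrictScalars ℝ).contDiff.comp_contDiffOn h3
  hom _ hc _ hv := P.bt_smul hc hv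
  equi _ hγ _ hv := P.bt_act hγ hv
  orth _ hv := P.orth hj hv
  pb _ hv ξ := (P.pb_bt hj hv ξ).pb

/-- The tangential part of the normal derivative in the normal direction vanishes. -/
theorem Pcw.bt_zero (hj : 1 ≤ j) (P : Pcw j Γ G l a) (hV : Van Γ) (hg : Pol (bt G)) {w : Vec j}
    (hw : w ∈ Cone j) : bt G w = 0 :=
  hV _ (P.sec hj) hg w hw

/-- `NN G w *ᵥ nrm j` is a multiple of `nrm j`. -/
theorem Pcw.nrm_nrm (hj : 1 ≤ j) (P : Pcw j Γ G l a) (hV : Van Γ) (hg : Pol (bt G)) {w : Vec j}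
    (hw : w ∈ Cone j) : NN G w *ᵥ nrm j = (NN G w 0 0) • nrm j := by
  have h1 := Pcw.col (G := G) w
  rwa [P.bt_zero hj hV hg hw, map_zero, add_zero] at h1

/-- The metric in the frame of a piece of type S. -/
theorem TyS.pcw {F : Vec (j + 1) → Mat (j + 2)} {g : SUGroup (j + 1)} {Q : Mat (j + 2)}
    (h : TyS F g Q l a) (hF : HarmG F) {G₀ : Subgroup (SUGroup (j + 1))} {t : ℂ ≃+* ℂ}
    (hFe : Equi (rhoT t G₀) F) (hG : ∀ x ∈ Γ, emb g x ∈ G₀)
    (hstd : ∀ x ∈ Γ, (emb g x).toMatrix.map t = Q * dsum 1 x.toMatrix * Q⁻¹) :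
    Pcw j Γ (fun v => Q⁻¹ * F (act g v) * (Q⁻¹)ᴴ) l a ∧
      Pol (bt fun v => Q⁻¹ * F (act g v) * (Q⁻¹)ᴴ) := by
  have hd := (isUnit_iff_isUnit_det _).1 h.unit
  have e1 : Q⁻¹ * Q = 1 := nonsing_inv_mul _ hd
  have e2 : Qᴴ * (Q⁻¹)ᴴ = 1 := by rw [← conjTranspose_mul, e1, conjTranspose_one]
  have hQi : IsUnit Q⁻¹ := isUnit_nonsing_inv_iff.2 h.unit
  have hGG : HarmG (fun v => Q⁻¹ * F (act g v) * (Q⁻¹)ᴴ) := hF.pre g hQi
  refine ⟨⟨hGG.toHarm, h.hl, h.ha, ?_, ?_⟩, ?_⟩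
  · intro w hw
    show Q⁻¹ * F (HM.hyp g w) * (Q⁻¹)ᴴ = _
    rw [h.slice w hw]
    calc Q⁻¹ * (Q * dsum l (a • std w) * Qᴴ) * (Q⁻¹)ᴴ
        = (Q⁻¹ * Q) * dsum l (a • std w) * (Qᴴ * (Q⁻¹)ᴴ) := by
          simp only [Matrix.mul_assoc]
      _ = _ := by rw [e1, e2, Matrix.one_mul, Matrix.mul_one]
  · intro γ hγ v hv
    show Q⁻¹ * F (act g (act (extend j γ) v)) * (Q⁻¹)ᴴ = _
    have h1 : act g (act (extend j γ) v) = act (emb g γ) (act g v) := by
      show _ = act (g * extend j γ * g⁻¹) (act g v)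
      rw [← act_mul, ← act_mul, inv_mul_cancel_right]
    have h2 : F (act (emb g γ) (act g v)) =
        (emb g γ).toMatrix.map t * F (act g v) * ((emb g γ).toMatrix.map t)ᴴ :=
      hFe ⟨emb g γ, hG γ hγ⟩ (act g v) (act_mem _ hv)
    rw [h1, h2, hstd γ hγ, conjTranspose_mul, conjTranspose_mul]
    have h5 : ∀ A : Mat (j + 2), Q⁻¹ * (Q * A) = A := fun A => by
      rw [← Matrix.mul_assoc, e1, Matrix.one_mul]
    simp only [Matrix.mul_assoc, h5]
    rw [e2, Matrix.mul_one]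
  · exact (pol_NN hGG.grD).clm ((btL j).restrictScalars ℝ)

end Pool.Agent.Lib.MP_5d4057_al.CF
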