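import Pool.Agent.Lib.MP_5d4057_al.CF.Defs

/-!
# CF: the entries of the group are in a finitely generated ring
-/

set_option autoImplicit false

namespace Pool.Agent.Lib.MP_5d4057_al.CF

open Matrix Filter Topology Pool.Agent.Lib.MP_5d4057_al Pool.Agent.Lib.MP_5d4057_al.Hyb
  Pool.Agent.Lib.MP_5d4057_al.HM Pool.Agent.Lib.MP_5d4057_al.RC Pool.Agent.Lib.MP_5d4057_al.NU

variable {j n : ℕ} {ι : Type} {g : ι → SUGroup (j + 1)} {Λ : ι → Subgroup (SUGroup j)}
  {S : ι → Subgroup (SUGroup (j + 1))}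

/-- The image of a group with entries in a finitely generated ring under `emb g`. -/
theorem fgg_emb {Γ : Subgroup (SUGroup j)} (h : FGG Γ) (x : SUGroup (j + 1)) :
    FGG (Γ.map (emb x)) := by
  refine FGE.mono (FGE.mul (FGE.mul (FGE.of_finite (Set.finite_singleton x.toMatrix))
    (FGE.dsum h)) (FGE.of_finite (Set.finite_singleton (x⁻¹).toMatrix))) ?_
  rintro _ ⟨_, ⟨γ, hγ, rfl⟩, rfl⟩
  exact ⟨_, ⟨_, rfl, _, ⟨_, ⟨γ, hγ, rfl⟩, rfl⟩, rfl⟩, _, rfl, by rw [emb_apply]; rfl⟩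

/-- Finite unions. -/
theorem fge_iUnion {J : Type} [Finite J] {m : ℕ} {S : J → Set (Matrix (Fin m) (Fin m) ℂ)}
    (h : ∀ b, FGE (S b)) : FGE (⋃ b, S b) := by
  classical
  have : Fintype J := Fintype.ofFinite J
  choose E hE using h
  refine ⟨Finset.univ.biUnion E, fun A hA i k => ?_⟩
  obtain ⟨b, hb⟩ := Set.mem_iUnion.1 hA
  refine Algebra.adjoin_mono ?_ (hE b A hb i k)
  intro x hx
  rw [Finset.mem_coe, Finset.mem_biUnion]
  exact ⟨b, Finset.mem_univ _, hx⟩

/-- A group generated by finitely many groups with entries in finitely generated rings and by finitely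
many elements. -/
theorem fgg_closure {J : Type} [Finite J] {S : J → Subgroup (SUGroup n)} (h : ∀ b, FGG (S b))
    {X : Set (SUGroup n)} (hX : X.Finite) :
    FGG (Subgroup.closure ((⋃ b, (S b : Set (SUGroup n))) ∪ X)) := by
  have hX1 : FGE (SUGroup.toMatrix '' X) := FGE.of_finite (hX.image _)
  have hX2 : FGE ((fun x : SUGroup n => (x⁻¹).toMatrix) '' X) := FGE.of_finite (hX.image _)
  refine FGE.mono (FGE.closure (FGE.union (fge_iUnion h) (FGE.union hX1 hX2))) ?_
  rintro _ ⟨x, hx, rfl⟩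
  refine Subgroup.closure_induction_left
    (p := fun x _ => x.toMatrix ∈ Submonoid.closure _) ?_ ?_ ?_ hx
  · exact Submonoid.one_mem _
  · intro x hx y _ hy
    rw [toMatrix_mul]
    refine Submonoid.mul_mem _ (Submonoid.subset_closure ?_) hy
    rcases hx with hx | hx
    · obtain ⟨b, hb⟩ := Set.mem_iUnion.1 hx
      exact Or.inl (Set.mem_iUnion.2 ⟨b, x, hb, rfl⟩)
    · exact Or.inr (Or.inl ⟨x, hx, rfl⟩)
  · intro x hx y _ hy
    rw [toMatrix_mul]
    refine Submonoid.mul_mem _ (Submonoid.subset_closure ?_) hy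
    rcases hx with hx | hx
    · obtain ⟨b, hb⟩ := Set.mem_iUnion.1 hx
      exact Or.inl (Set.mem_iUnion.2 ⟨b, x⁻¹, (S b).inv_mem hb, rfl⟩)
    · exact Or.inr (Or.inr ⟨x, hx, rfl⟩)

theorem fgg_iSup {J : Type} [Finite J] {S : J → Subgroup (SUGroup n)} (h : ∀ b, FGG (S b)) :
    FGG (⨆ b, S b) := by
  have h1 := fgg_closure h Set.finite_empty
  rwa [Set.union_empty, ← Subgroup.iSup_eq_closure] at h1

/-- The groups of the pieces. -/
theorem fgg_cf [Finite ι] (hP : ∀ i, Piece (Λ i) (g i) (S i)) : FGG (⨆ i, S i) :=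
  fgg_iSup fun i => (fgg_emb (fgg_of_isArith (hP i).ar) (g i)).of_relIndex (hP i).fin

end Pool.Agent.Lib.MP_5d4057_al.CF
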