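import Pool.Agent.Lib.MP_5d4057_al.CF.Slices
import Pool.Agent.Lib.MP_5d4057_al.CF.FggC

/-!
# CF: the data of a configuration
-/

set_option autoImplicit false

namespace Pool.Agent.Lib.MP_5d4057_al.CF

open Matrix Filter Topology Pool.Agent.Lib.MP_5d4057_al Pool.Agent.Lib.MP_5d4057_al.Hyb
  Pool.Agent.Lib.MP_5d4057_al.HM Pool.Agent.Lib.MP_5d4057_al.RC Pool.Agent.Lib.MP_5d4057_al.NU
  Pool.Agent.Lib.MP_5d4057_al.TW

open scoped ComplexOrder MatrixOrder

variable {k : ℕ} {I : Type} {G : Subgroup (SUGroup (k + 2))} {g : I → SUGroup (k + 2)}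
  {Λ : I → Subgroup (SUGroup (k + 1))}

/-- The translates of the pieces. -/
theorem emb_trl {j : ℕ} (x g : SUGroup (j + 1)) (y : SUGroup j) :
    emb (x * g) y = x * emb g y * x⁻¹ := by
  rw [emb_apply, emb_apply]
  group

/-- The data of a configuration. -/
theorem exists_cfg (hk : 1 ≤ k) (hlat : IsLattice G) (hf : FGG G)
    (hL : ∀ i, IsLattice (Λ i)) (hA : ∀ i, IsArith (k + 1) (Λ i))
    (hmem : ∀ i, (Λ i).map (emb (g i)) ≤ G) (hc : Conn (trl G g)) :
    ∃ (K : I → Subfield ℂ) (Λ' : I → Subgroup (SUGroup (k + 1))), (∀ i, Λ' i ≤ Λ i) ∧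
      (∀ i, (Λ' i).relIndex (Λ i) ≠ 0) ∧
      Cfg G (trl G g) (fun p => Λ' p.2) (fun p => K p.2) := by
  have h := fun i => piece_slices (by omega : 2 ≤ k + 1) (hL i) (hA i)
  choose K Λ' hcm hle hfin hL' hR' hA' htr h using h
  refine ⟨K, Λ', hle, hfin, ?_⟩
  have hstd : ∀ p : G × I, ∀ y ∈ Λ' p.2, emb (trl G g p) y ∈ G := by
    rintro ⟨x, i⟩ y hy
    rw [trl, emb_trl]
    exact G.mul_mem (G.mul_mem x.2 (hmem i ⟨y, hle i hy, rfl⟩)) (G.inv_mem x.2)
  refine
    { stab := ?_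
      conn := hc
      recG := rec_of_lattice (by omega) hlat hf
      hlat := harm_lat (by omega) hlat hf
      spanG := span_top (by omega) _ hlat
      cm := fun p => hcm p.2
      mem := hstd
      recP := fun p => hR' p.2
      van := fun p => van_of_lattice (by omega) (hL' p.2) (fgg_of_isArith (hA' p.2))
      span := fun p => span_top (by omega) _ (hL' p.2)
      tyS := ?_
      tyC := ?_
      tyB := ?_ }
  · rintro ⟨y, i⟩ x hx
    refine ⟨⟨⟨x, hx⟩ * y, i⟩, ?_⟩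
    show x * (y : SUGroup (k + 2)) * g i = x * ((y : SUGroup (k + 2)) * g i)
    rw [mul_assoc]
  · intro p t F hF hFe ht
    obtain ⟨E, l, a, hE, hl, ha, hEt, hFw⟩ := (h p.2 (trl G g p) G (hstd p) t F hF hFe).1 ht
    have hu : IsUnit (dsum 1 E) := by
      rw [isUnit_iff_isUnit_det, det_dsum, one_mul]
      exact (isUnit_iff_isUnit_det _).1 hE
    refine ⟨(trl G g p).toMatrix.map t * dsum 1 E, l, a,
      ⟨(tm_gp_unit t _).mul hu, hl, ha, hFw⟩, fun y hy => ?_⟩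
    have h4 : (emb (trl G g p) y).toMatrix.map t = (trl G g p).toMatrix.map t *
        dsum 1 (y.toMatrix.map t) * ((trl G g p).toMatrix.map t)⁻¹ :=
      rhoT_embG t (hstd p) ⟨y, hy⟩
    have h3 : dsum (1 : ℂ) (E * y.toMatrix * E⁻¹) =
        dsum 1 E * dsum 1 y.toMatrix * dsum 1 E⁻¹ := by
      rw [dsum_mul, dsum_mul, one_mul, one_mul]
    rw [h4, hEt y hy, h3, Matrix.mul_inv_rev, dsum_inv' one_ne_zero hE, inv_one]
    simp only [Matrix.mul_assoc]
  · intro p t F hF hFe ht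
    obtain ⟨E, l, a, hE, hl, ha, -, hFw⟩ := (h p.2 (trl G g p) G (hstd p) t F hF hFe).2.1 ht
    have hu : IsUnit (dsum 1 E) := by
      rw [isUnit_iff_isUnit_det, det_dsum, one_mul]
      exact (isUnit_iff_isUnit_det _).1 hE
    exact ⟨_, l, a, (tm_gp_unit t _).mul hu, hl, ha, hFw⟩
  · intro p t F hF hFe ht ht' w hw
    obtain ⟨Z, l, a, -, -, -, -, hFw⟩ := (h p.2 (trl G g p) G (hstd p) t F hF hFe).2.2 ht ht'
    rw [hFw w hw, hFw _ (base_mem _)]

end Pool.Agent.Lib.MP_5d4057_al.CF
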