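import Pool.Agent.Lib.MP_5d4057_al.HM.CocSub
import Pool.Agent.Lib.MP_5d4057_al.TW.Defs
import Mathlib.GroupTheory.FiniteAbelian.Basic

/-!
# CF (E): the characters `α_t` and their common kernel
-/

set_option autoImplicit false

namespace Pool.Agent.Lib.MP_5d4057_al.CF

open Matrix Pool.Agent.Lib.MP_5d4057_al Pool.Agent.Lib.MP_5d4057_al.Hyb
  Pool.Agent.Lib.MP_5d4057_al.HM Pool.Agent.Lib.MP_5d4057_al.TW

/-- The kernel of a homomorphism of bounded exponent to an abelian group has finite index, if the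
group is generated by finitely many subgroups which meet the kernel in finite index. -/
theorem finiteIndex_ker_of {G A : Type} [Group G] [CommGroup A] (Φ : G →* A) {e : ℕ} (he : 0 < e)
    (hΦ : ∀ x, Φ x ^ e = 1) {I : Type} [Finite I] (P S : I → Subgroup G)
    (hP : ∀ i, P i ≤ Φ.ker) (hfin : ∀ i, (P i).relIndex (S i) ≠ 0)
    (hgen : ∀ x : G, x ∈ Subgroup.closure (⋃ i, (S i : Set G))) : Φ.ker.index ≠ 0 := by
  have h1 : ∀ i, (Φ '' (S i : Set G)).Finite := by
    intro i
    have h2 : ((P i).subgroupOf (S i)).FiniteIndex := ⟨hfin i⟩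
    have h3 : Finite (S i ⧸ (P i).subgroupOf (S i)) := Subgroup.finite_quotient_of_finiteIndex
    let f : (S i ⧸ (P i).subgroupOf (S i)) → A := Quotient.lift (fun x : S i => Φ x) (by
      intro a b hab
      have h4 : a⁻¹ * b ∈ (P i).subgroupOf (S i) := QuotientGroup.leftRel_apply.1 hab
      have h5 : Φ ((a : G)⁻¹ * b) = 1 := hP i h4
      rw [map_mul, map_inv] at h5
      exact (inv_mul_eq_one.1 h5))
    refine (Set.finite_range f).subset ?_
    rintro _ ⟨x, hx, rfl⟩
    exact ⟨((⟨x, hx⟩ : S i) : S i ⧸ (P i).subgroupOf (S i)), rfl⟩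
  have h2 : Φ.range = Subgroup.closure (⋃ i, Φ '' (S i : Set G)) := by
    rw [← Set.image_iUnion, ← MonoidHom.map_closure, MonoidHom.range_eq_map]
    congr 1
    exact (eq_top_iff.2 fun x _ => hgen x).symm
  have hfg : Φ.range.FG := ⟨(Set.finite_iUnion h1).toFinset, by rw [Set.Finite.coe_toFinset, ← h2]⟩
  have : Group.FG Φ.range := (Group.fg_iff_subgroup_fg _).2 hfg
  have htor : IsMulTorsion Φ.range := by
    rintro ⟨_, x, rfl⟩
    exact isOfFinOrder_iff_pow_eq_one.2 ⟨e, he, Subtype.ext (hΦ x)⟩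
  have : Finite Φ.range := CommGroup.finite_of_fg_isMulTorsion _ htor
  rw [Subgroup.index_ker]
  exact Nat.card_pos.ne'

variable {n : ℕ}

/-- The character of a group which `T` intertwines with its conjugate up to scalars. -/
theorem exists_char (t : ℂ ≃+* ℂ) {G : Subgroup (SUGroup n)} {T : Mat (n + 1)} (hT : IsUnit T)
    (h : ∀ x ∈ G, ∃ α : ℂ, x.toMatrix.map t * T = α • (T * x.toMatrix)) :
    ∃ φ : G →* ℂˣ, (∀ x : G, (x : SUGroup n).toMatrix.map t * T =
      (φ x : ℂ) • (T * (x : SUGroup n).toMatrix)) ∧ ∀ x, φ x ^ (n + 1) = 1 := by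
  have hdT : T.det ≠ 0 := ((Matrix.isUnit_iff_isUnit_det T).1 hT).ne_zero
  choose! α hα using h
  have hpow : ∀ x ∈ G, α x ^ (n + 1) = 1 := by
    intro x hx
    have h1 := congrArg Matrix.det (hα x hx)
    rw [det_mul, det_smul, det_mul, Fintype.card_fin, det_toMatrix, mul_one] at h1
    have h2 : (x.toMatrix.map t).det = 1 := by
      have h3 := RingHom.map_det (t : ℂ →+* ℂ) x.toMatrix
      rw [det_toMatrix, map_one] at h3
      exact h3.symm
    rw [h2, one_mul] at h1
    exact mul_right_cancel₀ hdT (by rw [← h1, one_mul])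
  have hne : ∀ x ∈ G, α x ≠ 0 := by
    intro x hx h0
    have h1 := hpow x hx
    rw [h0, zero_pow (Nat.succ_ne_zero n)] at h1
    exact zero_ne_one h1
  have huniq : ∀ x : SUGroup n, ∀ a b : ℂ, x.toMatrix.map t * T = a • (T * x.toMatrix) →
      x.toMatrix.map t * T = b • (T * x.toMatrix) → a = b := by
    intro x a b ha hb
    have h1 : (a - b) • (T * x.toMatrix) = 0 := by
      rw [sub_smul, ← ha, ← hb, sub_self]
    rcases smul_eq_zero.1 h1 with h2 | h2
    · exact sub_eq_zero.1 h2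
    · exfalso
      have h3 : (T * x.toMatrix).det = 0 := by
        rw [h2]
        exact det_zero
      rw [det_mul, det_toMatrix, mul_one] at h3
      exact hdT h3
  have hmul : ∀ x ∈ G, ∀ y ∈ G, α (x * y) = α x * α y := by
    intro x hx y hy
    refine huniq (x * y) _ _ (hα _ (G.mul_mem hx hy)) ?_
    rw [toMatrix_mul, Matrix.map_mul, Matrix.mul_assoc, hα y hy, Matrix.mul_smul,
      ← Matrix.mul_assoc, hα x hx, Matrix.smul_mul, smul_smul, Matrix.mul_assoc, mul_comm (α y)]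
  have hone : α 1 = 1 := by
    refine huniq 1 _ _ (hα _ G.one_mem) ?_
    rw [toMatrix_one, Matrix.map_one t (map_zero t) (map_one t), one_mul, mul_one, one_smul]
  refine ⟨{ toFun := fun x => Units.mk0 (α x) (hne x x.2)
            map_one' := Units.ext hone
            map_mul' := fun x y => Units.ext (hmul x x.2 y y.2) }, fun x => hα x x.2, fun x => ?_⟩
  refine Units.ext ?_
  show (α x) ^ (n + 1) = 1
  exact hpow x x.2

/-- The relation with a scalar extends from the generators. -/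
theorem closure_scalar {I : Type} (t : ℂ ≃+* ℂ) (T : Mat (n + 1)) {S : I → Subgroup (SUGroup n)}
    (h : ∀ i, ∀ s ∈ S i, ∃ α : ℂ, s.toMatrix.map t * T = α • (T * s.toMatrix))
    {x : SUGroup n} (hx : x ∈ Subgroup.closure (⋃ i, (S i : Set (SUGroup n)))) :
    ∃ α : ℂ, x.toMatrix.map t * T = α • (T * x.toMatrix) := by
  induction hx using Subgroup.closure_induction'' with
  | mem x hx =>
    obtain ⟨i, hi⟩ := Set.mem_iUnion.1 hx
    exact h i x hi
  | inv_mem x hx =>
    obtain ⟨i, hi⟩ := Set.mem_iUnion.1 hx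
    exact h i x⁻¹ ((S i).inv_mem hi)
  | one =>
    refine ⟨1, ?_⟩
    rw [toMatrix_one, Matrix.map_one t (map_zero t) (map_one t), one_mul, mul_one, one_smul]
  | mul x y _ _ hx hy =>
    obtain ⟨a, ha⟩ := hx
    obtain ⟨b, hb⟩ := hy
    refine ⟨a * b, ?_⟩
    rw [toMatrix_mul, Matrix.map_mul, Matrix.mul_assoc, hb, Matrix.mul_smul,
      ← Matrix.mul_assoc, ha, Matrix.smul_mul, smul_smul, Matrix.mul_assoc, mul_comm b]

theorem char_eq_one {t : ℂ ≃+* ℂ} {T : Mat (n + 1)} (hT : IsUnit T) {x : SUGroup n} {a : ℂˣ}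
    (h : x.toMatrix.map t * T = (a : ℂ) • (T * x.toMatrix))
    (h' : x.toMatrix.map t * T = T * x.toMatrix) : a = 1 := by
  have hdT : T.det ≠ 0 := ((Matrix.isUnit_iff_isUnit_det T).1 hT).ne_zero
  have h1 : ((a : ℂ) - 1) • (T * x.toMatrix) = 0 := by
    rw [sub_smul, ← h, one_smul, ← h', sub_self]
  rcases smul_eq_zero.1 h1 with h2 | h2
  · exact Units.ext (sub_eq_zero.1 h2)
  · exfalso
    have h3 : (T * x.toMatrix).det = 0 := by
      rw [h2]
      exact det_zero
    rw [det_mul, det_toMatrix, mul_one] at h3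
    exact hdT h3

/-- **(E).** Finite index of the common kernel of the characters `α_t`, and the traces. -/
theorem exists_ker {I : Type} [Finite I] {G : Subgroup (SUGroup n)} {K : Subfield ℂ}
    (hK : NumberField K) (P S : I → Subgroup (SUGroup n)) (hPS : ∀ i, P i ≤ S i)
    (hfin : ∀ i, (P i).relIndex (S i) ≠ 0) (hSG : ∀ i, S i ≤ G)
    (hgen : G ≤ Subgroup.closure (⋃ i, (S i : Set (SUGroup n))))
    (hT : ∀ t : ℂ ≃+* ℂ, (∀ x : K, t (x : ℂ) = x) → ∃ T : Mat (n + 1), IsUnit T ∧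
      (∀ i, ∀ s ∈ S i, ∃ α : ℂ, s.toMatrix.map t * T = α • (T * s.toMatrix)) ∧
      ∀ i, ∀ s ∈ P i, s.toMatrix.map t * T = T * s.toMatrix) :
    ∃ G' : Subgroup (SUGroup n), G' ≤ G ∧ G'.relIndex G ≠ 0 ∧ (∀ i, P i ≤ G') ∧
      ∀ γ ∈ G', γ.toMatrix.trace ∈ K := by
  have : NumberField K := hK
  have : Countable K := countable_of_numberField K
  have h1 : ∀ t : {t : ℂ ≃+* ℂ // ∀ x : K, t (x : ℂ) = x}, ∃ (T : Mat (n + 1)) (φ : G →* ℂˣ),
      IsUnit T ∧ (∀ x : G, (x : SUGroup n).toMatrix.map t.1 * T =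
        (φ x : ℂ) • (T * (x : SUGroup n).toMatrix)) ∧ (∀ x, φ x ^ (n + 1) = 1) ∧
      ∀ i, ∀ s ∈ P i, s.toMatrix.map t.1 * T = T * s.toMatrix := by
    rintro ⟨t, ht⟩
    obtain ⟨T, hTu, hS, hP⟩ := hT t ht
    obtain ⟨φ, h2, h3⟩ := exists_char t (G := G) hTu fun x hx => closure_scalar t T hS (hgen hx)
    exact ⟨T, φ, hTu, h2, h3, hP⟩
  choose T φ hTu hφ hpow hPT using h1
  obtain ⟨Φ, hΦ⟩ : ∃ Φ : G →* ({t : ℂ ≃+* ℂ // ∀ x : K, t (x : ℂ) = x} → ℂˣ),
      ∀ x t, Φ x t = φ t x := ⟨MonoidHom.pi φ, fun x t => rfl⟩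
  have hker : Φ.ker.index ≠ 0 := by
    refine finiteIndex_ker_of Φ (e := n + 1) (Nat.succ_pos n) (fun x => ?_)
      (fun i => (P i).subgroupOf G) (fun i => (S i).subgroupOf G) (fun i => ?_) (fun i => ?_)
      fun x => ?_
    · funext t
      rw [Pi.pow_apply, hΦ, hpow, Pi.one_apply]
    · intro x hx
      rw [MonoidHom.mem_ker]
      funext t
      rw [hΦ, Pi.one_apply]
      exact char_eq_one (hTu t) (hφ t x) (hPT t i x hx)
    · rw [Subgroup.relIndex_subgroupOf (hSG i)]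
      exact hfin i
    · have h2 : (x : SUGroup n) ∈ (Subgroup.closure
          (⋃ i, ((S i).subgroupOf G : Set G))).map G.subtype := by
        rw [MonoidHom.map_closure, Set.image_iUnion]
        refine Subgroup.closure_mono ?_ (hgen x.2)
        refine Set.iUnion_mono fun i => ?_
        intro s hs
        exact ⟨⟨s, hSG i hs⟩, hs, rfl⟩
      obtain ⟨y, hy, hyx⟩ := h2
      have h3 : y = x := Subtype.ext hyx
      rwa [← h3]
  refine ⟨Φ.ker.map G.subtype, Subgroup.map_subtype_le _, ?_, fun i s hs => ?_, ?_⟩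
  · rw [Subgroup.relIndex, Subgroup.subgroupOf,
      Subgroup.comap_map_eq_self_of_injective G.subtype_injective]
    exact hker
  · refine ⟨⟨s, hSG i (hPS i hs)⟩, ?_, rfl⟩
    show Φ _ = 1
    funext t
    rw [hΦ, Pi.one_apply]
    exact char_eq_one (hTu t) (hφ t _) (hPT t i s hs)
  · rintro _ ⟨x, hx, rfl⟩
    refine mem_of_fixed K _ fun t ht => ?_
    have h2 : φ ⟨t, ht⟩ x = 1 := by
      rw [← hΦ]
      exact congrFun hx ⟨t, ht⟩
    have h3 := hφ ⟨t, ht⟩ x
    rw [h2, Units.val_one, one_smul] at h3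
    obtain ⟨u, hu⟩ := hTu ⟨t, ht⟩
    have h4 : (x : SUGroup n).toMatrix.map t =
        T ⟨t, ht⟩ * (x : SUGroup n).toMatrix * (↑u⁻¹ : Mat (n + 1)) := by
      rw [← h3, ← hu, Matrix.mul_assoc, Units.mul_inv, mul_one]
    have h5 : ((x : SUGroup n).toMatrix.map t).trace = (x : SUGroup n).toMatrix.trace := by
      rw [h4, Matrix.trace_mul_comm, ← hu, ← Matrix.mul_assoc, Units.inv_mul, one_mul]
    have h6 : t ((x : SUGroup n).toMatrix.trace) = ((x : SUGroup n).toMatrix.map t).trace := by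
      rw [Matrix.trace, Matrix.trace, map_sum]
      rfl
    exact h6.trans h5

end Pool.Agent.Lib.MP_5d4057_al.CF
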