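import Pool.Agent.Lib.MP_5d4057_al.CF.Tmap
import Pool.Agent.Lib.MP_5d4057_al.CF.Meet

/-!
# CF: the intertwiner of a connected configuration of pieces of type S
-/

set_option autoImplicit false

namespace Pool.Agent.Lib.MP_5d4057_al.CF

open Matrix Filter Topology Pool.Agent.Lib.MP_5d4057_al Pool.Agent.Lib.MP_5d4057_al.Hyb
  Pool.Agent.Lib.MP_5d4057_al.HM Pool.Agent.Lib.MP_5d4057_al.RC Pool.Agent.Lib.MP_5d4057_al.NU

open scoped ComplexOrder MatrixOrder Matrix.Norms.L2Operator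

variable {j k : ℕ}

/-- The common part of two hyperplanes which meet, as an isometry. -/
theorem exists_meetJ (hk : 1 ≤ k) {g g' : SUGroup (k + 2)} (h : Meet g g') :
    ∃ j₀ : Vec k →ₗ[ℂ] Vec (k + 2), MeetJ k g g' j₀ := by
  obtain ⟨A, B, hA, -, hAB⟩ := meet_lin h
  refine ⟨(HM.hyp g).toLinearMap.comp A, ⟨hk, ?_, ?_, fun w => ⟨A w, rfl⟩, fun w => ⟨B w, ?_⟩⟩⟩
  · refine inj_of_isom fun x => ?_
    show q (HM.hyp g (A x)) = q x
    rw [q_hyp, hA]
  · intro x
    show q (HM.hyp g (A x)) = q x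
    rw [q_hyp, hA]
  · exact hAB w

theorem TyS.sval {F : Vec (j + 1) → Mat (j + 2)} {g : SUGroup (j + 1)} {Q : Mat (j + 2)} {l a : ℂ}
    (h : TyS F g Q l a) : Sval F g (nf Q l a) (Q * (g⁻¹).toMatrix) a :=
  Sval.of_slice h.unit h.hl h.ha h.slice

/-- The derivatives along the hyperplane, from the piece in normal form. -/
theorem exists_sder (hj : 1 ≤ j) {Γ : Subgroup (SUGroup j)} (hΓ : Rec Γ)
    {F : Vec (j + 1) → Mat (j + 2)} {g : SUGroup (j + 1)} {Q : Mat (j + 2)} {l a : ℂ}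
    (hF : HarmG F) (h : TyS F g Q l a)
    (P : Pce j Γ (fun v => Q⁻¹ * F (act g v) * (Q⁻¹)ᴴ) l a) :
    ∃ T : Mat (j + 2), Sder F g (nf Q l a) (Q * (g⁻¹).toMatrix) a T := by
  have hQd := (isUnit_iff_isUnit_det _).1 h.unit
  have e1 : Q⁻¹ * Q = 1 := nonsing_inv_mul _ hQd
  have e1' : Q * Q⁻¹ = 1 := mul_nonsing_inv _ hQd
  have e2 : (Q⁻¹)ᴴ * Qᴴ = 1 := by rw [← conjTranspose_mul, e1', conjTranspose_one]
  obtain ⟨G, hG⟩ : ∃ G : Vec (j + 1) → Mat (j + 2),
      G = fun v => Q⁻¹ * F (act g v) * (Q⁻¹)ᴴ := ⟨_, rfl⟩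
  rw [← hG] at P
  have hGd : HarmG G := by
    rw [hG]
    exact hF.pre g (isUnit_nonsing_inv_iff.2 h.unit)
  obtain ⟨p, hp⟩ := nrm_all_rec P hj hΓ hGd.grD
  have hFG : ∀ v, F (act g v) = Q * G v * Qᴴ := by
    intro v
    rw [hG]
    show F (act g v) = Q * (Q⁻¹ * F (act g v) * (Q⁻¹)ᴴ) * Qᴴ
    calc F (act g v) = (Q * Q⁻¹) * F (act g v) * ((Q⁻¹)ᴴ * Qᴴ) := by
          rw [e1', e2, Matrix.one_mul, Matrix.mul_one]
      _ = _ := by simp only [Matrix.mul_assoc]
  have hU : ∀ w, (Q * (g⁻¹).toMatrix) *ᵥ HM.hyp g w = Q *ᵥ inc j w := by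
    intro w
    rw [← mulVec_mulVec]
    congr 1
    exact act_inv_act g _
  have hT : ∀ y, (Q * dsum p ((2 * a) • 1) * (g⁻¹).toMatrix) *ᵥ y =
      Q *ᵥ (dsum p ((2 * a) • (1 : Mat (j + 1))) *ᵥ act g⁻¹ y) := by
    intro y
    rw [← mulVec_mulVec, ← mulVec_mulVec]
    rfl
  refine ⟨Q * dsum p ((2 * a) • 1) * (g⁻¹).toMatrix,
    { toSval := h.sval, tu := ?_, ker := ?_, der := ?_ }⟩
  · intro w
    rw [hT, hU, hyp_apply, act_inv_act, dsum_mulVec_inc, smul_mulVec, one_mulVec, map_smul,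
      mulVec_smul]
  · intro x hx
    rw [hT] at hx
    have h1 : dsum p ((2 * a) • (1 : Mat (j + 1))) *ᵥ act g⁻¹ x = 0 := by
      refine mulVec_inj_of_unit h.unit ?_
      rw [hx, mulVec_zero]
    obtain ⟨y, hy⟩ : ∃ y, y = act g⁻¹ x := ⟨_, rfl⟩
    rw [← hy, eq_cons y, dsum_mulVec_cons, smul_mulVec, one_mulVec] at h1
    have h2 : tl j y = 0 := by
      have h3 : (2 * a) • tl j y = 0 := by
        funext i
        exact congrFun h1 i.succ
      exact (smul_eq_zero.1 h3).resolve_left (mul_ne_zero two_ne_zero h.ha.ne')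
    refine ⟨y 0, ?_⟩
    have h3 : y = y 0 • nrm j := by
      conv_lhs => rw [eq_cons y, h2]
      rw [nrm]
      funext i
      refine Fin.cases ?_ (fun i => ?_) i
      · rw [Fin.cons_zero, Pi.smul_apply, Fin.cons_zero, smul_eq_mul, mul_one]
        rfl
      · simp
    have h4 : x = act g y := by rw [hy, act_act_inv]
    conv_lhs => rw [h4, h3]
    rw [act_smul]
  · intro w hw ξ
    have hv := inc_mem hw
    have hq := q_ne hw
    obtain ⟨η, hη⟩ : ∃ η, η = act g⁻¹ ξ := ⟨_, rfl⟩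
    have hξ : ξ = act g η := by rw [hη, act_act_inv]
    -- the derivative of `G`
    have hGpz : pz G (inc j w) η = (-(q w : ℂ)⁻¹) •
        vecMulVec (dsum p ((2 * a) • (1 : Mat (j + 1))) *ᵥ prj (inc j w) η)
          (star (inc j w)) := by
      have h1 : η = η 0 • nrm j + inc j (tl j η) := by
        conv_lhs => rw [eq_cons η]
        rw [nrm]
        funext i
        refine Fin.cases ?_ (fun i => ?_) i
        · rw [Fin.cons_zero, Pi.add_apply, Pi.smul_apply, Fin.cons_zero, smul_eq_mul, mul_one,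
            inc_zero, add_zero]
          rfl
        · rw [Fin.cons_succ, Pi.add_apply, Pi.smul_apply, Fin.cons_succ, inc_succ]
          simp
      have h2 : prj (inc j w) η = η 0 • nrm j + inc j (prj w (tl j η)) := by
        rw [prj, herm_inc_tl, q_inc, prj, map_sub, map_smul]
        conv_lhs => rw [h1]
        have h3 : tl j (η 0 • nrm j + inc j (tl j η)) = tl j η := by rw [← h1]
        rw [h3]
        abel
      rw [h2]
      conv_lhs => rw [h1]
      rw [pz_add_dir, pz_smul_dir, (P.tan hw _).1]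
      have h4 : pz G (inc j w) (nrm j) =
          (-(q w : ℂ)⁻¹ * p) • vecMulVec (nrm j) (star (inc j w)) := hp w hw
      rw [h4, mulVec_add, mulVec_smul, dsum_mulVec_inc, smul_mulVec, one_mulVec, map_smul]
      have h5 : dsum p ((2 * a) • (1 : Mat (j + 1))) *ᵥ nrm j = p • nrm j := by
        rw [nrm, dsum_mulVec_cons, mulVec_zero, mul_one]
        funext i
        refine Fin.cases ?_ (fun i => ?_) i <;> simp
      rw [h5, Matrix.add_vecMulVec, Matrix.smul_vecMulVec, Matrix.smul_vecMulVec,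
        Matrix.smul_vecMulVec]
      module
    -- transport
    have h1 : HasZ (fun u => F (actC g u)) (inc j w) η _ _ :=
      (hasZ (hF.diff (act_mem g hv)) (actC g η)).comp_lin (actC g)
    have h2 : HasZ (fun u => Q * G u * Qᴴ) (inc j w) η _ _ :=
      (hasZ (hGd.diff hv) η).clm (ContinuousLinearMap.mulLeftRight ℂ (Mat (j + 2)) Q Qᴴ)
    have h3 : (fun u => F (actC g u)) = fun u => Q * G u * Qᴴ := by
      funext u
      exact hFG u
    have h4 : pz F (act g (inc j w)) (act g η) = Q * pz G (inc j w) η * Qᴴ := by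
      have h5 := h1.pz
      rw [h3, h2.pz] at h5
      exact h5.symm
    have h6 : act g⁻¹ (prj (act g (inc j w)) (act g η)) = prj (inc j w) η := by
      rw [prj, prj, q_act, herm_act, act, act, act, mulVec_sub, mulVec_smul]
      congr 1
      · exact act_inv_act g η
      · congr 1
        exact act_inv_act g _
    rw [hT, hU, hξ, hyp_apply, h4, hGpz, h6, Matrix.mul_smul, Matrix.smul_mul, mul_vecMulVec,
      vecMulVec_mul, ← star_mulVec]

section conf

variable {G : Subgroup (SUGroup (k + 2))} {ι : Type} {g : ι → SUGroup (k + 2)}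
  {Λ : ι → Subgroup (SUGroup (k + 1))} {t : ℂ ≃+* ℂ} {F : Vec (k + 2) → Mat (k + 3)}
  {Q : ι → Mat (k + 3)} {l a : ι → ℂ}

/-- A family of pieces of type S, of which the translates under `G` form a connected
configuration. -/
structure Fam (G : Subgroup (SUGroup (k + 2))) (g : ι → SUGroup (k + 2))
    (Λ : ι → Subgroup (SUGroup (k + 1))) (t : ℂ ≃+* ℂ) (F : Vec (k + 2) → Mat (k + 3))
    (Q : ι → Mat (k + 3)) (l a : ι → ℂ) : Prop where
  rcG : Rec G
  span : Submodule.span ℂ (SUGroup.toMatrix '' (G : Set (SUGroup (k + 2)))) = ⊤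
  recP : ∀ i, Rec (Λ i)
  emb : ∀ i, ∀ x ∈ Λ i, HM.emb (g i) x ∈ G
  conn : ∀ i i', Relation.ReflTransGen (fun a b => Meet (g a) (g b)) i i'
  gen : G ≤ Subgroup.closure {x | x ∈ G ∧ ∃ i i', Meet (x * g i) (g i')}
  harm : HarmG F
  equi : Equi (rhoT t G) F
  ty : ∀ i, TyS F (g i) (Q i) (l i) (a i)
  std : ∀ i, ∀ x ∈ Λ i, (HM.emb (g i) x).toMatrix.map t = Q i * dsum 1 x.toMatrix * (Q i)⁻¹

theorem Fam.eqF (h : Fam G g Λ t F Q l a) {x : SUGroup (k + 2)} (hx : x ∈ G) :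
    ∀ v ∈ Cone (k + 2), F (act x v) = x.toMatrix.map t * F v * (x.toMatrix.map t)ᴴ :=
  fun v hv => h.equi ⟨x, hx⟩ v hv

/-- The forms agree. -/
theorem Fam.nf_eq (hk : 1 ≤ k) (h : Fam G g Λ t F Q l a) (i i' : ι) :
    nf (Q i) (l i) (a i) = nf (Q i') (l i') (a i') := by
  induction h.conn i i' with
  | refl => rfl
  | tail _ hm ih =>
    obtain ⟨j₀, M⟩ := exists_meetJ hk hm
    rw [ih]
    exact ((h.ty _).sval.two (h.ty _).sval M).1

/-- The form is invariant. -/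
theorem Fam.nf_inv (hk : 1 ≤ k) (h : Fam G g Λ t F Q l a) (i : ι) :
    ∀ x ∈ G, x.toMatrix.map t * nf (Q i) (l i) (a i) * (x.toMatrix.map t)ᴴ =
      nf (Q i) (l i) (a i) := by
  intro x hx
  have hx' := h.gen hx
  clear hx
  induction hx' using Subgroup.closure_induction with
  | mem x hx =>
    obtain ⟨hx, b, b', hm⟩ := hx
    obtain ⟨j₀, M⟩ := exists_meetJ hk hm
    have h1 := (((h.ty b).sval.trans (tm_gp_unit t x) (h.eqF hx)).two (h.ty b').sval M).1
    rw [h.nf_eq hk i b]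
    exact h1.trans (h.nf_eq hk b' b)
  | one => rw [toMatrix_one, tm_one, Matrix.one_mul, conjTranspose_one, Matrix.mul_one]
  | mul x y _ _ hx hy =>
    rw [toMatrix_mul, tm_mul, conjTranspose_mul]
    calc x.toMatrix.map t * y.toMatrix.map t * nf (Q i) (l i) (a i) *
          ((y.toMatrix.map t)ᴴ * (x.toMatrix.map t)ᴴ)
        = x.toMatrix.map t * (y.toMatrix.map t * nf (Q i) (l i) (a i) * (y.toMatrix.map t)ᴴ) *
          (x.toMatrix.map t)ᴴ := by simp only [Matrix.mul_assoc]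
      _ = _ := by rw [hy, hx]
  | inv x _ hx =>
    have hu := tm_gp_unit t x
    have hd := (isUnit_iff_isUnit_det _).1 hu
    rw [tm_gp_inv]
    obtain ⟨A, hA⟩ : ∃ A, A = x.toMatrix.map t := ⟨_, rfl⟩
    rw [← hA] at hx hd ⊢
    have e1 : A⁻¹ * A = 1 := nonsing_inv_mul _ hd
    have e2 : Aᴴ * (A⁻¹)ᴴ = 1 := by rw [← conjTranspose_mul, e1, conjTranspose_one]
    calc A⁻¹ * nf (Q i) (l i) (a i) * (A⁻¹)ᴴ
        = A⁻¹ * (A * nf (Q i) (l i) (a i) * Aᴴ) * (A⁻¹)ᴴ := by rw [hx]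
      _ = (A⁻¹ * A) * nf (Q i) (l i) (a i) * (Aᴴ * (A⁻¹)ᴴ) := by simp only [Matrix.mul_assoc]
      _ = _ := by rw [e1, e2, Matrix.one_mul, Matrix.mul_one]

/-- The symmetry of the metric. -/
theorem Fam.refl (hk : 1 ≤ k) (h : Fam G g Λ t F Q l a) (i : ι) :
    ∀ v ∈ Cone (k + 2), nf (Q i) (l i) (a i) * (F v)⁻¹ * nf (Q i) (l i) (a i) = F v := by
  have S := (h.ty i).sval
  have hl := (h.ty i).hl
  have ha := (h.ty i).ha
  have hQu := (h.ty i).unit
  refine refl_of_base_rec (by omega) h.rcG h.harm.toHarm h.harm.grInv h.equi S.nu S.nh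
    (fun γ => tm_gp_unit t (γ : SUGroup (k + 2))) (fun γ => h.nf_inv hk i γ γ.2)
    (hyp_mem (g i) (base_mem (k + 1))) ?_
  have hb0 := (h.ty i).slice _ (base_mem (k + 1))
  rw [std_base] at hb0
  rw [hb0, nf, conj_refl hQu]
  refine congrArg (fun A : Mat (k + 3) => Q i * A * (Q i)ᴴ) ?_
  have h1u : IsUnit (a i • (1 : Mat (k + 2))) := smul_unit ha.ne' isUnit_one
  rw [dsum_inv' hl.ne' h1u, smul_matInv ha.ne' isUnit_one, inv_one, dsum_mul, dsum_mul]
  simp only [Matrix.mul_smul, Matrix.smul_mul, smul_smul, Matrix.mul_one, J_J]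
  have h2 := hl.ne'
  have h3 := ha.ne'
  congr 1
  · field_simp
  · congr 1
    field_simp

/-- The pieces in normal form. -/
theorem Fam.pce (hk : 1 ≤ k) (h : Fam G g Λ t F Q l a) (i : ι) :
    Pce (k + 1) (Λ i) (fun v => (Q i)⁻¹ * F (act (g i) v) * ((Q i)⁻¹)ᴴ) (l i) (a i) := by
  have hl := (h.ty i).hl
  have ha := (h.ty i).ha
  have hQu := (h.ty i).unit
  have hQd := (isUnit_iff_isUnit_det _).1 hQu
  have e1 : (Q i)⁻¹ * Q i = 1 := nonsing_inv_mul _ hQd
  have e2 : (Q i)ᴴ * ((Q i)⁻¹)ᴴ = 1 := by rw [← conjTranspose_mul, e1, conjTranspose_one]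
  have hQi : IsUnit (Q i)⁻¹ := isUnit_nonsing_inv_iff.2 hQu
  refine ⟨(h.harm.pre (g i) hQi).toHarm, hl, ha, ?_, ?_, ?_⟩
  · intro w hw
    show (Q i)⁻¹ * F (HM.hyp (g i) w) * ((Q i)⁻¹)ᴴ = _
    rw [(h.ty i).slice w hw]
    calc (Q i)⁻¹ * (Q i * dsum (l i) (a i • HM.std w) * (Q i)ᴴ) * ((Q i)⁻¹)ᴴ
        = ((Q i)⁻¹ * Q i) * dsum (l i) (a i • HM.std w) * ((Q i)ᴴ * ((Q i)⁻¹)ᴴ) := by
          simp only [Matrix.mul_assoc]
      _ = _ := by rw [e1, e2, Matrix.one_mul, Matrix.mul_one]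
  · intro v hv
    have h1 := h.refl hk i _ (act_mem (g i) hv)
    have h2 : dsum (l i) (a i • J (k + 1)) =
        (Q i)⁻¹ * nf (Q i) (l i) (a i) * ((Q i)⁻¹)ᴴ := by
      rw [nf]
      calc dsum (l i) (a i • J (k + 1)) =
            ((Q i)⁻¹ * Q i) * dsum (l i) (a i • J (k + 1)) * ((Q i)ᴴ * ((Q i)⁻¹)ᴴ) := by
            rw [e1, e2, Matrix.mul_one, Matrix.one_mul]
        _ = _ := by simp only [Matrix.mul_assoc]
    show dsum (l i) (a i • J (k + 1)) *
      ((Q i)⁻¹ * F (act (g i) v) * ((Q i)⁻¹)ᴴ)⁻¹ * dsum (l i) (a i • J (k + 1)) = _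
    rw [h2, conj_refl hQi, h1]
  · intro γ hγ v hv
    have h1 : act (g i) (act (extend (k + 1) γ) v) = act (HM.emb (g i) γ) (act (g i) v) := by
      rw [emb_apply, ← act_mul, ← act_mul, inv_mul_cancel_right]
    rw [h1, h.eqF (h.emb i γ hγ) _ (act_mem _ hv), h.std i γ hγ, conjTranspose_mul,
      conjTranspose_mul]
    have h5 : ∀ A : Mat (k + 3), (Q i)⁻¹ * (Q i * A) = A := fun A => by
      rw [← Matrix.mul_assoc, e1, Matrix.one_mul]
    simp only [Matrix.mul_assoc, h5]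
    rw [e2, Matrix.mul_one]

/-- **The intertwiner.** -/
theorem Fam.exists_T (hk : 1 ≤ k) (h : Fam G g Λ t F Q l a) (i₀ : ι) :
    ∃ T : Mat (k + 3), IsUnit T ∧
      (∀ x ∈ G, ∃ α : ℂ, α ≠ 0 ∧ x.toMatrix.map t * T = α • (T * x.toMatrix)) ∧
      ∀ i, ∀ y ∈ Λ i, (HM.emb (g i) y).toMatrix.map t * T = T * (HM.emb (g i) y).toMatrix := by
  have hd : ∀ v ∈ Cone (k + 2), DifferentiableAt ℝ F v := fun v hv => h.harm.diff hv
  have hT := fun i => exists_sder (by omega : 1 ≤ k + 1) (h.recP i) h.harm (h.ty i) (h.pce hk i)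
  choose T hT using hT
  -- proportional along the chain
  have hprop : ∀ i, ∃ c : ℂ, c ≠ 0 ∧ T i = c • T i₀ := by
    intro i
    induction h.conn i₀ i with
    | refl => exact ⟨1, one_ne_zero, by rw [one_smul]⟩
    | tail _ hm ih =>
      obtain ⟨j₀, M⟩ := exists_meetJ hk hm
      obtain ⟨c, hc, hcT⟩ := ih
      obtain ⟨d, hd', hdT⟩ := (hT _).two (hT _) M
      exact ⟨d * c, mul_ne_zero hd' hc, by rw [hdT, hcT, smul_smul]⟩
  have hcancel : ∀ (x : SUGroup (k + 2)) (A B : Mat (k + 3)),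
      A * (x⁻¹).toMatrix = B → A = B * x.toMatrix := by
    intro x A B hAB
    rw [← hAB, Matrix.mul_assoc, toMatrix_inv_mul, Matrix.mul_one]
  have hgen : ∀ x ∈ G, ∃ α : ℂ, α ≠ 0 ∧
      x.toMatrix.map t * T i₀ = α • (T i₀ * x.toMatrix) := by
    intro x hx
    have hx' := h.gen hx
    clear hx
    induction hx' using Subgroup.closure_induction with
    | mem x hx =>
      obtain ⟨hx, b, b', hm⟩ := hx
      obtain ⟨j₀, M⟩ := exists_meetJ hk hm
      obtain ⟨d, hd', hdT⟩ := ((hT b).trans (tm_gp_unit t x) hd (h.eqF hx)).two (hT b') M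
      obtain ⟨c, hc, hcT⟩ := hprop b
      obtain ⟨c', hc', hcT'⟩ := hprop b'
      refine ⟨d⁻¹ * c⁻¹ * c', mul_ne_zero (mul_ne_zero (inv_ne_zero hd') (inv_ne_zero hc)) hc', ?_⟩
      rw [hcT, hcT', Matrix.mul_smul, Matrix.smul_mul, smul_smul] at hdT
      have h1 : (x.toMatrix.map t * T i₀) * (x⁻¹).toMatrix = (d⁻¹ * c⁻¹ * c') • T i₀ := by
        rw [mul_smul (d⁻¹ * c⁻¹) c', hdT, smul_smul]
        have : d⁻¹ * c⁻¹ * (d * c) = 1 := by field_simp
        rw [this, one_smul]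
      rw [hcancel x _ _ h1, Matrix.smul_mul]
    | one =>
      exact ⟨1, one_ne_zero, by rw [toMatrix_one, tm_one, Matrix.one_mul, Matrix.mul_one, one_smul]⟩
    | mul x y _ _ hx hy =>
      obtain ⟨α, hα, hx⟩ := hx
      obtain ⟨β, hβ, hy⟩ := hy
      refine ⟨α * β, mul_ne_zero hα hβ, ?_⟩
      rw [toMatrix_mul, tm_mul, Matrix.mul_assoc, hy, Matrix.mul_smul, ← Matrix.mul_assoc, hx,
        Matrix.smul_mul, smul_smul, mul_comm β α, Matrix.mul_assoc]
    | inv x _ hx =>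
      obtain ⟨α, hα, hx⟩ := hx
      refine ⟨α⁻¹, inv_ne_zero hα, ?_⟩
      have hdd := (isUnit_iff_isUnit_det _).1 (tm_gp_unit t x)
      have e1 : (x.toMatrix.map t)⁻¹ * x.toMatrix.map t = 1 := nonsing_inv_mul _ hdd
      rw [tm_gp_inv]
      have h1 : T i₀ = (x.toMatrix.map t)⁻¹ * (α • (T i₀ * x.toMatrix)) := by
        rw [← hx, ← Matrix.mul_assoc, e1, Matrix.one_mul]
      have h2 : T i₀ * (x⁻¹).toMatrix = α • ((x.toMatrix.map t)⁻¹ * T i₀) := by
        conv_lhs => rw [h1]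
        rw [Matrix.mul_smul, Matrix.smul_mul, Matrix.mul_assoc, Matrix.mul_assoc,
          toMatrix_mul_inv, Matrix.mul_one]
      rw [h2, smul_smul, inv_mul_cancel₀ hα, one_smul]
  -- invertible
  have hTu : IsUnit (T i₀) := by
    rw [isUnit_iff_isUnit_det, isUnit_iff_ne_zero]
    intro hdet
    obtain ⟨y, hy, hTy⟩ := Matrix.exists_mulVec_eq_zero_iff.2 hdet
    have h1 : ∀ A : Mat (k + 3), T i₀ *ᵥ (A *ᵥ y) = 0 := by
      intro A
      have hA : A ∈ Submodule.span ℂ (SUGroup.toMatrix '' (G : Set (SUGroup (k + 2)))) := by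
        rw [h.span]
        trivial
      induction hA using Submodule.span_induction with
      | mem x hx =>
        obtain ⟨x, hx, rfl⟩ := hx
        obtain ⟨α, hα, hxT⟩ := hgen x hx
        have h2 : α • (T i₀ *ᵥ (x.toMatrix *ᵥ y)) = 0 := by
          rw [mulVec_mulVec, ← smul_mulVec, ← hxT, ← mulVec_mulVec, hTy, mulVec_zero]
        exact (smul_eq_zero.1 h2).resolve_left hα
      | zero => rw [zero_mulVec, mulVec_zero]
      | add x z _ _ hx hz => rw [add_mulVec, mulVec_add, hx, hz, add_zero]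
      | smul c x _ hx => rw [smul_mulVec, mulVec_smul, hx, smul_zero]
    obtain ⟨i, hi⟩ := Function.ne_iff.1 hy
    have h2 : ∀ z, T i₀ *ᵥ z = 0 := by
      intro z
      have h3 := h1 (vecMulVec z (Pi.single i (y i)⁻¹))
      have h4 : vecMulVec z (Pi.single i (y i)⁻¹) *ᵥ y = z := by
        rw [vmv, single_dotProduct, inv_mul_cancel₀ hi, one_smul]
      rwa [h4] at h3
    have hb := base_mem (k + 1)
    have h3 := (hT i₀).tu (base (k + 1))
    rw [h2] at h3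
    have h4 := (smul_eq_zero.1 h3.symm).resolve_left
      (mul_ne_zero two_ne_zero (h.ty i₀).ha.ne')
    have h5 : HM.hyp (g i₀) (base (k + 1)) = 0 := by
      refine mulVec_inj_of_unit (hT i₀).unit ?_
      rw [h4, mulVec_zero]
    have h6 : q (HM.hyp (g i₀) (base (k + 1))) < 0 := hyp_mem _ hb
    rw [h5, q, herm, mulVec_zero, dotProduct_zero] at h6
    exact lt_irrefl _ h6
  refine ⟨T i₀, hTu, hgen, fun i y hy => ?_⟩
  have hy' := h.emb i y hy
  have hs : ∀ w, ∃ w', act (HM.emb (g i) y) (HM.hyp (g i) w) = HM.hyp (g i) w' :=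
    fun w => ⟨_, TW.act_emb_hyp (g i) y w⟩
  obtain ⟨α, hα, hα1⟩ := (hT i).equi (by omega : 1 ≤ k + 1) hd hs (h.eqF hy')
  have h1 : α = 1 := by
    apply hα1
    have hQd := (isUnit_iff_isUnit_det _).1 (h.ty i).unit
    have e1 : (Q i)⁻¹ * Q i = 1 := nonsing_inv_mul _ hQd
    have h2 : (g i)⁻¹ * HM.emb (g i) y = extend (k + 1) y * (g i)⁻¹ := by
      rw [emb_apply]
      group
    rw [h.std i y hy, Matrix.mul_assoc, Matrix.mul_assoc (Q i) _ (HM.emb (g i) y).toMatrix,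
      ← toMatrix_mul, h2, toMatrix_mul, extend_toMatrix, Matrix.mul_assoc (Q i) (dsum 1 _) _,
      ← Matrix.mul_assoc (Q i)⁻¹ (Q i), e1, Matrix.one_mul]
  rw [h1, one_smul] at hα
  obtain ⟨c, hc, hcT⟩ := hprop i
  rw [hcT, Matrix.mul_smul, Matrix.smul_mul] at hα
  exact smul_right_injective _ hc hα

end conf

end Pool.Agent.Lib.MP_5d4057_al.CF
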