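import Pool.Agent.Lib.MP_5d4057_al.TW.Int
import Pool.Agent.Lib.MP_5d4057_al.CF.FggC
import Pool.Agent.Lib.MP_5d4057_al.CF.Blk

/-!
# CF: integrality of the traces
-/

set_option autoImplicit false

namespace Pool.Agent.Lib.MP_5d4057_al.CF

open Matrix Filter Topology Module Pool.Agent.Lib.MP_5d4057_al
  Pool.Agent.Lib.MP_5d4057_al.Hyb Pool.Agent.Lib.MP_5d4057_al.HM Pool.Agent.Lib.MP_5d4057_al.NU
  Pool.Agent.Lib.MP_5d4057_al.IN

variable {j k : ℕ} {ι : Type} {g : ι → SUGroup (k + 2)}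
  {Λ : ι → Subgroup (SUGroup (k + 1))} {S : ι → Subgroup (SUGroup (k + 2))}

/-- The cone vectors orthogonal to the normal vector are on the hyperplane. -/
theorem exists_hyp {g : SUGroup (j + 1)} {v : Vec (j + 1)} (hv : v ∈ Cone (j + 1))
    (h : herm (act g (nrm j)) v = 0) : ∃ w ∈ Cone j, HM.hyp g w = v := by
  obtain ⟨y, rfl⟩ : ∃ y, v = act g y :=
    ⟨act g⁻¹ v, by rw [← act_mul, mul_inv_cancel, act_one]⟩
  rw [herm_act] at h
  have h0 : y 0 = 0 := by
    rw [eq_cons y, nrm, herm, J_succ, dsum_mulVec_cons] at h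
    have h1 : star (Fin.cons 1 0 : Vec (j + 1)) = Fin.cons 1 0 := by
      ext i
      refine Fin.cases ?_ (fun i => ?_) i
      · simp
      · simp
    rw [h1, cons_dot_cons, zero_dotProduct, add_zero, one_mul, one_mul] at h
    exact h
  have h2 : inc j (tl j y) = y := by
    conv_rhs => rw [eq_cons y]
    rw [inc_apply]
    congr 1
    exact h0.symm
  refine ⟨tl j y, ?_, ?_⟩
  · have h3 : q (act g y) < 0 := hv
    rw [q_act, ← h2, q_inc] at h3
    exact h3
  · rw [hyp_apply, h2]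

/-- Integrality of the traces. -/
theorem integral_cf (hk : 1 ≤ k) [Finite ι] (hP : ∀ i, Piece (Λ i) (g i) (S i)) (hc : Conn g)
    (hlat : IsLattice (⨆ i, S i)) : ∀ x ∈ ⨆ i, S i, IsIntegral ℤ x.toMatrix.trace := by
  refine IN.integral_conf (by omega : 1 ≤ k + 1) hlat (fgg_cf hP) g Λ
    (fun i => RC.rec_of_lattice (by omega) (hP i).lat (RC.fgg_of_isArith (hP i).ar))
    (fun i => ⟨Λ i, (hP i).ar, le_rfl⟩)
    (fun i γ hγ => Subgroup.mem_iSup_of_mem i ((hP i).le ⟨γ, hγ, rfl⟩)) ?_ ?_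
  · intro i i'
    induction hc i i' with
    | refl => exact Relation.EqvGen.refl _
    | tail _ h2 ih =>
      obtain ⟨v, hv, h3, h4⟩ := h2
      obtain ⟨w, hw, e⟩ := exists_hyp hv h3
      obtain ⟨w', hw', e'⟩ := exists_hyp hv h4
      exact ih.trans _ _ _ (Relation.EqvGen.rel _ _ ⟨w, hw, w', hw', e.trans e'.symm⟩)
  · rw [Subgroup.iSup_eq_closure]
    refine Subgroup.closure_mono ?_
    intro x hx
    obtain ⟨i, hx⟩ := Set.mem_iUnion.1 hx
    obtain ⟨χ, Y, -, hY, e⟩ := blk (by omega) (hP i) hx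
    refine ⟨?_, i, i, base _, base_mem _, Y *ᵥ base _, ?_, act_hyp_blk e _⟩
    · rw [← Subgroup.iSup_eq_closure]
      exact Subgroup.mem_iSup_of_mem i hx
    · show q (Y *ᵥ base _) < 0
      rw [q_mulVec hY]
      exact base_mem _

end Pool.Agent.Lib.MP_5d4057_al.CF
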