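import Pool.Agent.Lib.MP_5d4057_al.CF.Nf
import Pool.Agent.Lib.MP_5d4057_al.CF.Int

/-!
# CF: connectedness of the translates
-/

set_option autoImplicit false

namespace Pool.Agent.Lib.MP_5d4057_al.CF

open Matrix Filter Topology Pool.Agent.Lib.MP_5d4057_al Pool.Agent.Lib.MP_5d4057_al.Hyb
  Pool.Agent.Lib.MP_5d4057_al.HM Pool.Agent.Lib.MP_5d4057_al.RC Pool.Agent.Lib.MP_5d4057_al.NU

open scoped ComplexOrder MatrixOrder Matrix.Norms.L2Operator

variable {j : ℕ}

/-- Hyperplanes with a common point. PROOF: `v = hyp g w` iff `v` is orthogonal to `act g (nrm j)`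
(`exists_hyp` in `CF/Int`; first coordinate of `act g⁻¹ v`). -/
theorem meet_iff {g g' : SUGroup (j + 1)} :
    Meet g g' ↔ ∃ w ∈ Cone j, ∃ w' ∈ Cone j, HM.hyp g w = HM.hyp g' w' := by
  constructor
  · rintro ⟨v, hv, h1, h2⟩
    obtain ⟨w, hw, e⟩ := exists_hyp hv h1
    obtain ⟨w', hw', e'⟩ := exists_hyp hv h2
    exact ⟨w, hw, w', hw', e.trans e'.symm⟩
  · rintro ⟨w, hw, w', -, e⟩
    exact meet_of_hyp hw e

theorem meet_mul {g g' : SUGroup (j + 1)} (h : Meet g g') (x : SUGroup (j + 1)) :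
    Meet (x * g) (x * g') := by
  obtain ⟨v, hv, h1, h2⟩ := h
  refine ⟨act x v, act_mem x hv, ?_, ?_⟩
  · rw [act_mul, herm_act, h1]
  · rw [act_mul, herm_act, h2]

/-- The translates form a connected configuration if `G` is generated by elements which move one of the
hyperplanes to a hyperplane which meets one of them. PROOF: all `(γ, i)`, `i ∈ I`, are connected
(`meet_mul`), and `(γ * x, i)` is adjacent to `(γ, i')` for a generator `x`; closure induction. -/
theorem conn_trl {I : Type} {G : Subgroup (SUGroup (j + 1))} {g : I → SUGroup (j + 1)}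
    (hc : Conn g) (hgen : G ≤ Subgroup.closure {x | x ∈ G ∧ ∃ i i', Meet (x * g i) (g i')}) :
    Conn (trl G g) := by
  have hsymm : ∀ {p p' : G × I},
      Relation.ReflTransGen (fun a b => Meet (trl G g a) (trl G g b)) p p' →
      Relation.ReflTransGen (fun a b => Meet (trl G g a) (trl G g b)) p' p := by
    intro p p' h
    induction h with
    | refl => exact .refl
    | tail _ h2 ih => exact .head h2.symm ih
  have hA : ∀ (γ : G) (i i' : I),
      Relation.ReflTransGen (fun a b => Meet (trl G g a) (trl G g b)) (γ, i) (γ, i') := by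
    intro γ i i'
    have h := hc i i'
    induction h with
    | refl => exact .refl
    | tail _ h2 ih => exact .tail ih (meet_mul h2 _)
  have hC : ∀ y ∈ Subgroup.closure {x | x ∈ G ∧ ∃ i i', Meet (x * g i) (g i')},
      ∃ hy : y ∈ G, ∀ (γ : G) (i i' : I),
        Relation.ReflTransGen (fun a b => Meet (trl G g a) (trl G g b)) (γ * ⟨y, hy⟩, i)
          (γ, i') := by
    intro y hy
    induction hy using Subgroup.closure_induction with
    | mem x hx =>
      obtain ⟨hxG, a, a', hm⟩ := hx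
      refine ⟨hxG, fun γ i i' => ?_⟩
      refine (hA (γ * ⟨x, hxG⟩) i a).trans (.head ?_ (hA γ a' i'))
      show Meet ((γ : SUGroup (j + 1)) * x * g a) (γ * g a')
      rw [mul_assoc]
      exact meet_mul hm _
    | one =>
      refine ⟨G.one_mem, fun γ i i' => ?_⟩
      have h1 : γ * ⟨1, G.one_mem⟩ = γ := mul_one γ
      rw [h1]
      exact hA γ i i'
    | mul x y _ _ hx hy =>
      obtain ⟨hxG, hx⟩ := hx
      obtain ⟨hyG, hy⟩ := hy
      refine ⟨G.mul_mem hxG hyG, fun γ i i' => ?_⟩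
      have h1 : γ * ⟨x * y, G.mul_mem hxG hyG⟩ = γ * ⟨x, hxG⟩ * ⟨y, hyG⟩ := by
        rw [mul_assoc]
        rfl
      rw [h1]
      exact (hy _ i i).trans (hx _ i i')
    | inv x _ hx =>
      obtain ⟨hxG, hx⟩ := hx
      refine ⟨G.inv_mem hxG, fun γ i i' => ?_⟩
      have h1 := hx (γ * ⟨x⁻¹, G.inv_mem hxG⟩) i' i
      have h2 : γ * ⟨x⁻¹, G.inv_mem hxG⟩ * ⟨x, hxG⟩ = γ := by
        have h3 : (⟨x⁻¹, G.inv_mem hxG⟩ : G) = (⟨x, hxG⟩ : G)⁻¹ := rfl
        rw [h3, inv_mul_cancel_right]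
      rw [h2] at h1
      exact hsymm h1
  rintro ⟨a, i⟩ ⟨b, i'⟩
  obtain ⟨hy, h⟩ := hC ((b⁻¹ * a : G) : SUGroup (j + 1)) (hgen (b⁻¹ * a : G).2)
  have h1 := h b i i'
  have h2 : b * ⟨((b⁻¹ * a : G) : SUGroup (j + 1)), hy⟩ = a := by
    show b * (b⁻¹ * a) = a
    rw [mul_inv_cancel_left]
  rw [h2] at h1
  exact h1

/-- The elements of a piece preserve the hyperplane. PROOF: `blk`, `act_hyp_blk`. -/
theorem Piece.meet (hj : 1 ≤ j) {Λ : Subgroup (SUGroup j)} {g : SUGroup (j + 1)}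
    {S : Subgroup (SUGroup (j + 1))} (hP : Piece Λ g S) {s : SUGroup (j + 1)} (hs : s ∈ S) :
    Meet (s * g) g := by
  obtain ⟨χ, Y, -, -, e⟩ := blk hj hP hs
  refine meet_of_hyp (base_mem j) (w' := Y *ᵥ base j) ?_
  rw [← act_hyp_blk e, hyp_apply, hyp_apply, act_mul]

end Pool.Agent.Lib.MP_5d4057_al.CF
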