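import Pool.Agent.Lib.MP_5d4057_al.Hyb.Sep
import Pool.Agent.Lib.MP_5d4057_al.Hyb.CovB
import Pool.Agent.Lib.MP_5d4057_al.Hyb.Denom
import Pool.Agent.Lib.MP_5d4057_al.Hyb.Span
import Pool.Agent.Lib.MP_5d4057_al.Hyb.Arith
import Pool.Agent.Lib.MP_5d4057_al.HM.Aut

/-! The criterion for arithmeticity: a lattice with traces in a CM field `K`, integral, whose
conjugates at the other places preserve positive forms, is arithmetic. -/

set_option autoImplicit false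

namespace Pool.Agent.Lib.MP_5d4057_al.CF

open Matrix Pool.Agent.Lib.MP_5d4057_al Pool.Agent.Lib.MP_5d4057_al.Hyb
  Pool.Agent.Lib.MP_5d4057_al.HM

open scoped ComplexOrder NumberField

variable {m : ℕ} {Γ : Subgroup (SUGroup m)} {K : Subfield ℂ}

/-- A basis of the space of matrices consisting of elements of `Γ`. -/
theorem exists_basis (hspan : Submodule.span ℂ (SUGroup.toMatrix '' (Γ : Set (SUGroup m))) = ⊤) :
    ∃ (ι : Type) (_ : Fintype ι)
      (b : Module.Basis ι ℂ (Matrix (Fin (m + 1)) (Fin (m + 1)) ℂ)) (g : ι → SUGroup m),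
      (∀ i, g i ∈ Γ) ∧ ∀ i, b i = (g i).toMatrix := by
  obtain ⟨s, hs, hsp, hli⟩ := exists_linearIndependent ℂ (SUGroup.toMatrix '' (Γ : Set (SUGroup m)))
  have hfin : s.Finite := hli.setFinite
  let b : Module.Basis s ℂ (Matrix (Fin (m + 1)) (Fin (m + 1)) ℂ) :=
    Module.Basis.mk hli (by rw [Subtype.range_coe, hsp, hspan])
  have h : ∀ i : s, ∃ g : SUGroup m, g ∈ Γ ∧ b i = g.toMatrix := by
    intro i
    obtain ⟨g, hg, hgi⟩ := hs i.2
    refine ⟨g, hg, ?_⟩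
    rw [Module.Basis.mk_apply]
    exact hgi.symm
  choose g hg hb using h
  exact ⟨s, hfin.fintype, b, g, hg, hb⟩

section basis

variable {ι : Type} [Fintype ι] {b : Module.Basis ι ℂ (Matrix (Fin (m + 1)) (Fin (m + 1)) ℂ)}

/-- The Gram matrix of the trace form. -/
noncomputable def gram (b : Module.Basis ι ℂ (Matrix (Fin (m + 1)) (Fin (m + 1)) ℂ)) : Matrix ι ι ℂ :=
  Matrix.of fun i j => (b i * b j).trace

theorem gram_mulVec (x : Matrix (Fin (m + 1)) (Fin (m + 1)) ℂ) (i : ι) :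
    (gram b *ᵥ fun j => b.repr x j) i = (b i * x).trace := by
  conv_rhs => rw [← b.sum_repr x, Matrix.mul_sum, Matrix.trace_sum]
  rw [mulVec, dotProduct]
  refine Finset.sum_congr rfl fun j _ => ?_
  rw [Matrix.mul_smul, Matrix.trace_smul, smul_eq_mul, mul_comm]
  rfl

theorem gram_det [DecidableEq ι] : (gram b).det ≠ 0 := by
  intro h
  obtain ⟨v, hv, hv0⟩ := Matrix.exists_mulVec_eq_zero_iff.2 h
  apply hv
  have h1 : ∀ i, (b i * ∑ j, v j • b j).trace = 0 := by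
    intro i
    rw [← gram_mulVec (b := b)]
    have h2 : (fun j => b.repr (∑ j, v j • b j) j) = v := by
      funext j
      rw [b.repr_sum_self]
    rw [h2, hv0]
    rfl
  have h2 : (∑ j, v j • b j) = 0 := by
    rw [Matrix.ext_iff_trace_mul_left]
    intro y
    rw [Matrix.mul_zero, Matrix.trace_zero, ← b.sum_repr y, Matrix.sum_mul, Matrix.trace_sum]
    refine Finset.sum_eq_zero fun i _ => ?_
    rw [Matrix.smul_mul, Matrix.trace_smul, h1, smul_zero]
  funext j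
  have h3 : b.repr (∑ j, v j • b j) j = 0 := by
    rw [h2, map_zero]
    rfl
  have h4 : b.repr (∑ j, v j • b j) j = v j := congrFun (b.repr_sum_self v) j
  rw [Pi.zero_apply, ← h4, h3]

/-- The coordinates of `x` are `K`-linear combinations of the traces `tr (b i * x)`, with common
coefficients. -/
theorem exists_coord (hT : ∀ i j, (b i * b j).trace ∈ K) :
    ∃ S : ι → ι → K, ∀ (x : Matrix (Fin (m + 1)) (Fin (m + 1)) ℂ) (j : ι),
      b.repr x j = ∑ i, (S j i : ℂ) * (b i * x).trace := by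
  classical
  let T₀ : Matrix ι ι K := Matrix.of fun i j => ⟨(b i * b j).trace, hT i j⟩
  have hmap : T₀.map K.subtype = gram b := by
    ext i j
    rfl
  have hdet : IsUnit T₀.det := by
    rw [isUnit_iff_ne_zero]
    intro h
    apply gram_det (b := b)
    rw [← hmap, ← RingHom.mapMatrix_apply, ← RingHom.map_det, h, map_zero]
  refine ⟨fun j i => T₀⁻¹ j i, fun x j => ?_⟩
  have h1 : (T₀⁻¹).map K.subtype * gram b = 1 := by
    rw [← hmap, ← Matrix.map_mul, Matrix.nonsing_inv_mul _ hdet]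
    exact Matrix.map_one _ (map_zero _) (map_one _)
  have h2 : (T₀⁻¹).map K.subtype *ᵥ (gram b *ᵥ fun j => b.repr x j) = fun j => b.repr x j := by
    rw [mulVec_mulVec, h1, one_mulVec]
  have h3 := congrFun h2 j
  rw [← h3, mulVec, dotProduct]
  refine Finset.sum_congr rfl fun i _ => ?_
  rw [gram_mulVec]
  rfl

end basis

/-- The data used below. -/
structure Bas (Γ : Subgroup (SUGroup m)) (K : Subfield ℂ) {ι : Type} [Fintype ι]
    (b : Module.Basis ι ℂ (Matrix (Fin (m + 1)) (Fin (m + 1)) ℂ)) (g : ι → SUGroup m) : Prop where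
  cm : IsCM K
  mem : ∀ i, g i ∈ Γ
  eq : ∀ i, b i = (g i).toMatrix
  tr : ∀ γ ∈ Γ, γ.toMatrix.trace ∈ K
  int : ∀ γ ∈ Γ, IsIntegral ℤ γ.toMatrix.trace

section data

variable {ι : Type} [Fintype ι] {b : Module.Basis ι ℂ (Matrix (Fin (m + 1)) (Fin (m + 1)) ℂ)}
  {g : ι → SUGroup m}

theorem Bas.trg (h : Bas Γ K b g) {γ : SUGroup m} (hγ : γ ∈ Γ) (i : ι) :
    (b i * γ.toMatrix).trace ∈ integers K := by
  rw [h.eq, ← toMatrix_mul]
  have h1 := Γ.mul_mem (h.mem i) hγ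
  exact ⟨h.tr _ h1, h.int _ h1⟩

theorem Bas.tb (h : Bas Γ K b g) (i j : ι) : (b i * b j).trace ∈ K := by
  rw [h.eq j]
  exact (h.trg (h.mem j) i).1

theorem Bas.repr_mem (h : Bas Γ K b g) {γ : SUGroup m} (hγ : γ ∈ Γ) (j : ι) :
    b.repr γ.toMatrix j ∈ K := by
  obtain ⟨S, hS⟩ := exists_coord (K := K) h.tb
  rw [hS]
  exact K.sum_mem fun i _ => K.mul_mem (S j i).2 (h.trg hγ i).1

/-- The `K`-span of `Γ`. -/
def Bas.alg (h : Bas Γ K b g) : Subalgebra K (Matrix (Fin (m + 1)) (Fin (m + 1)) ℂ) where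
  carrier := {x | ∀ j, b.repr x j ∈ K}
  mul_mem' {x y} hx hy j := by
    have e : x * y = ∑ i, ∑ l, (b.repr x i * b.repr y l) • (b i * b l) := by
      conv_lhs => rw [← b.sum_repr x, ← b.sum_repr y]
      rw [Finset.sum_mul_sum]
      refine Finset.sum_congr rfl fun i _ => Finset.sum_congr rfl fun l _ => ?_
      rw [Matrix.smul_mul, Matrix.mul_smul, smul_smul]
    rw [e, map_sum, Finsupp.finsetSum_apply]
    refine K.sum_mem fun i _ => ?_
    rw [map_sum, Finsupp.finsetSum_apply]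
    refine K.sum_mem fun l _ => ?_
    rw [map_smul, Finsupp.smul_apply, smul_eq_mul, h.eq i, h.eq l, ← toMatrix_mul]
    exact K.mul_mem (K.mul_mem (hx i) (hy l)) (h.repr_mem (Γ.mul_mem (h.mem i) (h.mem l)) j)
  add_mem' {x y} hx hy j := by
    rw [map_add, Finsupp.add_apply]
    exact K.add_mem (hx j) (hy j)
  algebraMap_mem' k j := by
    have e : algebraMap K (Matrix (Fin (m + 1)) (Fin (m + 1)) ℂ) k =
        (k : ℂ) • (1 : SUGroup m).toMatrix := by
      rw [toMatrix_one, Algebra.algebraMap_eq_smul_one]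
      rfl
    rw [e, map_smul, Finsupp.smul_apply, smul_eq_mul]
    exact K.mul_mem k.2 (h.repr_mem Γ.one_mem j)

theorem Bas.mem_alg (h : Bas Γ K b g) {x : Matrix (Fin (m + 1)) (Fin (m + 1)) ℂ} :
    x ∈ h.alg ↔ ∀ j, b.repr x j ∈ K := Iff.rfl

theorem Bas.coe_mem (h : Bas Γ K b g) {γ : SUGroup m} (hγ : γ ∈ Γ) : γ.toMatrix ∈ h.alg :=
  fun j => h.repr_mem hγ j

theorem Bas.smul_mem (h : Bas Γ K b g) {k : ℂ} (hk : k ∈ K)
    {x : Matrix (Fin (m + 1)) (Fin (m + 1)) ℂ} (hx : x ∈ h.alg) : k • x ∈ h.alg := fun j => by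
  rw [map_smul, Finsupp.smul_apply, smul_eq_mul]
  exact K.mul_mem hk (hx j)

/-- Additive statements on the algebra. -/
theorem Bas.ind (h : Bas Γ K b g) {P : Matrix (Fin (m + 1)) (Fin (m + 1)) ℂ → Prop}
    (h0 : P 0) (hadd : ∀ x y, P x → P y → P (x + y))
    (hsm : ∀ k ∈ K, ∀ γ ∈ Γ, P (k • γ.toMatrix)) {x : Matrix (Fin (m + 1)) (Fin (m + 1)) ℂ}
    (hx : x ∈ h.alg) : P x := by
  classical
  rw [← b.sum_repr x]
  refine Finset.sum_induction (fun i => b.repr x i • b i) P hadd h0 fun i _ => ?_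
  rw [h.eq i]
  exact hsm _ (hx i) _ (h.mem i)

theorem Bas.finrank (h : Bas Γ K b g) : Module.finrank K h.alg = (m + 1) ^ 2 := by
  have h1 : Subalgebra.toSubmodule h.alg = Submodule.span K (Set.range b) := by
    ext x
    rw [Module.Basis.mem_span_iff_repr_mem, Subalgebra.mem_toSubmodule, h.mem_alg]
    refine forall_congr' fun j => ?_
    constructor
    · intro hj
      exact ⟨⟨_, hj⟩, rfl⟩
    · rintro ⟨k, hk⟩
      rw [← hk]
      exact k.2
  have h2 : LinearIndependent K b := by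
    refine LinearIndependent.restrict_scalars (K := ℂ) ?_ b.linearIndependent
    intro x y hxy
    have h3 : (x : ℂ) * 1 = (y : ℂ) * 1 := hxy
    rw [mul_one, mul_one] at h3
    exact Subtype.ext h3
  rw [← Subalgebra.finrank_toSubmodule, h1, finrank_span_eq_card h2,
    ← Module.finrank_eq_card_basis b, Module.finrank_matrix, Fintype.card_fin,
    Module.finrank_self, mul_one, sq]

theorem Bas.span (h : Bas Γ K b g) :
    Submodule.span ℂ (h.alg : Set (Matrix (Fin (m + 1)) (Fin (m + 1)) ℂ)) = ⊤ := by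
  rw [eq_top_iff, ← b.span_eq, Submodule.span_le]
  rintro _ ⟨i, rfl⟩
  refine Submodule.subset_span ?_
  show b i ∈ h.alg
  rw [h.eq i]
  exact h.coe_mem (h.mem i)

theorem adjoint_add (x y : Matrix (Fin (m + 1)) (Fin (m + 1)) ℂ) :
    adjoint m (x + y) = adjoint m x + adjoint m y := by
  rw [adjoint, adjoint, adjoint, conjTranspose_add, Matrix.mul_add, Matrix.add_mul]

theorem adjoint_smul (k : ℂ) (x : Matrix (Fin (m + 1)) (Fin (m + 1)) ℂ) :
    adjoint m (k • x) = (starRingEnd ℂ) k • adjoint m x := by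
  rw [adjoint, adjoint, conjTranspose_smul, Matrix.mul_smul, Matrix.smul_mul]
  rfl

theorem adjoint_zero : adjoint m 0 = 0 := by
  rw [adjoint, conjTranspose_zero, Matrix.mul_zero, Matrix.zero_mul]

theorem adjoint_coe (γ : SUGroup m) : adjoint m γ.toMatrix = (γ⁻¹).toMatrix := by
  have hJ : J m * J m = 1 := by
    rw [J, Matrix.diagonal_mul_diagonal, ← Matrix.diagonal_one]
    congr 1
    funext i
    split_ifs <;> norm_num
  have h1 := pres γ
  calc adjoint m γ.toMatrix = J m * γ.toMatrixᴴ * J m * (γ.toMatrix * (γ⁻¹).toMatrix) := by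
        rw [toMatrix_mul_inv, Matrix.mul_one]; rfl
    _ = J m * (γ.toMatrixᴴ * J m * γ.toMatrix) * (γ⁻¹).toMatrix := by
        simp only [Matrix.mul_assoc]
    _ = (γ⁻¹).toMatrix := by rw [h1, hJ, Matrix.one_mul]

theorem Bas.adj (h : Bas Γ K b g) {x : Matrix (Fin (m + 1)) (Fin (m + 1)) ℂ} (hx : x ∈ h.alg) :
    adjoint m x ∈ h.alg := by
  refine h.ind (P := fun x => adjoint m x ∈ h.alg) ?_ ?_ ?_ hx
  · show adjoint m 0 ∈ h.alg
    rw [adjoint_zero]
    exact h.alg.zero_mem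
  · intro x y h1 h2
    show adjoint m (x + y) ∈ h.alg
    rw [adjoint_add]
    exact h.alg.add_mem h1 h2
  · intro k hk γ hγ
    show adjoint m (k • γ.toMatrix) ∈ h.alg
    rw [adjoint_smul, adjoint_coe]
    exact h.smul_mem (h.cm.2.2.1 k hk) (h.coe_mem (Γ.inv_mem hγ))

/-- The adjoint at another place. -/
theorem Bas.map_adjoint (h : Bas Γ K b g) {t : ℂ ≃+* ℂ}
    {Z : Matrix (Fin (m + 1)) (Fin (m + 1)) ℂ} (hZ : Z.PosDef)
    (hZt : ∀ γ ∈ Γ, γ.toMatrix.map t * Z * (γ.toMatrix.map t)ᴴ = Z)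
    {x : Matrix (Fin (m + 1)) (Fin (m + 1)) ℂ} (hx : x ∈ h.alg) :
    (adjoint m x).map t = Z * (x.map t)ᴴ * Z⁻¹ := by
  have hZu : IsUnit Z.det := isUnit_iff_ne_zero.2 hZ.det_pos.ne'
  have hsm : ∀ (k : ℂ) (y : Matrix (Fin (m + 1)) (Fin (m + 1)) ℂ),
      (k • y).map t = t k • y.map t := by
    intro k y
    ext i j
    simp [Matrix.map_apply]
  refine h.ind (P := fun x => (adjoint m x).map t = Z * (x.map t)ᴴ * Z⁻¹) ?_ ?_ ?_ hx
  · show (adjoint m 0).map t = Z * ((0 : Matrix (Fin (m + 1)) (Fin (m + 1)) ℂ).map t)ᴴ * Z⁻¹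
    rw [adjoint_zero, Matrix.map_zero t (map_zero t), conjTranspose_zero, Matrix.mul_zero,
      Matrix.zero_mul]
  · intro x y h1 h2
    show (adjoint m (x + y)).map t = Z * ((x + y).map t)ᴴ * Z⁻¹
    rw [adjoint_add, Matrix.map_add t (map_add t), Matrix.map_add t (map_add t), h1, h2,
      conjTranspose_add, Matrix.mul_add, Matrix.add_mul]
  · intro k hk γ hγ
    show (adjoint m (k • γ.toMatrix)).map t = Z * ((k • γ.toMatrix).map t)ᴴ * Z⁻¹
    obtain ⟨τ, hτ⟩ : ∃ τ : K →+* ℂ, τ = (t : ℂ →+* ℂ).comp K.subtype := ⟨_, rfl⟩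
    have h1 : t ((starRingEnd ℂ) k) = (starRingEnd ℂ) (t k) := by
      have h2 := h.cm.2.2.2 τ ⟨k, hk⟩ ⟨(starRingEnd ℂ) k, h.cm.2.2.1 k hk⟩ rfl
      rw [hτ] at h2
      exact h2
    have h2 : ((γ⁻¹).toMatrix.map t) * (γ.toMatrix.map t) = 1 := by
      rw [← Matrix.map_mul, toMatrix_inv_mul]
      exact Matrix.map_one t (map_zero t) (map_one t)
    have h3 : (γ⁻¹).toMatrix.map t = Z * (γ.toMatrix.map t)ᴴ * Z⁻¹ := by
      calc (γ⁻¹).toMatrix.map t = (γ⁻¹).toMatrix.map t * (Z * Z⁻¹) := by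
            rw [Matrix.mul_nonsing_inv Z hZu, Matrix.mul_one]
        _ = (γ⁻¹).toMatrix.map t * ((γ.toMatrix.map t * Z * (γ.toMatrix.map t)ᴴ) * Z⁻¹) := by
            rw [hZt γ hγ]
        _ = ((γ⁻¹).toMatrix.map t * (γ.toMatrix.map t)) * Z * (γ.toMatrix.map t)ᴴ * Z⁻¹ := by
            simp only [Matrix.mul_assoc]
        _ = _ := by rw [h2, Matrix.one_mul]
    rw [adjoint_smul, adjoint_coe, hsm, hsm, h1, h3, conjTranspose_smul, Matrix.mul_smul,
      Matrix.smul_mul]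
    rfl

open scoped MatrixOrder Matrix.Norms.L2Operator in
theorem trace_nonneg' {n : ℕ} {Z : Matrix (Fin n) (Fin n) ℂ} (hZ : Z.PosDef)
    (x : Matrix (Fin n) (Fin n) ℂ) : 0 ≤ ((Z * xᴴ * Z⁻¹ * x).trace).re := by
  obtain ⟨c, hc⟩ : ∃ c : Matrix (Fin n) (Fin n) ℂ, Z = cᴴ * c :=
    CStarAlgebra.nonneg_iff_eq_star_mul_self.mp hZ.posSemidef.nonneg
  have h1 : (c * (xᴴ * Z⁻¹ * x) * cᴴ).PosSemidef :=
    (hZ.inv.posSemidef.conjTranspose_mul_mul_same x).mul_mul_conjTranspose_same c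
  have h2 : (Z * xᴴ * Z⁻¹ * x).trace = (c * (xᴴ * Z⁻¹ * x) * cᴴ).trace := by
    have e : Z * (xᴴ * Z⁻¹ * x) = cᴴ * (c * (xᴴ * Z⁻¹ * x)) := by
      rw [← Matrix.mul_assoc cᴴ, ← hc]
    rw [Matrix.trace_mul_comm (c * (xᴴ * Z⁻¹ * x)) cᴴ, ← e]
    simp only [Matrix.mul_assoc]
  rw [h2]
  exact (Complex.nonneg_iff.1 h1.trace_nonneg).1

/-- The condition at the other places. -/
def Oth (Γ : Subgroup (SUGroup m)) (K : Subfield ℂ) : Prop :=
  ∀ t : ℂ ≃+* ℂ, (∀ x ∈ K, t x = x) ∨ (∀ x ∈ K, t x = (starRingEnd ℂ) x) ∨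
    ∃ Z : Matrix (Fin (m + 1)) (Fin (m + 1)) ℂ, Z.PosDef ∧
      ∀ γ ∈ Γ, γ.toMatrix.map t * Z * (γ.toMatrix.map t)ᴴ = Z

theorem Bas.pos (h : Bas Γ K b g) (ho : Oth Γ K) (τ : K →+* ℂ) :
    (∀ x : K, τ x = x) ∨ (∀ x : K, τ x = (starRingEnd ℂ) (x : ℂ)) ∨
    ∀ a ∈ h.alg, ∀ x : K, (x : ℂ) = (adjoint m a * a).trace → 0 ≤ (τ x).re := by
  have := h.cm.1
  obtain ⟨t, ht⟩ := exists_aut K τ
  rcases ho t with h1 | h1 | ⟨Z, hZ, hZt⟩
  · exact Or.inl fun x => by rw [← ht, h1 _ x.2]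
  · exact Or.inr (Or.inl fun x => by rw [← ht, h1 _ x.2])
  · refine Or.inr (Or.inr fun a ha x hx => ?_)
    rw [← ht, hx]
    have h2 : t ((adjoint m a * a).trace) = (Z * (a.map t)ᴴ * Z⁻¹ * a.map t).trace := by
      rw [← h.map_adjoint hZ hZt ha, ← Matrix.map_mul, Matrix.trace, Matrix.trace, map_sum]
      rfl
    rw [h2]
    exact trace_nonneg' hZ _

theorem Bas.unitary (h : Bas Γ K b g) (ho : Oth Γ K) : IsUnitaryForm m K h.alg where
  cm := h.cm
  rank := h.finrank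
  span := h.span
  adj _ ha := h.adj ha
  pos τ := h.pos ho τ

/-- The multiples of the elements of `Γ` by algebraic integers of `K`. -/
def mult (Γ : Subgroup (SUGroup m)) (K : Subfield ℂ) :
    Submonoid (Matrix (Fin (m + 1)) (Fin (m + 1)) ℂ) where
  carrier := {x | ∃ k ∈ integers K, ∃ γ ∈ Γ, x = k • γ.toMatrix}
  mul_mem' := by
    rintro _ _ ⟨k, hk, γ, hγ, rfl⟩ ⟨k', hk', γ', hγ', rfl⟩
    refine ⟨k * k', (integers K).mul_mem hk hk', γ * γ', Γ.mul_mem hγ hγ', ?_⟩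
    rw [toMatrix_mul, Matrix.smul_mul, Matrix.mul_smul, smul_smul]
  one_mem' := ⟨1, (integers K).one_mem, 1, Γ.one_mem, by rw [toMatrix_one, one_smul]⟩

/-- The order generated by `Γ`. -/
def ordr (Γ : Subgroup (SUGroup m)) (K : Subfield ℂ) :
    Subring (Matrix (Fin (m + 1)) (Fin (m + 1)) ℂ) :=
  Subring.closure (mult Γ K : Set (Matrix (Fin (m + 1)) (Fin (m + 1)) ℂ))

theorem ordr_ind {P : Matrix (Fin (m + 1)) (Fin (m + 1)) ℂ → Prop}
    (h0 : P 0) (hadd : ∀ x y, P x → P y → P (x + y)) (hneg : ∀ x, P x → P (-x))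
    (hsm : ∀ k ∈ integers K, ∀ γ ∈ Γ, P (k • γ.toMatrix))
    {x : Matrix (Fin (m + 1)) (Fin (m + 1)) ℂ} (hx : x ∈ ordr Γ K) : P x := by
  rw [ordr, Subring.mem_closure_iff, Submonoid.closure_eq] at hx
  refine AddSubgroup.closure_induction (p := fun x _ => P x) ?_ h0 (fun x y _ _ => hadd x y)
    (fun x _ => hneg x) hx
  rintro _ ⟨k, hk, γ, hγ, rfl⟩
  exact hsm k hk γ hγ

theorem smul_mem_ordr {k : ℂ} (hk : k ∈ integers K) {γ : SUGroup m} (hγ : γ ∈ Γ) :
    k • γ.toMatrix ∈ ordr Γ K := Subring.subset_closure ⟨k, hk, γ, hγ, rfl⟩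

theorem mem_ordr {γ : SUGroup m} (hγ : γ ∈ Γ) : γ.toMatrix ∈ ordr Γ K := by
  have := smul_mem_ordr (K := K) (integers K).one_mem hγ
  rwa [one_smul] at this

theorem Bas.sub (h : Bas Γ K b g) {x : Matrix (Fin (m + 1)) (Fin (m + 1)) ℂ}
    (hx : x ∈ ordr Γ K) : x ∈ h.alg := by
  refine ordr_ind (P := fun x => x ∈ h.alg) h.alg.zero_mem (fun x y => h.alg.add_mem)
    (fun x => h.alg.neg_mem) (fun k hk γ hγ => ?_) hx
  exact h.smul_mem hk.1 (h.coe_mem hγ)

theorem Bas.tro (h : Bas Γ K b g) {x : Matrix (Fin (m + 1)) (Fin (m + 1)) ℂ}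
    (hx : x ∈ ordr Γ K) (i : ι) : (b i * x).trace ∈ integers K := by
  refine ordr_ind (P := fun x => (b i * x).trace ∈ integers K) ?_ ?_ ?_ ?_ hx
  · show (b i * 0).trace ∈ integers K
    rw [Matrix.mul_zero, Matrix.trace_zero]
    exact (integers K).zero_mem
  · intro x y h1 h2
    show (b i * (x + y)).trace ∈ integers K
    rw [Matrix.mul_add, Matrix.trace_add]
    exact (integers K).add_mem h1 h2
  · intro x h1
    show (b i * (-x)).trace ∈ integers K
    rw [Matrix.mul_neg, Matrix.trace_neg]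
    exact (integers K).neg_mem h1
  · intro k hk γ hγ
    show (b i * (k • γ.toMatrix)).trace ∈ integers K
    rw [Matrix.mul_smul, Matrix.trace_smul, smul_eq_mul]
    exact (integers K).mul_mem hk (h.trg hγ i)

private theorem lift_int {x : ℂ} (hx : x ∈ integers K) : ∃ y : 𝓞 K, ((y : K) : ℂ) = x := by
  obtain ⟨h1, h2⟩ := hx
  have h2' : IsIntegral ℤ x := h2
  have h1' : x ∈ K := h1
  have h3 : IsIntegral ℤ (⟨x, h1'⟩ : K) :=
    (isIntegral_algHom_iff (K.subtype.toIntAlgHom) Subtype.val_injective).1 h2'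
  exact ⟨⟨⟨x, h1'⟩, h3⟩, rfl⟩

theorem Bas.fg (h : Bas Γ K b g) : (ordr Γ K).toAddSubgroup.FG := by
  have := h.cm.1
  obtain ⟨S, hS⟩ := exists_coord (K := K) h.tb
  let Φ : (ι → 𝓞 K) →ₗ[ℤ] Matrix (Fin (m + 1)) (Fin (m + 1)) ℂ :=
    AddMonoidHom.toIntLinearMap
      { toFun := fun y => ∑ j, (∑ i, (S j i : ℂ) * ((y i : K) : ℂ)) • b j
        map_zero' := by simp
        map_add' := fun y z => by
          rw [← Finset.sum_add_distrib]
          refine Finset.sum_congr rfl fun j _ => ?_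
          rw [← add_smul, ← Finset.sum_add_distrib]
          congr 1
          refine Finset.sum_congr rfl fun i _ => ?_
          rw [← mul_add]
          congr 1 }
  have h1 : (LinearMap.range Φ).FG := by
    have : Module.Finite ℤ (ι → 𝓞 K) := inferInstance
    exact Module.Finite.iff_fg.1 (Module.Finite.range Φ)
  have h2 : AddSubgroup.toIntSubmodule (ordr Γ K).toAddSubgroup ≤ LinearMap.range Φ := by
    intro x hx
    have hx' : x ∈ ordr Γ K := hx
    choose y hy using fun i => lift_int (h.tro hx' i)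
    refine ⟨y, ?_⟩
    show (∑ j, (∑ i, (S j i : ℂ) * ((y i : K) : ℂ)) • b j) = x
    conv_rhs => rw [← b.sum_repr x]
    refine Finset.sum_congr rfl fun j _ => ?_
    rw [hS]
    congr 1
    refine Finset.sum_congr rfl fun i _ => ?_
    rw [hy]
  have h3 := Submodule.FG.of_le h1 h2
  rw [Submodule.fg_iff_addSubgroup_fg] at h3
  exact h3

theorem Bas.full (h : Bas Γ K b g) {a : Matrix (Fin (m + 1)) (Fin (m + 1)) ℂ} (ha : a ∈ h.alg) :
    ∃ N : ℕ, 0 < N ∧ (N : ℂ) • a ∈ ordr Γ K := by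
  obtain ⟨N, hN, hi⟩ := exists_denom h.cm.1 fun j : ι => (⟨b.repr a j, ha j⟩ : K)
  refine ⟨N, hN, ?_⟩
  rw [← b.sum_repr a, Finset.smul_sum]
  refine Subring.sum_mem _ fun j _ => ?_
  rw [smul_smul, h.eq j]
  exact smul_mem_ordr (hi j) (h.mem j)

theorem Bas.order (h : Bas Γ K b g) : IsOrder h.alg (ordr Γ K) where
  sub _ ha := h.sub ha
  fg := h.fg
  full _ ha := h.full ha

private theorem trace_bound {n : ℕ} (A : Matrix (Fin n) (Fin n) ℂ) (C : ℝ) :
    ∃ D : ℝ, ∀ G : Matrix (Fin n) (Fin n) ℂ, (∀ i j, ‖G i j‖ ≤ C) → ‖(A * G).trace‖ ≤ D := by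
  refine ⟨∑ i, ∑ j, ‖A i j‖ * C, fun G hG => ?_⟩
  rw [Matrix.trace]
  refine (norm_sum_le _ _).trans (Finset.sum_le_sum fun i _ => ?_)
  rw [Matrix.diag_apply, Matrix.mul_apply]
  refine (norm_sum_le _ _).trans (Finset.sum_le_sum fun j _ => ?_)
  rw [norm_mul]
  exact mul_le_mul_of_nonneg_left (hG _ _) (norm_nonneg _)

/-- Bounded parts of the unit group of the order are finite. -/
theorem Bas.finite_bounded (h : Bas Γ K b g) (ho : Oth Γ K) (C : ℝ) :
    {γ : SUGroup m | γ ∈ unitPoints m (ordr Γ K) ∧ ∀ i j, ‖γ.toMatrix i j‖ ≤ C}.Finite := by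
  have := h.cm.1
  -- bounds for all embeddings
  have hτ : ∀ τ : K →+* ℂ, ∀ i : ι, ∃ E : ℝ, ∀ γ : SUGroup m, γ ∈ unitPoints m (ordr Γ K) →
      (∀ i j, ‖γ.toMatrix i j‖ ≤ C) → ∀ x : K, (x : ℂ) = (b i * γ.toMatrix).trace →
      ‖τ x‖ ≤ E := by
    intro τ i
    obtain ⟨D, hD⟩ := trace_bound (b i) C
    obtain ⟨t, ht⟩ := exists_aut K τ
    rcases ho t with h1 | h1 | ⟨Z, hZ, hZt⟩
    · refine ⟨D, fun γ _ hC x hx => ?_⟩
      rw [← ht, h1 _ x.2, hx]
      exact hD _ hC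
    · refine ⟨D, fun γ _ hC x hx => ?_⟩
      rw [← ht, h1 _ x.2, RCLike.norm_conj, hx]
      exact hD _ hC
    · obtain ⟨E, hE⟩ := entries_bound' Z⁻¹ (Or.inl hZ.inv)
      obtain ⟨D', hD'⟩ := trace_bound ((b i).map t) E
      have hZu : IsUnit Z.det := isUnit_iff_ne_zero.2 hZ.det_pos.ne'
      refine ⟨D', fun γ hγ _ x hx => ?_⟩
      have h2 : t ((b i * γ.toMatrix).trace) = ((b i).map t * γ.toMatrix.map t).trace := by
        rw [← Matrix.map_mul, Matrix.trace, Matrix.trace, map_sum]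
        rfl
      rw [← ht, hx, h2]
      refine hD' _ (hE _ ?_)
      have h3 := h.map_adjoint hZ hZt (h.sub hγ.1)
      rw [adjoint_coe] at h3
      have h4 : ((γ⁻¹).toMatrix.map t) * (γ.toMatrix.map t) = 1 := by
        rw [← Matrix.map_mul, toMatrix_inv_mul]
        exact Matrix.map_one t (map_zero t) (map_one t)
      rw [h3] at h4
      calc (γ.toMatrix.map t)ᴴ * Z⁻¹ * γ.toMatrix.map t
          = Z⁻¹ * Z * ((γ.toMatrix.map t)ᴴ * Z⁻¹ * γ.toMatrix.map t) := by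
            rw [Matrix.nonsing_inv_mul Z hZu, Matrix.one_mul]
        _ = Z⁻¹ * (Z * (γ.toMatrix.map t)ᴴ * Z⁻¹ * γ.toMatrix.map t) := by
            simp only [Matrix.mul_assoc]
        _ = Z⁻¹ := by rw [h4, Matrix.mul_one]
  choose E hE using hτ
  have hfin : ({x : K | IsIntegral ℤ x ∧ ∀ φ : K →+* ℂ, ‖φ x‖ ≤ ∑ τ, ∑ i, |E τ i|}).Finite :=
    NumberField.Embeddings.finite_of_norm_le K ℂ _
  let F : Set ℂ := (fun x : K => (x : ℂ)) '' {x : K | IsIntegral ℤ x ∧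
    ∀ φ : K →+* ℂ, ‖φ x‖ ≤ ∑ τ, ∑ i, |E τ i|}
  have hF : F.Finite := hfin.image _
  have hpi : (Set.univ.pi fun _ : ι => F).Finite := Set.Finite.pi fun _ => hF
  refine Set.Finite.of_finite_image (f := fun γ : SUGroup m => fun i : ι =>
    (b i * γ.toMatrix).trace) (hpi.subset ?_) ?_
  · rintro _ ⟨γ, ⟨hγ, hC⟩, rfl⟩
    rw [Set.mem_univ_pi]
    intro i
    obtain ⟨y, hy⟩ := lift_int (h.tro hγ.1 i)
    refine ⟨(y : K), ⟨y.2, fun φ => ?_⟩, hy⟩
    refine (hE φ i γ hγ hC _ hy).trans ((le_abs_self _).trans ?_)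
    refine (Finset.single_le_sum (f := fun i => |E φ i|) (fun _ _ => abs_nonneg _)
      (Finset.mem_univ i)).trans ?_
    exact Finset.single_le_sum (f := fun τ => ∑ i, |E τ i|)
      (fun τ _ => Finset.sum_nonneg fun _ _ => abs_nonneg _) (Finset.mem_univ φ)
  · intro γ _ γ' _ hgg
    apply toMatrix_injective
    obtain ⟨S, hS⟩ := exists_coord (K := K) h.tb
    apply b.ext_elem
    intro j
    rw [hS, hS]
    refine Finset.sum_congr rfl fun i _ => ?_
    rw [show (b i * γ.toMatrix).trace = (b i * γ'.toMatrix).trace from congrFun hgg i]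

theorem Bas.exists_nhd (h : Bas Γ K b g) (ho : Oth Γ K) :
    ∃ U : Set (SUGroup m), IsOpen U ∧ 1 ∈ U ∧
      ∀ γ ∈ U, γ ∈ unitPoints m (ordr Γ K) → γ = 1 := by
  have hfin := h.finite_bounded ho 2
  have hent : ∀ i j : Fin (m + 1), Continuous fun g : SUGroup m => ‖g.toMatrix i j‖ :=
    fun i j => ((continuous_toMatrix m).matrix_elem i j).norm
  refine ⟨(⋂ i, ⋂ j, {g : SUGroup m | ‖g.toMatrix i j‖ < 2}) ∩
    ({γ : SUGroup m | γ ∈ unitPoints m (ordr Γ K) ∧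
      ∀ i j, ‖γ.toMatrix i j‖ ≤ 2} \ {1})ᶜ, ?_, ?_, ?_⟩
  · refine IsOpen.inter ?_ (hfin.subset Set.sdiff_subset).isClosed.isOpen_compl
    exact isOpen_iInter_of_finite fun i => isOpen_iInter_of_finite fun j =>
      isOpen_lt (hent i j) continuous_const
  · refine ⟨?_, fun h => h.2 rfl⟩
    simp only [Set.mem_iInter, Set.mem_ofPred_eq]
    intro i j
    rw [toMatrix_one, Matrix.one_apply]
    split_ifs <;> norm_num
  · rintro γ ⟨hg1, hg2⟩ hγ
    by_contra hne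
    simp only [Set.mem_iInter, Set.mem_ofPred_eq] at hg1
    exact hg2 ⟨⟨hγ, fun i j => (hg1 i j).le⟩, hne⟩

end data

/-- **The criterion.** A lattice with traces in the ring of integers of a CM field `K`, such that
its conjugates at the places of `K` other than the identity and complex conjugation preserve
positive Hermitian forms, is arithmetic. -/
theorem isArith_of_traces {n : ℕ} (hn : 1 ≤ n) {Γ : Subgroup (SUGroup n)} (hΓ : IsLattice Γ)
    {K : Subfield ℂ} (hK : IsCM K) (htr : ∀ x ∈ Γ, x.toMatrix.trace ∈ K)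
    (hint : ∀ x ∈ Γ, IsIntegral ℤ x.toMatrix.trace)
    (hpos : ∀ t : ℂ ≃+* ℂ, (¬ ∀ x : K, t (x : ℂ) = x) → (¬ ∀ x : K, t (x : ℂ) = cj (x : ℂ)) →
      ∃ Z : Mat (n + 1), Z.PosDef ∧
        ∀ x ∈ Γ, x.toMatrix.map t * Z * (x.toMatrix.map t)ᴴ = Z) : IsArith n Γ := by
  have ho : Oth Γ K := by
    intro t
    by_cases h1 : ∀ x : K, t (x : ℂ) = x
    · exact Or.inl fun x hx => h1 ⟨x, hx⟩
    by_cases h2 : ∀ x : K, t (x : ℂ) = cj (x : ℂ)
    · exact Or.inr (Or.inl fun x hx => h2 ⟨x, hx⟩)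
    exact Or.inr (Or.inr (hpos t h1 h2))
  obtain ⟨ι, _, b, g, hg, hb⟩ := exists_basis (span_top hn Γ hΓ)
  have h : Bas Γ K b g := ⟨hK, hg, hb, htr, hint⟩
  refine ⟨K, h.alg, ordr Γ K, h.unitary ho, h.order, ?_, ?_⟩
  · obtain ⟨U, hU, h1U, hsep⟩ := h.exists_nhd ho
    refine relIndex_ne_zero_of_isLattice Γ _ hΓ U hU h1U ?_
    intro a ha c hc b' hb' hmem
    have hc' : c ∈ unitPoints n (ordr Γ K) := ⟨mem_ordr hc, mem_ordr (Γ.inv_mem hc)⟩
    exact hsep _ hmem (mul_mem (mul_mem ha hc') hb')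
  · have hle : Γ ≤ unitPoints n (ordr Γ K) :=
      fun γ hγ => ⟨mem_ordr hγ, mem_ordr (Γ.inv_mem hγ)⟩
    rw [Subgroup.relIndex_eq_one.2 hle]
    exact one_ne_zero

end Pool.Agent.Lib.MP_5d4057_al.CF
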