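import Pool.Agent.Lib.MP_5d4057_al.RC.Orth
import Pool.Agent.Lib.MP_5d4057_al.RC.WideD
import Pool.Agent.Lib.MP_5d4057_al.RC.Lat
import Pool.Agent.Lib.MP_5d4057_al.RC.Fgg
import Pool.Agent.Lib.MP_5d4057_al.HM.CocSub
import Pool.Agent.Lib.MP_5d4057_al.Hyb.ArithG

/-!
# CF: lattices generated by arithmetic pieces whose hyperplanes form a connected configuration

`S` is a subgroup of `SU(j+1,1)` which contains, with finite index, the copy `g (1 + Λ) g⁻¹` of an
arithmetic lattice `Λ` of `SU(j,1)`; the hyperplane of the piece is the one orthogonal to `g e_0`.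
-/

set_option autoImplicit false

namespace Pool.Agent.Lib.MP_5d4057_al.CF

open Matrix Filter Topology Pool.Agent.Lib.MP_5d4057_al Pool.Agent.Lib.MP_5d4057_al.Hyb
  Pool.Agent.Lib.MP_5d4057_al.HM Pool.Agent.Lib.MP_5d4057_al.RC Pool.Agent.Lib.MP_5d4057_al.NU

open scoped ComplexOrder MatrixOrder Matrix.Norms.L2Operator

variable {j m k : ℕ}

/-- A piece: `S` is commensurable with (contains with finite index) the arithmetic lattice
`g (1 + Λ) g⁻¹` of the hyperplane orthogonal to `g e_0`. -/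
structure Piece (Λ : Subgroup (SUGroup j)) (g : SUGroup (j + 1))
    (S : Subgroup (SUGroup (j + 1))) : Prop where
  lat : IsLattice Λ
  ar : IsArith j Λ
  le : Λ.map (emb g) ≤ S
  fin : (Λ.map (emb g)).relIndex S ≠ 0

/-- The hyperplanes of `g` and `g'` have a common point in the ball. -/
def Meet (g g' : SUGroup (j + 1)) : Prop :=
  ∃ v ∈ Cone (j + 1), herm (act g (nrm j)) v = 0 ∧ herm (act g' (nrm j)) v = 0

/-- The configuration of the hyperplanes of the `g i` is connected. -/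
def Conn {ι : Type} (g : ι → SUGroup (j + 1)) : Prop :=
  ∀ i i', Relation.ReflTransGen (fun a b => Meet (g a) (g b)) i i'

/-- Type S: on the hyperplane of `g` the metric is the standard one. -/
structure TyS (F : Vec (j + 1) → Mat (j + 2)) (g : SUGroup (j + 1)) (Q : Mat (j + 2))
    (l a : ℂ) : Prop where
  unit : IsUnit Q
  hl : 0 < l
  ha : 0 < a
  slice : ∀ w ∈ Cone j, F (HM.hyp g w) = Q * dsum l (a • std w) * Qᴴ

/-- Type C: on the hyperplane of `g` the metric is the conjugate of the standard one. -/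
structure TyC (F : Vec (j + 1) → Mat (j + 2)) (g : SUGroup (j + 1)) (Q : Mat (j + 2))
    (l a : ℂ) : Prop where
  unit : IsUnit Q
  hl : 0 < l
  ha : 0 < a
  slice : ∀ w ∈ Cone j, F (HM.hyp g w) = Q * dsum l (a • (std w).map cj) * Qᴴ

/-- Type B: the metric is constant on the hyperplane of `g`. -/
def TyB (F : Vec (j + 1) → Mat (j + 2)) (g : SUGroup (j + 1)) : Prop :=
  ∀ w ∈ Cone j, F (HM.hyp g w) = F (HM.hyp g (base j))

/-- The indefinite form of a piece of type S. -/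
noncomputable def nf (Q : Mat (j + 2)) (l a : ℂ) : Mat (j + 2) := Q * dsum l (a • J j) * Qᴴ

/-- The data of a configuration inside a group `G`: a family of hyperplanes, stable under `G` and
connected, subgroups `Λ' i` with `g i (1 + Λ' i) (g i)⁻¹ ≤ G`, their fields `K i`, and the types of
the hyperplanes (from `piece_slices`). The index set is arbitrary. -/
structure Cfg {ι : Type} (G : Subgroup (SUGroup (j + 1))) (g : ι → SUGroup (j + 1))
    (Λ' : ι → Subgroup (SUGroup j)) (K : ι → Subfield ℂ) : Prop where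
  stab : ∀ i, ∀ x ∈ G, ∃ i', g i' = x * g i
  conn : Conn g
  recG : Rec G
  hlat : HLat G
  spanG : Submodule.span ℂ (SUGroup.toMatrix '' (G : Set (SUGroup (j + 1)))) = ⊤
  cm : ∀ i, IsCM (K i)
  mem : ∀ i, ∀ y ∈ Λ' i, emb (g i) y ∈ G
  recP : ∀ i, Rec (Λ' i)
  van : ∀ i, Van (Λ' i)
  span : ∀ i, Submodule.span ℂ (SUGroup.toMatrix '' (Λ' i : Set (SUGroup j))) = ⊤
  tyS : ∀ i, ∀ (t : ℂ ≃+* ℂ) (F : Vec (j + 1) → Mat (j + 2)), HarmG F → Equi (rhoT t G) F →
    (∀ x : K i, t (x : ℂ) = x) → ∃ (Q : Mat (j + 2)) (l a : ℂ), TyS F (g i) Q l a ∧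
      ∀ y ∈ Λ' i, (emb (g i) y).toMatrix.map t = Q * dsum 1 y.toMatrix * Q⁻¹
  tyC : ∀ i, ∀ (t : ℂ ≃+* ℂ) (F : Vec (j + 1) → Mat (j + 2)), HarmG F → Equi (rhoT t G) F →
    (∀ x : K i, t (x : ℂ) = cj (x : ℂ)) → ∃ (Q : Mat (j + 2)) (l a : ℂ), TyC F (g i) Q l a
  tyB : ∀ i, ∀ (t : ℂ ≃+* ℂ) (F : Vec (j + 1) → Mat (j + 2)), HarmG F → Equi (rhoT t G) F →
    (¬ ∀ x : K i, t (x : ℂ) = x) → (¬ ∀ x : K i, t (x : ℂ) = cj (x : ℂ)) → TyB F (g i)

/-- The family of all `G`-translates of the hyperplanes of the `g i`. -/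
def trl {I : Type} (G : Subgroup (SUGroup (j + 1))) (g : I → SUGroup (j + 1)) :
    G × I → SUGroup (j + 1) := fun p => (p.1 : SUGroup (j + 1)) * g p.2

end Pool.Agent.Lib.MP_5d4057_al.CF
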