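import Pool.Agent.Lib.MP_5d4057_al.HM.Basic

/-! The linear algebra of the mixed case. -/

set_option autoImplicit false

namespace Pool.Agent.Lib.MP_5d4057_al.CF

open Matrix Pool.Agent.Lib.MP_5d4057_al Pool.Agent.Lib.MP_5d4057_al.Hyb
  Pool.Agent.Lib.MP_5d4057_al.HM

open scoped ComplexOrder

variable {N : ℕ}

/-- The form as a linear functional of the second variable. -/
noncomputable def hermR (v : Vec N) : Vec N →ₗ[ℂ] ℂ where
  toFun x := herm v x
  map_add' x y := herm_add_right v x y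
  map_smul' c x := herm_smul_right v x c

theorem hermR_apply (v x : Vec N) : hermR v x = herm v x := rfl

/-- Three linear conditions have a nonzero solution. -/
theorem exists_ker3 (hN : 3 ≤ N) (f g h : Vec N →ₗ[ℂ] ℂ) :
    ∃ x : Vec N, x ≠ 0 ∧ f x = 0 ∧ g x = 0 ∧ h x = 0 := by
  let L : Vec N →ₗ[ℂ] (Fin 3 → ℂ) := LinearMap.pi ![f, g, h]
  have h1 : LinearMap.ker L ≠ ⊥ := by
    apply LinearMap.ker_ne_bot_of_finrank_lt
    have e1 : Module.finrank ℂ (Fin 3 → ℂ) = 3 := by simp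
    have e2 : Module.finrank ℂ (Vec N) = N + 1 := by simp [Vec]
    rw [e1, e2]
    omega
  obtain ⟨x, hx, hx0⟩ := (Submodule.ne_bot_iff _).1 h1
  have h2 : L x = 0 := hx
  exact ⟨x, hx0, congrFun h2 0, congrFun h2 1, congrFun h2 2⟩

theorem herm_sub_right' (v w u : Vec N) : herm v (w - u) = herm v w - herm v u :=
  (hermR v).map_sub w u

/-- **The linear algebra of the mixed case.** -/
theorem mix_lin (hN : 3 ≤ N) {v n₁ n₂ W : Vec N} (hv : v ∈ Cone N) (h1 : herm v n₁ = 0)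
    (h2 : herm v n₂ = 0) (hn₁ : n₁ ≠ 0) (hn₂ : n₂ ≠ 0) (hnp : ∀ c : ℂ, n₁ ≠ c • n₂)
    {A : Vec N → Mat (N + 1)} (hadd : ∀ x y, A (x + y) = A x + A y)
    (hsm : ∀ (s : ℂ) (x : Vec N), A (s • x) = s • A x)
    (hcomm : ∀ x y, A x * A y = A y * A x) {c ν : ℂ} (hc : c ≠ 0)
    (hS : ∀ x, herm v x = 0 → herm n₁ x = 0 → ∀ y, A x *ᵥ y = (c * herm v y) • x)
    (hν : A n₁ *ᵥ n₁ = ν • n₁)
    (hC : ∀ x, herm v x = 0 → herm n₂ x = 0 → ∃ φ : Vec N, ∀ y, A x *ᵥ y = (φ ⬝ᵥ y) • W)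
    (hinj : ∀ x, herm v x = 0 → herm n₂ x = 0 → A x = 0 → x = 0) : False := by
  have hq : (q v : ℂ) ≠ 0 := by
    have : q v < 0 := hv
    exact_mod_cast this.ne
  have hq1 : (q n₁ : ℂ) ≠ 0 := by
    exact_mod_cast (q_pos_of_orth hv h1 hn₁).ne'
  have hq2 : (q n₂ : ℂ) ≠ 0 := by
    exact_mod_cast (q_pos_of_orth hv h2 hn₂).ne'
  -- a common tangent vector
  obtain ⟨x0, hx0, e1, e2, e3⟩ := exists_ker3 hN (hermR v) (hermR n₁) (hermR n₂)
  rw [hermR_apply] at e1 e2 e3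
  -- `W` is proportional to it
  obtain ⟨s0, hW⟩ : ∃ s0 : ℂ, W = s0 • x0 := by
    obtain ⟨φ, hφ⟩ := hC x0 e1 e3
    have h3 := hφ v
    rw [hS x0 e1 e2 v, herm_self] at h3
    have h4 : φ ⬝ᵥ v ≠ 0 := by
      intro h
      rw [h, zero_smul] at h3
      rcases smul_eq_zero.1 h3 with h5 | h5
      · exact mul_ne_zero hc hq h5
      · exact hx0 h5
    refine ⟨(φ ⬝ᵥ v)⁻¹ * (c * (q v : ℂ)), ?_⟩
    rw [← smul_smul, h3, smul_smul, inv_mul_cancel₀ h4, one_smul]
  have hC' : ∀ x, herm v x = 0 → herm n₂ x = 0 →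
      ∃ φ : Vec N, ∀ y, A x *ᵥ y = (φ ⬝ᵥ y) • x0 := by
    intro x hx hx'
    obtain ⟨φ, hφ⟩ := hC x hx hx'
    refine ⟨s0 • φ, fun y => ?_⟩
    rw [hφ y, hW, smul_smul, smul_dotProduct, smul_eq_mul, mul_comm]
  -- the component of the first normal
  set r : ℂ := herm n₂ n₁ * (q n₂ : ℂ)⁻¹ with hr
  set τ : Vec N := n₁ - r • n₂ with hτ
  have t1 : herm v τ = 0 := by
    rw [hτ, herm_sub_right', herm_smul_right, h1, h2, mul_zero, sub_zero]
  have t2 : herm n₂ τ = 0 := by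
    rw [hτ, herm_sub_right', herm_smul_right, herm_self, hr, mul_assoc, inv_mul_cancel₀ hq2,
      mul_one, sub_self]
  have hτ0 : τ ≠ 0 := by
    intro h
    exact hnp r (sub_eq_zero.1 h)
  have hp : herm n₁ τ ≠ 0 := by
    have h3 : herm τ τ = herm n₁ τ := by
      have h4 : herm τ n₂ = 0 := by rw [herm_comm, t2, star_zero]
      have h5 : herm τ τ = herm τ n₁ := by
        conv_lhs => rw [hτ]
        rw [herm_sub_right', herm_smul_right, ← hτ, h4, mul_zero, sub_zero]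
      have h6 : herm n₁ τ = star (herm τ n₁) := herm_comm τ n₁
      rw [h6, ← h5, ← herm_comm]
    rw [← h3, herm_self]
    exact_mod_cast (q_pos_of_orth hv t1 hτ0).ne'
  set e : ℂ := herm n₁ τ * (q n₁ : ℂ)⁻¹ with he
  have he0 : e ≠ 0 := mul_ne_zero hp (inv_ne_zero hq1)
  set τ' : Vec N := τ - e • n₁ with hτ'
  have t3 : herm v τ' = 0 := by
    rw [hτ', herm_sub_right', herm_smul_right, h1, t1, mul_zero, sub_zero]
  have t4 : herm n₁ τ' = 0 := by
    rw [hτ', herm_sub_right', herm_smul_right, herm_self, he, mul_assoc, inv_mul_cancel₀ hq1,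
      mul_one, sub_self]
  have hτe : τ = e • n₁ + τ' := by rw [hτ']; abel
  -- the derivative in the direction `τ`
  have hAτ : ∀ y, A τ *ᵥ y = e • (A n₁ *ᵥ y) + (c * herm v y) • τ' := by
    intro y
    rw [hτe, hadd, hsm, add_mulVec, smul_mulVec, hS τ' t3 t4]
  obtain ⟨φ, hφ⟩ := hC' τ t1 t2
  -- the derivative in the normal direction on tangent vectors
  have hNu : ∀ u, herm v u = 0 → herm n₁ u = 0 → ∀ y,
      (c * herm v (A n₁ *ᵥ y)) • u = (c * herm v y) • (A n₁ *ᵥ u) := by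
    intro u hu hu' y
    have h3 := congrArg (fun B : Mat (N + 1) => B *ᵥ y) (hcomm u n₁)
    simp only [← mulVec_mulVec] at h3
    rw [hS u hu hu', hS u hu hu', mulVec_smul] at h3
    exact h3
  set lam : ℂ := herm v (A n₁ *ᵥ v) * (q v : ℂ)⁻¹ with hlam
  have hN1 : ∀ u, herm v u = 0 → herm n₁ u = 0 → A n₁ *ᵥ u = lam • u := by
    intro u hu hu'
    have h3 := hNu u hu hu' v
    rw [herm_self] at h3
    have h4 : A n₁ *ᵥ u = ((c * (q v : ℂ))⁻¹ * (c * herm v (A n₁ *ᵥ v))) • u := by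
      rw [← smul_smul, h3, smul_smul, inv_mul_cancel₀ (mul_ne_zero hc hq), one_smul]
    rw [h4, hlam]
    congr 1
    field_simp
  -- evaluation at the normal
  have hφn : φ ⬝ᵥ n₁ = 0 := by
    have h3 := hAτ n₁
    rw [hφ, hν, h1, mul_zero, zero_smul, add_zero, smul_smul] at h3
    have h4 := congrArg (herm n₁) h3
    rw [herm_smul_right, herm_smul_right, e2, mul_zero, herm_self] at h4
    have h5 : e * ν = 0 := (mul_eq_zero.1 h4.symm).resolve_right hq1
    rw [h5, zero_smul] at h3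
    exact (smul_eq_zero.1 h3).resolve_right hx0
  -- evaluation at a tangent vector which is not proportional to `x0`
  have hl0 : lam = 0 := by
    obtain ⟨i, hi⟩ := Function.ne_iff.1 hx0
    obtain ⟨x1, hx1, f1, f2, f3⟩ := exists_ker3 hN (hermR v) (hermR n₁) (LinearMap.proj i)
    rw [hermR_apply] at f1 f2
    have f3' : x1 i = 0 := f3
    have h3 := hAτ x1
    rw [hφ, hN1 x1 f1 f2, f1, mul_zero, zero_smul, add_zero, smul_smul] at h3
    have h4 := congrFun h3 i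
    rw [Pi.smul_apply, Pi.smul_apply, f3', smul_zero, smul_eq_mul] at h4
    have h5 : φ ⬝ᵥ x1 = 0 := (mul_eq_zero.1 h4).resolve_right hi
    rw [h5, zero_smul] at h3
    have h6 := (smul_eq_zero.1 h3.symm).resolve_right hx1
    exact (mul_eq_zero.1 h6).resolve_left he0
  have hφu : ∀ u, herm v u = 0 → herm n₁ u = 0 → φ ⬝ᵥ u = 0 := by
    intro u hu hu'
    have h3 := hAτ u
    rw [hφ, hN1 u hu hu', hu, mul_zero, zero_smul, add_zero, hl0, zero_smul, smul_zero] at h3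
    exact (smul_eq_zero.1 h3).resolve_right hx0
  -- `φ` is a multiple of the form
  have hφv : ∀ y, φ ⬝ᵥ y = (φ ⬝ᵥ v * (q v : ℂ)⁻¹) * herm v y := by
    intro y
    set b : ℂ := herm v y * (q v : ℂ)⁻¹ with hb
    set y1 : Vec N := y - b • v with hy1
    set d : ℂ := herm n₁ y1 * (q n₁ : ℂ)⁻¹ with hd
    have g1 : herm v y1 = 0 := by
      rw [hy1, herm_sub_right', herm_smul_right, herm_self, hb, mul_assoc, inv_mul_cancel₀ hq,
        mul_one, sub_self]
    have g2 : herm v (y1 - d • n₁) = 0 := by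
      rw [herm_sub_right', herm_smul_right, g1, h1, mul_zero, sub_zero]
    have g3 : herm n₁ (y1 - d • n₁) = 0 := by
      rw [herm_sub_right', herm_smul_right, herm_self, hd, mul_assoc, inv_mul_cancel₀ hq1,
        mul_one, sub_self]
    have g4 := hφu _ g2 g3
    rw [dotProduct_sub, dotProduct_smul, hφn, smul_zero, sub_zero, hy1, dotProduct_sub,
      dotProduct_smul, sub_eq_zero] at g4
    rw [g4, hb, smul_eq_mul]
    ring
  -- the end
  set κ : ℂ := φ ⬝ᵥ v * (q v : ℂ)⁻¹ with hκ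
  have hz : A (τ - (κ * c⁻¹) • x0) = 0 := by
    have h3 : τ - (κ * c⁻¹) • x0 = τ + (-(κ * c⁻¹)) • x0 := by
      rw [neg_smul, sub_eq_add_neg]
    rw [h3, hadd, hsm]
    apply Matrix.ext_of_mulVec_single
    intro i
    rw [add_mulVec, smul_mulVec, hφ, hS x0 e1 e2, hφv, zero_mulVec, smul_smul, ← add_smul]
    have h4 : κ * herm v (Pi.single i 1) + -(κ * c⁻¹) * (c * herm v (Pi.single i 1)) = 0 := by
      field_simp
      ring
    rw [h4, zero_smul]
  have hz' := hinj _ (by rw [herm_sub_right', herm_smul_right, t1, e1, mul_zero, sub_zero])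
    (by rw [herm_sub_right', herm_smul_right, t2, e3, mul_zero, sub_zero]) hz
  apply hp
  have h3 := congrArg (herm n₁) hz'
  rw [herm_sub_right', herm_smul_right, e2, mul_zero, sub_zero] at h3
  rw [h3]
  exact (hermR n₁).map_zero

end Pool.Agent.Lib.MP_5d4057_al.CF
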