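import Pool.Agent.Lib.MP_5d4057_al.CF.Bt
import Pool.Agent.Lib.MP_5d4057_al.CF.Adj
import Pool.Agent.Lib.MP_5d4057_al.CF.MixL

/-!
# CF: a piece of type S does not meet a piece of type C
-/

set_option autoImplicit false

namespace Pool.Agent.Lib.MP_5d4057_al.CF

open Matrix Filter Topology Pool.Agent.Lib.MP_5d4057_al Pool.Agent.Lib.MP_5d4057_al.Hyb
  Pool.Agent.Lib.MP_5d4057_al.HM Pool.Agent.Lib.MP_5d4057_al.RC Pool.Agent.Lib.MP_5d4057_al.NU

open scoped ComplexOrder MatrixOrder Matrix.Norms.L2Operator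

variable {j k : ℕ}

/-- The derivative along a hyperplane of type C. -/
theorem slice_C {G : Vec (j + 1) → Mat (j + 2)} (hG : Harm G) {l a : ℂ} {x : SUGroup (j + 1)}
    {M : Mat (j + 2)}
    (h1 : ∀ w ∈ Cone j, G (HM.hyp x w) = M * dsum l (a • (std w).map cj) * Mᴴ)
    {w : Vec j} (hw : w ∈ Cone j) {ξ : Vec j} (hξ : herm w ξ = 0) :
    pz G (HM.hyp x w) (HM.hyp x ξ) =
      (a * (-2 * (q w : ℂ)⁻¹)) • vecMulVec (M *ᵥ inc j (star w)) (inc j ξ ᵥ* Mᴴ) := by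
  have e1 : HasZ (fun w => G (HM.hyp x w)) w ξ _ _ :=
    ((((hasZ_std hw ξ).cj.const_smul a).dsum l).clm
      (ContinuousLinearMap.mulLeftRight ℂ (Mat (j + 2)) M Mᴴ)).congr (by
      filter_upwards [mem_nhds_cone hw] with u hu
      rw [h1 u hu]
      rfl)
  have e2 : HasZ (fun w => G (HM.hyp x w)) w ξ _ _ :=
    (hasZ (hG.diff (hyp_mem x hw)) (HM.hyp x ξ)).comp_lin (HM.hyp x)
  rw [← e2.pz, e1.pz]
  show M * dsum 0 (a • (stdB w ξ).map cj) * Mᴴ = _
  have hc : cj (-2 * (q w : ℂ)⁻¹) = -2 * (q w : ℂ)⁻¹ := by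
    rw [cj_apply, map_mul, map_neg, map_inv₀, Complex.conj_ofReal, map_ofNat]
  have e4 : (stdB w ξ).map cj = (-2 * (q w : ℂ)⁻¹) • vecMulVec (star w) ξ := by
    rw [stdB, prj_eq hξ, tm_smul, hc]
    congr 1
    ext i k
    rw [Matrix.map_apply, vecMulVec_apply, vecMulVec_apply, map_mul, cj_apply, cj_apply]
    congr 1
    exact star_star _
  rw [e4, smul_smul, dsum_smul_vmv, Matrix.mul_smul, Matrix.smul_mul, mul_vecMulVec, vecMulVec_mul]

theorem herm_nrm (x : Vec (j + 1)) : herm (nrm j) x = x 0 := by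
  have h1 : star (nrm j) = Fin.cons 1 0 := by
    ext i
    refine Fin.cases ?_ (fun i => ?_) i
    · show star (1 : ℂ) = 1
      rw [star_one]
    · show star (0 : ℂ) = 0
      rw [star_zero]
  conv_lhs => rw [← Fin.cons_self_tail x]
  rw [herm, J_succ, dsum_mulVec_cons, h1, cons_dot_cons, one_mul, one_mul, zero_dotProduct,
    add_zero]

/-- The vectors orthogonal to the normal vector. -/
theorem exists_inc {x : Vec (j + 1)} (h : herm (nrm j) x = 0) : ∃ ξ : Vec j, inc j ξ = x := by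
  rw [herm_nrm] at h
  refine ⟨Fin.tail x, ?_⟩
  rw [inc_apply]
  conv_rhs => rw [← Fin.cons_self_tail x, h]

theorem exists_hyp' {g : SUGroup (j + 1)} {x : Vec (j + 1)}
    (h : herm (act g (nrm j)) x = 0) : ∃ ξ : Vec j, HM.hyp g ξ = x := by
  have e1 : act g (act g⁻¹ x) = x := by rw [← act_mul, mul_inv_cancel, act_one]
  have h1 : herm (nrm j) (act g⁻¹ x) = 0 := by
    rw [← herm_act g, e1, h]
  obtain ⟨ξ, hξ⟩ := exists_inc h1
  exact ⟨ξ, by rw [hyp_apply, hξ, e1]⟩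

theorem herm_hyp (g : SUGroup (j + 1)) (v w : Vec j) :
    herm (HM.hyp g v) (HM.hyp g w) = herm v w := by
  rw [hyp_apply, hyp_apply, herm_act, herm_inc]

theorem mem_of_hyp {g : SUGroup (j + 1)} {w : Vec j} (h : HM.hyp g w ∈ Cone (j + 1)) :
    w ∈ Cone j := by
  have h1 : q (HM.hyp g w) < 0 := h
  rwa [hyp_apply, q_act, q_inc] at h1

theorem ne_zero_of_cone {n : ℕ} {v : Vec n} (hv : v ∈ Cone n) : v ≠ 0 := by
  rintro rfl
  have h : q (0 : Vec n) < 0 := hv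
  have h1 := herm_self (0 : Vec n)
  rw [herm, mulVec_zero, dotProduct_zero] at h1
  have h2 : q (0 : Vec n) = 0 := by exact_mod_cast h1.symm
  rw [h2] at h
  exact lt_irrefl _ h

/-- A piece of type S does not meet a piece of type C. -/
theorem not_SC (hk : 1 ≤ k) {g g' : SUGroup (k + 2)} (hm : Meet g g')
    {F : Vec (k + 2) → Mat (k + 3)} {Q Q' : Mat (k + 3)} {l a l' a' : ℂ} (hF : HarmG F)
    {G₀ : Subgroup (SUGroup (k + 2))} {t : ℂ ≃+* ℂ} (hFe : Equi (rhoT t G₀) F)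
    {Γ : Subgroup (SUGroup (k + 1))} (hV : Van Γ) (hG : ∀ x ∈ Γ, emb g x ∈ G₀)
    (hstd : ∀ x ∈ Γ, (emb g x).toMatrix.map t = Q * dsum 1 x.toMatrix * Q⁻¹)
    (h : TyS F g Q l a) (h' : TyC F g' Q' l' a') : False := by
  by_cases hprop : ∃ c : ℂ, act g' (nrm (k + 1)) = c • act g (nrm (k + 1))
  · obtain ⟨c, hc⟩ := hprop
    obtain ⟨Y, hY, hg⟩ := hyp_of_prop hc
    exact not_SC_eq (by omega) hY hg h h'
  obtain ⟨v₀, hv₀, hv1, hv2⟩ := hm
  obtain ⟨P, hPol⟩ := h.pcw hF hFe hG hstd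
  set G : Vec (k + 2) → Mat (k + 3) := fun v => Q⁻¹ * F (act g v) * (Q⁻¹)ᴴ with hGdef
  set x : SUGroup (k + 2) := g⁻¹ * g' with hx
  -- the metric on the second hyperplane
  have hM1 : ∀ w ∈ Cone (k + 1), G (HM.hyp x w) =
      (Q⁻¹ * Q') * dsum l' (a' • (std w).map cj) * (Q⁻¹ * Q')ᴴ := by
    intro w hw
    have e1 : act g (HM.hyp x w) = HM.hyp g' w := by
      rw [hyp_apply, hyp_apply, ← act_mul, hx, mul_inv_cancel_left]
    show Q⁻¹ * F (act g (HM.hyp x w)) * (Q⁻¹)ᴴ = _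
    rw [e1, h'.slice w hw, conjTranspose_mul]
    simp only [Matrix.mul_assoc]
  have hMu : IsUnit (Q⁻¹ * Q') := (isUnit_nonsing_inv_iff.2 h.unit).mul h'.unit
  set M : Mat (k + 3) := Q⁻¹ * Q' with hM
  have hMd := (isUnit_iff_isUnit_det _).1 hMu
  -- the common point
  obtain ⟨w, hw⟩ := exists_hyp' hv1
  have hwc : w ∈ Cone (k + 1) := mem_of_hyp (by rw [hw]; exact hv₀)
  obtain ⟨w', hw'⟩ := exists_hyp' hv2
  have hwc' : w' ∈ Cone (k + 1) := mem_of_hyp (by rw [hw']; exact hv₀)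
  have hxw : HM.hyp x w' = inc (k + 1) w := by
    have e1 : HM.hyp x w' = act g⁻¹ (HM.hyp g' w') := by
      rw [hyp_apply, hyp_apply, ← act_mul]
    rw [e1, hw', ← hw, hyp_apply, ← act_mul, inv_mul_cancel, act_one]
  have hqw : q w' = q w := by
    rw [← q_inc w, ← hxw, hyp_apply, q_act, q_inc]
  have hu := inc_mem hwc
  have hq := q_ne hwc
  have ha := P.ha.ne'
  have hGu : IsUnit (G (inc (k + 1) w)) := P.harm.unit hu
  have hGd := (isUnit_iff_isUnit_det _).1 hGu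
  have hn0 : nrm (k + 1) ≠ 0 := by
    intro h0
    have := congrFun h0 0
    exact one_ne_zero this
  refine mix_lin (N := k + 2) (v := inc (k + 1) w) (n₁ := nrm (k + 1))
    (n₂ := act x (nrm (k + 1))) (W := M *ᵥ inc (k + 1) (star w')) (c := 2 * (q w : ℂ)⁻¹)
    (ν := l⁻¹ * NN G w 0 0)
    (A := fun y => pz G (inc (k + 1) w) y * (G (inc (k + 1) w))⁻¹) (by omega) hu ?_ ?_ hn0 ?_ ?_
    ?_ ?_ ?_ ?_ ?_ ?_ ?_ ?_
  · rw [herm_comm, herm_nrm, inc_zero, star_zero]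
  · rw [← hxw, hyp_apply, herm_act, herm_comm, herm_nrm, inc_zero, star_zero]
  · intro h0
    apply hn0
    have h1 := congrArg (act x⁻¹) h0
    rw [← act_mul, inv_mul_cancel, act_one] at h1
    rw [h1]
    exact mulVec_zero _
  · intro c hc
    apply hprop
    have h1 := congrArg (act g) hc
    rw [act_smul, ← act_mul, hx, mul_inv_cancel_left] at h1
    have hc0 : c ≠ 0 := by
      rintro rfl
      rw [zero_smul] at hc
      exact hn0 hc
    exact ⟨c⁻¹, by rw [h1, smul_smul, inv_mul_cancel₀ hc0, one_smul]⟩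
  · intro y z
    show pz G _ (y + z) * _ = _
    rw [pz_add_dir, Matrix.add_mul]
  · intro s y
    show pz G _ (s • y) * _ = _
    rw [pz_smul_dir, Matrix.smul_mul]
  · intro y z
    have h1 : pz G (inc (k + 1) w) y * (G (inc (k + 1) w))⁻¹ * pz G (inc (k + 1) w) z =
        pz G (inc (k + 1) w) z * (G (inc (k + 1) w))⁻¹ * pz G (inc (k + 1) w) y :=
      P.harm.comm _ hu y z
    show pz G _ y * _ * (pz G _ z * _) = pz G _ z * _ * (pz G _ y * _)
    rw [← Matrix.mul_assoc, h1, Matrix.mul_assoc]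
  · exact mul_ne_zero two_ne_zero (inv_ne_zero hq)
  · intro y hy hy' z
    obtain ⟨ξ, rfl⟩ := exists_inc hy'
    rw [herm_inc] at hy
    show (pz G (inc (k + 1) w) (inc (k + 1) ξ) * (G (inc (k + 1) w))⁻¹) *ᵥ z = _
    rw [(P.tan hwc ξ).1, prj_eq hy, Matrix.smul_mul, vecMulVec_mul, P.inv_self' hwc, smul_mulVec,
      vmv, neg_dotProduct, smul_dotProduct, ← dotProduct_mulVec, smul_smul]
    have e1 : star (inc (k + 1) w) ⬝ᵥ (J (k + 1 + 1) *ᵥ z) = herm (inc (k + 1) w) z := rfl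
    rw [e1, smul_eq_mul]
    congr 1
    field_simp
  · show (pz G (inc (k + 1) w) (nrm (k + 1)) * (G (inc (k + 1) w))⁻¹) *ᵥ nrm (k + 1) = _
    have e1 : NN G w *ᵥ nrm (k + 1) = (NN G w 0 0) • nrm (k + 1) :=
      P.nrm_nrm (by omega) hV hPol hwc
    rw [← mulVec_mulVec, P.inv_nrm hwc, mulVec_smul]
    show l⁻¹ • (NN G w *ᵥ nrm (k + 1)) = _
    rw [e1, smul_smul]
  · intro y hy hy'
    obtain ⟨ξ, rfl⟩ := exists_hyp' hy'
    rw [← hxw, herm_hyp] at hy
    refine ⟨(a' * (-2 * (q w' : ℂ)⁻¹)) • ((inc (k + 1) ξ ᵥ* Mᴴ) ᵥ* (G (inc (k + 1) w))⁻¹),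
      fun z => ?_⟩
    show (pz G (inc (k + 1) w) (HM.hyp x ξ) * (G (inc (k + 1) w))⁻¹) *ᵥ z = _
    have e1 := slice_C P.harm hM1 hwc' hy
    rw [hxw] at e1
    rw [e1, Matrix.smul_mul, vecMulVec_mul, smul_mulVec, vmv, smul_dotProduct, smul_eq_mul,
      smul_smul]
  · intro y hy hy' hA
    obtain ⟨ξ, rfl⟩ := exists_hyp' hy'
    rw [← hxw, herm_hyp] at hy
    have hA' : pz G (inc (k + 1) w) (HM.hyp x ξ) * (G (inc (k + 1) w))⁻¹ = 0 := hA
    have e1 := slice_C P.harm hM1 hwc' hy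
    rw [hxw] at e1
    have h2 : pz G (inc (k + 1) w) (HM.hyp x ξ) = 0 := by
      have h3 := congrArg (fun B : Mat (k + 3) => B * G (inc (k + 1) w)) hA'
      simp only [Matrix.mul_assoc] at h3
      rwa [nonsing_inv_mul _ hGd, Matrix.mul_one, Matrix.zero_mul] at h3
    rw [h2] at e1
    have hc0 : a' * (-2 * (q w' : ℂ)⁻¹) ≠ 0 :=
      mul_ne_zero h'.ha.ne' (mul_ne_zero (by norm_num) (inv_ne_zero (q_ne hwc')))
    have h3 := (smul_eq_zero.1 e1.symm).resolve_left hc0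
    have h4 : M *ᵥ inc (k + 1) (star w') ≠ 0 := by
      intro h0
      have h5 := congrArg (fun z => M⁻¹ *ᵥ z) h0
      simp only [mulVec_mulVec, mulVec_zero, nonsing_inv_mul _ hMd, one_mulVec] at h5
      have h6 : star w' = 0 := inc_inj (by rw [h5, map_zero])
      exact ne_zero_of_cone hwc' (by rw [← star_star w', h6, star_zero])
    obtain ⟨i, hi⟩ := Function.ne_iff.1 h4
    have h5 : inc (k + 1) ξ ᵥ* Mᴴ = 0 := by
      ext c
      have := congrFun (congrFun h3 i) c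
      rw [vecMulVec_apply] at this
      exact (mul_eq_zero.1 this).resolve_left hi
    have hMHd := (isUnit_iff_isUnit_det _).1 ((isUnit_conjTranspose M).2 hMu)
    have h6 : inc (k + 1) ξ = 0 := by
      have h7 := congrArg (fun z => z ᵥ* (Mᴴ)⁻¹) h5
      simp only [vecMul_vecMul, zero_vecMul, mul_nonsing_inv _ hMHd, vecMul_one] at h7
      exact h7
    rw [hyp_apply, h6]
    exact mulVec_zero _

end Pool.Agent.Lib.MP_5d4057_al.CF
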