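import Pool.Agent.Lib.MP_5d4057_al.CF.Nf
import Pool.Agent.Lib.MP_5d4057_al.CF.Mix

/-!
# CF: the two key facts
-/

set_option autoImplicit false

namespace Pool.Agent.Lib.MP_5d4057_al.CF

open Matrix Filter Topology Pool.Agent.Lib.MP_5d4057_al Pool.Agent.Lib.MP_5d4057_al.Hyb
  Pool.Agent.Lib.MP_5d4057_al.HM Pool.Agent.Lib.MP_5d4057_al.RC Pool.Agent.Lib.MP_5d4057_al.NU

open scoped ComplexOrder MatrixOrder Matrix.Norms.L2Operator

variable {k : ℕ} {ι : Type} {G : Subgroup (SUGroup (k + 2))} {g : ι → SUGroup (k + 2)}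
  {Λ' : ι → Subgroup (SUGroup (k + 1))} {K : ι → Subfield ℂ} {t : ℂ ≃+* ℂ}

/-- One step of the chain: if `t` fixes the field of a hyperplane then it fixes the field of every
hyperplane which meets it. -/
private theorem fix_step (hk : 1 ≤ k) (C : Cfg G g Λ' K) {F : Vec (k + 2) → Mat (k + 3)}
    (hF : HarmG F) (hFe : Equi (rhoT t G) F) {a b : ι} (hm : Meet (g a) (g b))
    (ht : ∀ x : K a, t (x : ℂ) = x) : ∀ x : K b, t (x : ℂ) = x := by
  obtain ⟨Q, l, c, hS, hstd⟩ := C.tyS a t F hF hFe ht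
  by_contra h1
  by_cases h2 : ∀ x : K b, t (x : ℂ) = cj (x : ℂ)
  · obtain ⟨Q', l', c', hC⟩ := C.tyC b t F hF hFe h2
    exact not_SC hk hm hF hFe (C.van a) (C.mem a) hstd hS hC
  · have hB := C.tyB b t F hF hFe h1 h2
    obtain ⟨A, B, hA, hB', hAB⟩ := meet_lin hm
    exact not_SB hk hA hB' hAB hS hB

/-- If `t` fixes one of the fields then it fixes all of them. -/
theorem fix_all (hk : 1 ≤ k) (C : Cfg G g Λ' K) {i₀ : ι} (ht : ∀ x : K i₀, t (x : ℂ) = x)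
    (i : ι) : ∀ x : K i, t (x : ℂ) = x := by
  obtain ⟨F, hF, hFe⟩ := C.hlat t
  induction C.conn i₀ i with
  | refl => exact ht
  | tail _ hm ih => exact fix_step hk C hF hFe hm ih

/-- If `t` is neither the identity nor conjugation on one of the fields then it is so on all of
them. -/
theorem ne_all (hk : 1 ≤ k) (C : Cfg G g Λ' K) {i₀ : ι} (ht : ¬ ∀ x : K i₀, t (x : ℂ) = x)
    (ht' : ¬ ∀ x : K i₀, t (x : ℂ) = cj (x : ℂ)) (i : ι) :
    (¬ ∀ x : K i, t (x : ℂ) = x) ∧ ¬ ∀ x : K i, t (x : ℂ) = cj (x : ℂ) := by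
  refine ⟨fun h => ht (fix_all hk C h i₀), fun h => ht' ?_⟩
  have hcc : ∀ z : ℂ, cj (cj z) = z := fun z => by
    rw [cj_apply, cj_apply, Complex.conj_conj]
  have h1 := fix_all hk C (t := t.trans cj) (i₀ := i) (fun x => by
    show cj (t (x : ℂ)) = x
    rw [h x, hcc]) i₀
  intro x
  have h2 : cj (t (x : ℂ)) = x := h1 x
  rw [← hcc (t (x : ℂ)), h2]

/-- The first key fact. -/
theorem key_fix (hk : 1 ≤ k) (C : Cfg G g Λ' K) {i₀ : ι} (ht : ∀ x : K i₀, t (x : ℂ) = x) :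
    ∃ T : Mat (k + 3), IsUnit T ∧
      (∀ x ∈ G, ∃ α : ℂ, x.toMatrix.map t * T = α • (T * x.toMatrix)) ∧
      ∀ i, ∀ y ∈ Λ' i, (emb (g i) y).toMatrix.map t * T = T * (emb (g i) y).toMatrix := by
  obtain ⟨F, hF, hFe⟩ := C.hlat t
  have h1 := fun i => C.tyS i t F hF hFe (fix_all hk C ht i)
  choose Q l a hS hstd using h1
  obtain ⟨T, hT, h2, h3⟩ := (C.fam i₀ hF hFe hS hstd).exists_T hk i₀
  exact ⟨T, hT, fun x hx => (h2 x hx).imp fun α h => h.2, h3⟩

/-- The second key fact. -/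
theorem key_ne (hk : 1 ≤ k) (C : Cfg G g Λ' K) {i₀ : ι} (ht : ¬ ∀ x : K i₀, t (x : ℂ) = x)
    (ht' : ¬ ∀ x : K i₀, t (x : ℂ) = cj (x : ℂ)) :
    ∃ Z : Mat (k + 3), Z.PosDef ∧ ∀ x ∈ G, x.toMatrix.map t * Z * (x.toMatrix.map t)ᴴ = Z := by
  obtain ⟨F, hF, hFe⟩ := C.hlat t
  have hB : ∀ i, TyB F (g i) := fun i =>
    C.tyB i t F hF hFe (ne_all hk C ht ht' i).1 (ne_all hk C ht ht' i).2
  have hval : ∀ i, F (HM.hyp (g i) (base (k + 1))) = F (HM.hyp (g i₀) (base (k + 1))) := by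
    intro i
    induction C.conn i₀ i with
    | refl => rfl
    | @tail b c _ hm ih =>
      obtain ⟨A, B, hA, hB', hAB⟩ := meet_lin hm
      rw [← ih, ← hB c (B (base k)) ?_, ← hB b (A (base k)) ?_, hAB]
      · show q (A (base k)) < 0
        rw [hA]
        exact base_mem k
      · show q (B (base k)) < 0
        rw [hB']
        exact base_mem k
  refine ⟨F (HM.hyp (g i₀) (base (k + 1))), hF.pos _ (hyp_mem _ (base_mem _)), fun x hx => ?_⟩
  obtain ⟨i', hi'⟩ := C.stab i₀ x hx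
  have h1 := hFe ⟨x, hx⟩ (HM.hyp (g i₀) (base (k + 1))) (hyp_mem _ (base_mem _))
  have h2 : act x (HM.hyp (g i₀) (base (k + 1))) = HM.hyp (g i') (base (k + 1)) := by
    rw [hyp_apply, hyp_apply, hi', act_mul]
  have h3 : F (HM.hyp (g i') (base (k + 1))) =
      x.toMatrix.map t * F (HM.hyp (g i₀) (base (k + 1))) * (x.toMatrix.map t)ᴴ := by
    rw [← h2]
    exact h1
  rw [← h3, hval i']

end Pool.Agent.Lib.MP_5d4057_al.CF
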