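import Pool.Agent.Lib.MP_5d4057_al.CF.Cfg
import Pool.Agent.Lib.MP_5d4057_al.CF.Key
import Pool.Agent.Lib.MP_5d4057_al.CF.Crit

/-!
# CF: arithmeticity from the integrality of the traces
-/

set_option autoImplicit false

namespace Pool.Agent.Lib.MP_5d4057_al.CF

open Matrix Filter Topology Pool.Agent.Lib.MP_5d4057_al Pool.Agent.Lib.MP_5d4057_al.Hyb
  Pool.Agent.Lib.MP_5d4057_al.HM Pool.Agent.Lib.MP_5d4057_al.RC Pool.Agent.Lib.MP_5d4057_al.NU

open scoped ComplexOrder MatrixOrder Matrix.Norms.L2Operator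

variable {k n : ℕ}

/-- PROOF: `C.stab` etc. for the group `G'`: `isArith_of_traces` for `G'` (`key_ne` for `G`,
`isLattice_of_relIndex`); `IsArith` passes to `G` because `G'` has finite index. -/
theorem arith_core (hk : 1 ≤ k) {ι : Type} {G : Subgroup (SUGroup (k + 2))}
    {g : ι → SUGroup (k + 2)} {Λ' : ι → Subgroup (SUGroup (k + 1))} {K : ι → Subfield ℂ}
    (C : Cfg G g Λ' K) (i₀ : ι) (hlat : IsLattice G)
    (hint : ∀ x ∈ G, IsIntegral ℤ x.toMatrix.trace)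
    {G' : Subgroup (SUGroup (k + 2))} (hle : G' ≤ G) (hfin : G'.relIndex G ≠ 0)
    (htr : ∀ x ∈ G', x.toMatrix.trace ∈ K i₀) : IsArith (k + 2) G := by
  have hA : IsArith (k + 2) G' := by
    refine isArith_of_traces (by omega) (isLattice_of_relIndex hlat hle hfin) (C.cm i₀) htr
      (fun x hx => hint x (hle hx)) fun t h1 h2 => ?_
    obtain ⟨Z, hZ, h⟩ := key_ne hk C h1 h2
    exact ⟨Z, hZ, fun x hx => h x (hle hx)⟩
  obtain ⟨K', A, O, hU, hO, hc⟩ := hA
  refine ⟨K', A, O, hU, hO, Subgroup.Commensurable.trans ⟨?_, hfin⟩ hc⟩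
  rw [Subgroup.relIndex_eq_one.2 hle]
  exact one_ne_zero

end Pool.Agent.Lib.MP_5d4057_al.CF
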