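import Pool.Agent.Lib.MP_5d4057_al.CF.Chr

/-!
# CF: a subgroup of finite index with traces in the field
-/

set_option autoImplicit false

namespace Pool.Agent.Lib.MP_5d4057_al.CF

open Matrix Filter Topology Pool.Agent.Lib.MP_5d4057_al Pool.Agent.Lib.MP_5d4057_al.Hyb
  Pool.Agent.Lib.MP_5d4057_al.HM

variable {n : ℕ}

/-- The powers with exponent divisible by `e` have finite index in a cyclic group. -/
theorem relIndex_zpowers_pow {H : Type} [Group H] (x : H) (e : ℕ) :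
    (Subgroup.zpowers (x ^ (e + 1))).relIndex (Subgroup.zpowers x) ≠ 0 := by
  have h1 : Finite (Subgroup.zpowers x ⧸
      (Subgroup.zpowers (x ^ (e + 1))).subgroupOf (Subgroup.zpowers x)) := by
    let f : Fin (e + 1) → Subgroup.zpowers x ⧸
        (Subgroup.zpowers (x ^ (e + 1))).subgroupOf (Subgroup.zpowers x) := fun i =>
      ((⟨x ^ (i : ℕ), Subgroup.npow_mem_zpowers x i⟩ : Subgroup.zpowers x) : _ ⧸ _)
    refine Finite.of_surjective f fun y => ?_
    induction y using QuotientGroup.induction_on with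
    | H y =>
      obtain ⟨y, k, rfl⟩ := y
      have he : (0 : ℤ) < (e : ℤ) + 1 := by positivity
      have h2 : 0 ≤ k % ((e : ℤ) + 1) := Int.emod_nonneg k he.ne'
      have h3 : k % ((e : ℤ) + 1) < (e : ℤ) + 1 := Int.emod_lt_of_pos k he
      refine ⟨⟨(k % ((e : ℤ) + 1)).toNat, by omega⟩, ?_⟩
      refine QuotientGroup.eq.2 ?_
      rw [Subgroup.mem_subgroupOf]
      refine ⟨k / ((e : ℤ) + 1), ?_⟩
      show (x ^ (e + 1)) ^ (k / ((e : ℤ) + 1)) = (x ^ (k % ((e : ℤ) + 1)).toNat)⁻¹ * x ^ k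
      rw [← zpow_natCast x ((k % ((e : ℤ) + 1)).toNat), Int.toNat_of_nonneg h2, ← _root_.zpow_neg,
        ← _root_.zpow_add, ← zpow_natCast, ← _root_.zpow_mul]
      congr 1
      have h4 := Int.emod_add_mul_ediv k ((e : ℤ) + 1)
      push_cast
      linarith
  exact (Subgroup.finiteIndex_of_finite_quotient (H := (Subgroup.zpowers
    (x ^ (e + 1))).subgroupOf (Subgroup.zpowers x))).index_ne_zero

/-- A subgroup of finite index with traces in the field. -/
theorem exists_sub {G : Subgroup (SUGroup n)} {K : Subfield ℂ} (hK : NumberField K)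
    {J : Type} [Finite J] (P S : J → Subgroup (SUGroup n)) (hPS : ∀ b, P b ≤ S b)
    (hfin : ∀ b, (P b).relIndex (S b) ≠ 0) {X : Set (SUGroup n)} (hX : X.Finite)
    (hgen : G = Subgroup.closure ((⋃ b, (S b : Set (SUGroup n))) ∪ X))
    (hT : ∀ t : ℂ ≃+* ℂ, (∀ x : K, t (x : ℂ) = x) → ∃ T : Mat (n + 1), IsUnit T ∧
      (∀ x ∈ G, ∃ α : ℂ, x.toMatrix.map t * T = α • (T * x.toMatrix)) ∧
      ∀ b, ∀ s ∈ P b, s.toMatrix.map t * T = T * s.toMatrix) :
    ∃ G' : Subgroup (SUGroup n), G' ≤ G ∧ G'.relIndex G ≠ 0 ∧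
      ∀ γ ∈ G', γ.toMatrix.trace ∈ K := by
  have : Finite X := hX.to_subtype
  have hSG : ∀ b, S b ≤ G := fun b x hx => by
    rw [hgen]
    exact Subgroup.subset_closure (Or.inl (Set.mem_iUnion.2 ⟨b, hx⟩))
  have hXG : ∀ x ∈ X, x ∈ G := fun x hx => by
    rw [hgen]
    exact Subgroup.subset_closure (Or.inr hx)
  obtain ⟨G', h1, h2, -, h3⟩ : ∃ G' : Subgroup (SUGroup n), G' ≤ G ∧ G'.relIndex G ≠ 0 ∧
      (∀ i, Sum.elim P (fun x : X => Subgroup.zpowers ((x : SUGroup n) ^ (n + 1))) i ≤ G') ∧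
      ∀ γ ∈ G', γ.toMatrix.trace ∈ K := by
    refine exists_ker (I := J ⊕ X) hK _
      (Sum.elim S fun x => Subgroup.zpowers (x : SUGroup n)) ?_ ?_ ?_ ?_ ?_
    · rintro (b | x)
      · exact hPS b
      · exact Subgroup.zpowers_le.2 (Subgroup.npow_mem_zpowers _ _)
    · rintro (b | x)
      · exact hfin b
      · exact relIndex_zpowers_pow _ n
    · rintro (b | x)
      · exact hSG b
      · exact Subgroup.zpowers_le.2 (hXG _ x.2)
    · rw [hgen, Subgroup.closure_le]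
      rintro x (hx | hx)
      · obtain ⟨b, hb⟩ := Set.mem_iUnion.1 hx
        exact Subgroup.subset_closure (Set.mem_iUnion.2 ⟨Sum.inl b, hb⟩)
      · exact Subgroup.subset_closure (Set.mem_iUnion.2 ⟨Sum.inr ⟨x, hx⟩,
          Subgroup.mem_zpowers x⟩)
    · intro t ht
      obtain ⟨T, hTu, hTG, hTP⟩ := hT t ht
      obtain ⟨φ, hφ, hpow⟩ := exists_char t (G := G) hTu hTG
      refine ⟨T, hTu, ?_, ?_⟩
      · rintro (b | x) s hs
        · exact hTG s (hSG b hs)
        · exact hTG s (Subgroup.zpowers_le.2 (hXG _ x.2) hs)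
      · rintro (b | x) s hs
        · exact hTP b s hs
        · obtain ⟨k, rfl⟩ := hs
          have h4 := hφ ((⟨x, hXG _ x.2⟩ ^ (n + 1)) ^ k)
          rw [map_zpow, map_pow, hpow, _root_.one_zpow, Units.val_one, one_smul] at h4
          exact h4
  exact ⟨G', h1, h2, h3⟩

end Pool.Agent.Lib.MP_5d4057_al.CF
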