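import Pool.Agent.Lib.MP_5d4057_al.CF.Fin
import Pool.Agent.Lib.MP_5d4057_al.CF.Sub
import Pool.Agent.Lib.MP_5d4057_al.CF.Conn
import Pool.Agent.Lib.MP_5d4057_al.TW.Int

/-!
# CF: the theorems
-/

set_option autoImplicit false

namespace Pool.Agent.Lib.MP_5d4057_al.CF

open Matrix Filter Topology Pool.Agent.Lib.MP_5d4057_al Pool.Agent.Lib.MP_5d4057_al.Hyb
  Pool.Agent.Lib.MP_5d4057_al.HM Pool.Agent.Lib.MP_5d4057_al.RC Pool.Agent.Lib.MP_5d4057_al.NU

/-- Integrality of the traces. -/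
theorem integral_trl {k : ℕ} (hk : 1 ≤ k) {G : Subgroup (SUGroup (k + 2))} (hlat : IsLattice G)
    (hf : FGG G) {I : Type} [Nonempty I] (g : I → SUGroup (k + 2))
    (Λ : I → Subgroup (SUGroup (k + 1))) (hL : ∀ i, IsLattice (Λ i))
    (hA : ∀ i, IsArith (k + 1) (Λ i)) (hmem : ∀ i, (Λ i).map (emb (g i)) ≤ G)
    (hc : Conn (trl G g)) : ∀ x ∈ G, IsIntegral ℤ x.toMatrix.trace := by
  obtain ⟨i₀⟩ := ‹Nonempty I›
  refine IN.integral_conf (by omega : 1 ≤ k + 1) hlat hf (trl G g) (fun p => Λ p.2)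
    (fun p => rec_of_lattice (by omega) (hL p.2) (fgg_of_isArith (hA p.2)))
    (fun p => ⟨Λ p.2, hA p.2, le_rfl⟩) ?_ ?_ ?_
  · rintro ⟨x, i⟩ y hy
    rw [trl, emb_trl]
    exact G.mul_mem (G.mul_mem x.2 (hmem i ⟨y, hy, rfl⟩)) (G.inv_mem x.2)
  · intro p p'
    induction hc p p' with
    | refl => exact Relation.EqvGen.refl _
    | tail _ h2 ih =>
      obtain ⟨w, hw, w', hw', e⟩ := meet_iff.1 h2
      exact ih.trans _ _ _ (Relation.EqvGen.rel _ _ ⟨w, hw, w', hw', e⟩)
  · intro x hx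
    refine Subgroup.subset_closure ⟨hx, ⟨1, i₀⟩, ⟨⟨x, hx⟩, i₀⟩, base _, base_mem _, base _,
      base_mem _, ?_⟩
    rw [← hyp_mul]
    have e : x * trl G g (1, i₀) = trl G g (⟨x, hx⟩, i₀) := by
      show x * ((1 : SUGroup (k + 2)) * g i₀) = x * g i₀
      rw [one_mul]
    rw [e]

/-- **Connected configurations.** Let `k ≥ 1` and `G` a lattice of `SU(k+2,1)`, which contains for every
`i` the copy `g i (1 + Λ i) (g i)⁻¹` of an arithmetic lattice of `SU(k+1,1)`; suppose that the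
`G`-translates of the hyperplanes of the `g i` form a connected configuration, and that `G` is
generated by finitely many elements and finitely many subgroups `S b`, in each of which one of these
copies has finite index. Then `G` is arithmetic. -/
theorem connected_trl (k : ℕ) (hk : 1 ≤ k) {G : Subgroup (SUGroup (k + 2))} (hlat : IsLattice G)
    {I : Type} [Nonempty I] (g : I → SUGroup (k + 2)) (Λ : I → Subgroup (SUGroup (k + 1)))
    (hL : ∀ i, IsLattice (Λ i)) (hA : ∀ i, IsArith (k + 1) (Λ i))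
    (hmem : ∀ i, (Λ i).map (emb (g i)) ≤ G) (hc : Conn (trl G g))
    {J : Type} [Finite J] (s : J → I) (S : J → Subgroup (SUGroup (k + 2)))
    (hS : ∀ b, (Λ (s b)).map (emb (g (s b))) ≤ S b)
    (hfin : ∀ b, ((Λ (s b)).map (emb (g (s b)))).relIndex (S b) ≠ 0)
    (X : Set (SUGroup (k + 2))) (hX : X.Finite)
    (hgen : G = Subgroup.closure ((⋃ b, (S b : Set (SUGroup (k + 2)))) ∪ X)) :
    IsArith (k + 2) G := by
  have hf : FGG G := by
    rw [hgen]
    exact fgg_closure (fun b => (fgg_emb (fgg_of_isArith (hA (s b))) _).of_relIndex (hfin b)) hX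
  obtain ⟨K, Λ', hle, hfin', C⟩ := exists_cfg hk hlat hf hL hA hmem hc
  have hint := integral_trl hk hlat hf g Λ hL hA hmem hc
  obtain ⟨i₀⟩ := ‹Nonempty I›
  have hone : ∀ i, trl G g (1, i) = g i := fun i => one_mul _
  have hfin2 : ∀ b, ((Λ' (s b)).map (emb (g (s b)))).relIndex (S b) ≠ 0 := by
    intro b
    refine Subgroup.relIndex_ne_zero_trans ?_ (hfin b)
    rw [Subgroup.relIndex_map_map_of_injective _ _ (emb_injective _)]
    exact hfin' (s b)
  have hT : ∀ t : ℂ ≃+* ℂ, (∀ x : K i₀, t (x : ℂ) = x) → ∃ T : Mat (k + 3), IsUnit T ∧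
      (∀ x ∈ G, ∃ α : ℂ, x.toMatrix.map t * T = α • (T * x.toMatrix)) ∧
      ∀ b, ∀ x ∈ (Λ' (s b)).map (emb (g (s b))), x.toMatrix.map t * T = T * x.toMatrix := by
    intro t ht
    obtain ⟨T, hT, h1, h2⟩ := key_fix hk C (i₀ := (1, i₀)) ht
    refine ⟨T, hT, h1, fun b => ?_⟩
    rintro _ ⟨y, hy, rfl⟩
    have h3 := h2 (1, s b) y hy
    rwa [hone] at h3
  obtain ⟨G', hG', hGf, htr⟩ := exists_sub (C.cm (1, i₀)).1
    (fun b => (Λ' (s b)).map (emb (g (s b)))) S
    (fun b => (Subgroup.map_mono (hle (s b))).trans (hS b)) hfin2 hX hgen hT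
  exact arith_core hk C (1, i₀) hlat hint hG' hGf htr

/-- Lattices generated by pieces. -/
theorem connected (k : ℕ) (hk : 1 ≤ k) {ι : Type} [Finite ι] (g : ι → SUGroup (k + 2))
    (Λ : ι → Subgroup (SUGroup (k + 1))) (S : ι → Subgroup (SUGroup (k + 2)))
    (hP : ∀ i, Piece (Λ i) (g i) (S i)) (hc : Conn g) (hlat : IsLattice (⨆ i, S i)) :
    IsArith (k + 2) (⨆ i, S i) := by
  have hne : Nonempty ι := by
    by_contra hcon
    rw [not_nonempty_iff] at hcon
    have h1 : (⨆ i, S i) = ⊥ := iSup_of_empty S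
    rw [h1] at hlat
    have h2 := span_top (by omega : 1 ≤ k + 2) _ hlat
    have h3 : (Matrix.single 0 1 (1 : ℂ) : Mat (k + 3)) ∈ Submodule.span ℂ
        (SUGroup.toMatrix '' ((⊥ : Subgroup (SUGroup (k + 2))) : Set (SUGroup (k + 2)))) := by
      rw [h2]
      trivial
    rw [Subgroup.coe_bot, Set.image_singleton, Submodule.mem_span_singleton] at h3
    obtain ⟨c, hc'⟩ := h3
    have h4 := congrFun (congrFun hc' 0) 1
    rw [toMatrix_one, Matrix.smul_apply, Matrix.one_apply_ne Fin.zero_ne_one, smul_zero,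
      Matrix.single_apply_same] at h4
    exact one_ne_zero h4.symm
  refine connected_trl k hk hlat g Λ (fun i => (hP i).lat) (fun i => (hP i).ar)
    (fun i => (hP i).le.trans (le_iSup S i)) (conn_trl hc ?_) id S (fun i => (hP i).le)
    (fun i => (hP i).fin) ∅ Set.finite_empty ?_
  · conv_lhs => rw [Subgroup.iSup_eq_closure]
    refine Subgroup.closure_mono ?_
    intro x hx
    obtain ⟨i, hx⟩ := Set.mem_iUnion.1 hx
    exact ⟨Subgroup.mem_iSup_of_mem i hx, i, i, (hP i).meet (by omega) hx⟩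
  · rw [Set.union_empty, ← Subgroup.iSup_eq_closure]

end Pool.Agent.Lib.MP_5d4057_al.CF
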