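import Pool.Agent.Lib.MP_5d4057_al.CF.Conf
import Pool.Agent.Lib.MP_5d4057_al.CF.Blk

/-!
# CF: configurations in which all hyperplanes are of type S
-/

set_option autoImplicit false

namespace Pool.Agent.Lib.MP_5d4057_al.CF

open Matrix Filter Topology Pool.Agent.Lib.MP_5d4057_al Pool.Agent.Lib.MP_5d4057_al.Hyb
  Pool.Agent.Lib.MP_5d4057_al.HM Pool.Agent.Lib.MP_5d4057_al.RC Pool.Agent.Lib.MP_5d4057_al.NU

open scoped ComplexOrder MatrixOrder Matrix.Norms.L2Operator

variable {j k : ℕ} {ι : Type} {G : Subgroup (SUGroup (k + 2))} {g : ι → SUGroup (k + 2)}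
  {Λ' : ι → Subgroup (SUGroup (k + 1))} {K : ι → Subfield ℂ}

variable {t : ℂ ≃+* ℂ} {F : Vec (k + 2) → Mat (k + 3)} {Q : ι → Mat (k + 3)} {l a : ι → ℂ}

/-- The hyperplane of `g` is orthogonal to the normal vector. -/
theorem herm_nrm_hyp (g : SUGroup (j + 1)) (w : Vec j) :
    herm (act g (nrm j)) (HM.hyp g w) = 0 := by
  rw [hyp_apply, herm_act, herm_comm, herm_inc_tl]
  have h1 : tl j (nrm j) = 0 := by
    funext i
    rfl
  rw [h1, herm, mulVec_zero, dotProduct_zero, star_zero]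

/-- Hyperplanes with a common point. -/
theorem meet_of_hyp {g g' : SUGroup (j + 1)} {w w' : Vec j} (hw : w ∈ Cone j)
    (h : HM.hyp g w = HM.hyp g' w') : Meet g g' :=
  ⟨HM.hyp g w, hyp_mem g hw, herm_nrm_hyp g w, by rw [h]; exact herm_nrm_hyp g' w'⟩

theorem Meet.refl (g : SUGroup (j + 1)) : Meet g g := meet_of_hyp (base_mem j) rfl

/-- The family of a configuration of type S. -/
theorem Cfg.fam (C : Cfg G g Λ' K) (i₀ : ι) (hF : HarmG F) (hFe : Equi (rhoT t G) F)
    (hty : ∀ i, TyS F (g i) (Q i) (l i) (a i))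
    (hstd : ∀ i, ∀ y ∈ Λ' i, (emb (g i) y).toMatrix.map t = Q i * dsum 1 y.toMatrix * (Q i)⁻¹) :
    Fam G g Λ' t F Q l a where
  rcG := C.recG
  span := C.spanG
  recP := C.recP
  emb := C.mem
  conn := C.conn
  gen := by
    intro x hx
    obtain ⟨i', hi'⟩ := C.stab i₀ x hx
    refine Subgroup.subset_closure ⟨hx, i₀, i', ?_⟩
    rw [← hi']
    exact Meet.refl _
  harm := hF
  equi := hFe
  ty := hty
  std := hstd

end Pool.Agent.Lib.MP_5d4057_al.CF
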