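import Pool.Agent.Lib.MP_5d4057_al.Hyb.ArithE
import Pool.Agent.Lib.MP_5d4057_al.HM.Aut

/-!
# CF: the regular representation of a form of the matrix algebra
-/

set_option autoImplicit false

namespace Pool.Agent.Lib.MP_5d4057_al.CF

open Matrix Pool.Agent.Lib.MP_5d4057_al Pool.Agent.Lib.MP_5d4057_al.Hyb ComplexOrder

variable {m : ℕ} {K : Subfield ℂ}

/-- A basis of a form `A` of the matrix algebra, with the coordinates `c`. -/
structure Reg (K : Subfield ℂ) (A : Set (Matrix (Fin (m + 1)) (Fin (m + 1)) ℂ)) (d : ℕ)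
    (b : Fin d → Matrix (Fin (m + 1)) (Fin (m + 1)) ℂ)
    (c : Matrix (Fin (m + 1)) (Fin (m + 1)) ℂ →ₗ[ℂ] (Fin d → ℂ)) : Prop where
  mem : ∀ i, b i ∈ A
  exp : ∀ x, ∑ i, c x i • b i = x
  coord : ∀ y : Fin d → ℂ, c (∑ i, y i • b i) = y
  rat : ∀ a ∈ A, ∀ i, c a i ∈ K

theorem exists_reg (A : Subalgebra K (Matrix (Fin (m + 1)) (Fin (m + 1)) ℂ))
    (hrank : Module.finrank K A = (m + 1) ^ 2)
    (hspan : Submodule.span ℂ (A : Set (Matrix (Fin (m + 1)) (Fin (m + 1)) ℂ)) = ⊤) :
    ∃ (d : ℕ) (b : Fin d → Matrix (Fin (m + 1)) (Fin (m + 1)) ℂ)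
      (c : Matrix (Fin (m + 1)) (Fin (m + 1)) ℂ →ₗ[ℂ] (Fin d → ℂ)), Reg K (A : Set _) d b c := by
  classical
  have hfin : Module.Finite K A := Module.finite_of_finrank_pos (by rw [hrank]; positivity)
  let b := Module.finBasis K A
  have hsp : ⊤ ≤ Submodule.span ℂ (Set.range fun i =>
      (b i : Matrix (Fin (m + 1)) (Fin (m + 1)) ℂ)) := by
    rw [← hspan, Submodule.span_le]
    intro a ha
    have h1 := b.sum_repr ⟨a, ha⟩
    have h2 := congrArg (fun x : A => (x : Matrix (Fin (m + 1)) (Fin (m + 1)) ℂ)) h1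
    simp only [AddSubmonoidClass.coe_finsetSum] at h2
    rw [SetLike.mem_coe, ← h2]
    refine Submodule.sum_mem _ fun i _ => ?_
    have h3 : ((b.repr ⟨a, ha⟩ i • b i : A) : Matrix (Fin (m + 1)) (Fin (m + 1)) ℂ) =
        ((b.repr ⟨a, ha⟩ i : K) : ℂ) • (b i : Matrix (Fin (m + 1)) (Fin (m + 1)) ℂ) := rfl
    rw [h3]
    exact Submodule.smul_mem _ _ (Submodule.subset_span ⟨i, rfl⟩)
  have hcard : Fintype.card (Fin (Module.finrank K A)) =
      Module.finrank ℂ (Matrix (Fin (m + 1)) (Fin (m + 1)) ℂ) := by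
    rw [Fintype.card_fin, hrank, Module.finrank_matrix]
    simp [sq]
  let bC := basisOfTopLeSpanOfCardEqFinrank
    (fun i => (b i : Matrix (Fin (m + 1)) (Fin (m + 1)) ℂ)) hsp hcard
  have hbC : ∀ i, bC i = (b i : Matrix (Fin (m + 1)) (Fin (m + 1)) ℂ) := fun i => by
    simp [bC]
  refine ⟨_, fun i => (b i : Matrix (Fin (m + 1)) (Fin (m + 1)) ℂ), bC.equivFun.toLinearMap,
    fun i => (b i).2, ?_, ?_, ?_⟩
  · intro x
    conv_rhs => rw [← bC.sum_equivFun x]
    exact Finset.sum_congr rfl fun i _ => by rw [hbC]; rfl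
  · intro y
    have h1 : ∑ i, y i • (b i : Matrix (Fin (m + 1)) (Fin (m + 1)) ℂ) = ∑ i, y i • bC i :=
      Finset.sum_congr rfl fun i _ => by rw [hbC]
    show bC.equivFun (∑ i, y i • (b i : Matrix (Fin (m + 1)) (Fin (m + 1)) ℂ)) = y
    rw [h1, ← bC.equivFun_symm_apply, LinearEquiv.apply_symm_apply]
  · intro a ha i
    have h1 := b.sum_repr ⟨a, ha⟩
    have h2 := congrArg (fun x : A => (x : Matrix (Fin (m + 1)) (Fin (m + 1)) ℂ)) h1
    simp only [AddSubmonoidClass.coe_finsetSum] at h2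
    obtain ⟨r, hr⟩ : ∃ r : Fin (Module.finrank K A) → K, r = fun i => b.repr ⟨a, ha⟩ i :=
      ⟨_, rfl⟩
    have h3 : a = ∑ i, ((r i : K) : ℂ) • bC i := by
      refine h2.symm.trans (Finset.sum_congr rfl fun i _ => ?_)
      rw [hbC, hr]
      rfl
    have h4 : bC.equivFun a = fun i => ((r i : K) : ℂ) := by
      rw [h3, ← bC.equivFun_symm_apply (fun i => ((r i : K) : ℂ)),
        LinearEquiv.apply_symm_apply]
    show bC.equivFun a i ∈ K
    rw [h4]
    exact (r i).2

section reg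

variable {A : Subalgebra K (Matrix (Fin (m + 1)) (Fin (m + 1)) ℂ)} {d : ℕ}
  {b : Fin d → Matrix (Fin (m + 1)) (Fin (m + 1)) ℂ}
  {c : Matrix (Fin (m + 1)) (Fin (m + 1)) ℂ →ₗ[ℂ] (Fin d → ℂ)}

/-- Left multiplication in coordinates. -/
def lm (b : Fin d → Matrix (Fin (m + 1)) (Fin (m + 1)) ℂ)
    (c : Matrix (Fin (m + 1)) (Fin (m + 1)) ℂ →ₗ[ℂ] (Fin d → ℂ))
    (a : Matrix (Fin (m + 1)) (Fin (m + 1)) ℂ) : Matrix (Fin d) (Fin d) ℂ :=
  fun k i => c (a * b i) k

/-- The columns in coordinates. -/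
def pc (c : Matrix (Fin (m + 1)) (Fin (m + 1)) ℂ →ₗ[ℂ] (Fin d → ℂ)) (l : Fin (m + 1)) :
    Matrix (Fin d) (Fin (m + 1)) ℂ :=
  fun i j => c (single j l 1) i

/-- The evaluation at a vector. -/
def ev (b : Fin d → Matrix (Fin (m + 1)) (Fin (m + 1)) ℂ) (u : Fin (m + 1) → ℂ) :
    Matrix (Fin (m + 1)) (Fin d) ℂ :=
  fun j i => (b i *ᵥ u) j

theorem Reg.lm_mulVec (h : Reg K (A : Set _) d b c) (a x : Matrix (Fin (m + 1)) (Fin (m + 1)) ℂ) :
    c (a * x) = lm b c a *ᵥ c x := by
  conv_lhs => rw [← h.exp x]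
  rw [Finset.mul_sum, map_sum]
  ext k
  rw [Finset.sum_apply, mulVec, dotProduct]
  refine Finset.sum_congr rfl fun i _ => ?_
  rw [Matrix.mul_smul, map_smul, Pi.smul_apply, smul_eq_mul, mul_comm]
  rfl

theorem Reg.lm_mem (h : Reg K (A : Set _) d b c) {a : Matrix (Fin (m + 1)) (Fin (m + 1)) ℂ}
    (ha : a ∈ A) (k i : Fin d) : lm b c a k i ∈ K :=
  h.rat _ (A.mul_mem ha (h.mem i)) k

theorem Reg.pc_mul (h : Reg K (A : Set _) d b c) (a : Matrix (Fin (m + 1)) (Fin (m + 1)) ℂ)
    (l : Fin (m + 1)) : pc c l * a = lm b c a * pc c l := by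
  ext i j
  have h1 : a * single j l 1 = ∑ j', a j' j • (single j' l 1 : Matrix _ _ ℂ) := by
    ext p q
    rw [Matrix.sum_apply]
    simp only [Matrix.mul_apply, single_apply, Matrix.smul_apply, smul_eq_mul]
    by_cases hq : l = q
    · simp [hq]
    · simp [hq]
  have h2 := congrFun (h.lm_mulVec a (single j l 1)) i
  rw [h1, map_sum, Finset.sum_apply] at h2
  rw [Matrix.mul_apply, Matrix.mul_apply]
  have h3 : ∑ j', pc c l i j' * a j' j = ∑ j', (c (a j' j • single j' l 1)) i := by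
    refine Finset.sum_congr rfl fun j' _ => ?_
    rw [map_smul, Pi.smul_apply, smul_eq_mul, mul_comm]
    rfl
  rw [h3, h2]
  rfl

theorem Reg.ev_mul (h : Reg K (A : Set _) d b c) (a : Matrix (Fin (m + 1)) (Fin (m + 1)) ℂ)
    (u : Fin (m + 1) → ℂ) : ev b u * lm b c a = a * ev b u := by
  ext j i
  have h1 := congrFun (congrArg (fun X : Matrix (Fin (m + 1)) (Fin (m + 1)) ℂ => X *ᵥ u)
    (h.exp (a * b i))) j
  simp only [Matrix.sum_mulVec, Finset.sum_apply, smul_mulVec, Pi.smul_apply, smul_eq_mul] at h1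
  rw [Matrix.mul_apply, Matrix.mul_apply]
  have h2 : ∑ k, ev b u j k * lm b c a k i = ∑ k, c (a * b i) k * (b k *ᵥ u) j :=
    Finset.sum_congr rfl fun k _ => mul_comm _ _
  rw [h2, h1, ← mulVec_mulVec]
  rfl

theorem Reg.ev_mulVec (h : Reg K (A : Set _) d b c) (x : Matrix (Fin (m + 1)) (Fin (m + 1)) ℂ)
    (u : Fin (m + 1) → ℂ) : ev b u *ᵥ c x = x *ᵥ u := by
  ext j
  have h1 := congrFun (congrArg (fun X : Matrix (Fin (m + 1)) (Fin (m + 1)) ℂ => X *ᵥ u)
    (h.exp x)) j
  simp only [Matrix.sum_mulVec, Finset.sum_apply, smul_mulVec, Pi.smul_apply, smul_eq_mul] at h1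
  rw [← h1, mulVec, dotProduct]
  exact Finset.sum_congr rfl fun k _ => mul_comm _ _

theorem Reg.ev_pc (h : Reg K (A : Set _) d b c) (u : Fin (m + 1) → ℂ) (l : Fin (m + 1)) :
    ev b u * pc c l = u l • 1 := by
  ext i j
  have h1 := congrFun (h.ev_mulVec (single j l 1) u) i
  have h2 : (ev b u * pc c l) i j = (ev b u *ᵥ c (single j l 1)) i := rfl
  rw [h2, h1, Matrix.smul_apply, one_apply, smul_eq_mul, mulVec, dotProduct]
  simp only [single_apply]
  by_cases hij : i = j
  · subst hij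
    simp
  · have hji : ¬ j = i := fun h => hij h.symm
    simp [hij, hji]

/-- The trace of left multiplication. -/
theorem Reg.trace_lm (h : Reg K (A : Set _) d b c) (a : Matrix (Fin (m + 1)) (Fin (m + 1)) ℂ) :
    (lm b c a).trace = (m + 1) * a.trace := by
  have h1 : ∑ l, pc c l * ev b (Pi.single l 1) = 1 := by
    ext i j
    have h2 := congrFun (congrArg c (h.exp (b j))) i
    have hsum : b j = ∑ l, ∑ p, (b j p l) • (single p l 1 : Matrix _ _ ℂ) := by
      ext q r
      simp only [Matrix.sum_apply, Matrix.smul_apply, single_apply, smul_eq_mul]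
      rw [Finset.sum_eq_single r, Finset.sum_eq_single q]
      · simp
      · intro x _ hx
        simp [hx]
      · intro hx
        exact absurd (Finset.mem_univ _) hx
      · intro x _ hx
        refine Finset.sum_eq_zero fun y _ => ?_
        simp [hx]
      · intro hx
        exact absurd (Finset.mem_univ _) hx
    have h3 : c (b j) i = ∑ l, ∑ p, (b j p l) * c (single p l 1) i := by
      conv_lhs => rw [hsum]
      rw [map_sum, Finset.sum_apply]
      refine Finset.sum_congr rfl fun l _ => ?_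
      rw [map_sum, Finset.sum_apply]
      refine Finset.sum_congr rfl fun p _ => ?_
      rw [map_smul, Pi.smul_apply, smul_eq_mul]
    have h4 : c (b j) = Pi.single j 1 := by
      have h5 := h.coord (Pi.single j 1)
      have h6 : ∑ i, (Pi.single j 1 : Fin d → ℂ) i • b i = b j := by
        rw [Finset.sum_eq_single j]
        · rw [Pi.single_eq_same, one_smul]
        · intro x _ hx
          rw [Pi.single_eq_of_ne hx, zero_smul]
        · intro hx
          exact absurd (Finset.mem_univ _) hx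
      rwa [h6] at h5
    rw [Matrix.sum_apply, one_apply]
    have h7 : ∀ l, (pc c l * ev b (Pi.single l 1)) i j = ∑ p, (b j p l) * c (single p l 1) i := by
      intro l
      rw [Matrix.mul_apply]
      refine Finset.sum_congr rfl fun p _ => ?_
      have h8 : ev b (Pi.single l 1) p j = b j p l := by
        show (b j *ᵥ Pi.single l 1) p = b j p l
        rw [mulVec_single_one]
        rfl
      rw [h8, mul_comm]
      rfl
    simp only [h7]
    rw [← h3, h4, Pi.single_apply]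
  calc (lm b c a).trace = (lm b c a * 1).trace := by rw [Matrix.mul_one]
    _ = ∑ l, (lm b c a * (pc c l * ev b (Pi.single l 1))).trace := by
        rw [← h1, Finset.mul_sum, Matrix.trace_sum]
    _ = ∑ l : Fin (m + 1), a.trace := by
        refine Finset.sum_congr rfl fun l _ => ?_
        rw [← Matrix.mul_assoc, ← h.pc_mul, Matrix.mul_assoc, Matrix.trace_mul_comm,
          Matrix.mul_assoc, h.ev_pc, Pi.single_eq_same, one_smul, Matrix.mul_one]
    _ = (m + 1) * a.trace := by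
        rw [Finset.sum_const, Finset.card_univ, Fintype.card_fin, nsmul_eq_mul]
        push_cast
        ring

/-- The traces of the form are in the field. -/
theorem Reg.trace_mem (h : Reg K (A : Set _) d b c) {a : Matrix (Fin (m + 1)) (Fin (m + 1)) ℂ}
    (ha : a ∈ A) : a.trace ∈ K := by
  have h1 := h.trace_lm a
  have h2 : (lm b c a).trace ∈ K := K.sum_mem fun i _ => h.lm_mem ha i i
  have h3 : ((m : ℂ) + 1) ≠ 0 := by
    exact_mod_cast Nat.succ_ne_zero m
  have h4 : a.trace = (lm b c a).trace / ((m : ℂ) + 1) := by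
    rw [h1]
    field_simp
  rw [h4]
  exact K.div_mem h2 (K.add_mem (natCast_mem K m) K.one_mem)

end reg

end Pool.Agent.Lib.MP_5d4057_al.CF
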