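import Pool.Agent.Lib.MP_5d4057_al.CF.Types
import Pool.Agent.Lib.MP_5d4057_al.TW.Slice
import Pool.Agent.Lib.MP_5d4057_al.RC.Fgg
import Pool.Agent.Lib.MP_5d4057_al.RC.Mix
import Pool.Agent.Lib.MP_5d4057_al.RC.Lat
import Pool.Agent.Lib.MP_5d4057_al.RC.WideD

/-!
# CF: the metric on the hyperplane of an arithmetic piece
-/

set_option autoImplicit false

namespace Pool.Agent.Lib.MP_5d4057_al.CF

open Matrix Filter Topology Pool.Agent.Lib.MP_5d4057_al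
  Pool.Agent.Lib.MP_5d4057_al.Hyb Pool.Agent.Lib.MP_5d4057_al.HM Pool.Agent.Lib.MP_5d4057_al.RC
  Pool.Agent.Lib.MP_5d4057_al.TW

open scoped ComplexOrder MatrixOrder Matrix.Norms.L2Operator

variable {m : ℕ}

/-- The metric on the hyperplane, from a metric on it. -/
theorem slice_cf (hm : 1 ≤ m) {Λ : Subgroup (SUGroup m)} (hL : IsLattice Λ) (hR : Rec Λ)
    {g : SUGroup (m + 1)} {G : Subgroup (SUGroup (m + 1))} (hstd : ∀ γ ∈ Λ, emb g γ ∈ G)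
    (t s : ℂ ≃+* ℂ) {E : Mat (m + 1)} (hE : IsUnit E)
    (hEt : ∀ γ ∈ Λ, γ.toMatrix.map t = E * γ.toMatrix.map s * E⁻¹)
    {S : Vec m → Mat (m + 1)} (hS : Harm S) (hSp : Pol fun w => (S w)⁻¹)
    (hSe : Equi (rhoT s Λ) S)
    {F : Vec (m + 1) → Mat (m + 2)} (hF : Harm F) (hFp : Pol F)
    (hFe : Equi (rhoT t G) F) :
    ∃ l a : ℂ, 0 < l ∧ 0 < a ∧ ∀ w ∈ Cone m, F (HM.hyp g w) =
      (g.toMatrix.map t * dsum 1 E) * dsum l (a • S w) *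
        (g.toMatrix.map t * dsum 1 E)ᴴ := by
  have hQu : IsUnit (g.toMatrix.map t * dsum 1 E) := by
    refine (tm_gp_unit t g).mul ?_
    rw [isUnit_iff_isUnit_det, det_dsum, one_mul]
    exact (isUnit_iff_isUnit_det _).1 hE
  refine slice_form_rec hm hR (rhoT s Λ) (span_rhoT _ _ (span_top hm _ hL)) hS hSp hSe hQu
    (hF.hyp g) (hFp.comp_hyp g) ((rhoT t G).comp (embG hstd)) ?_ (equi_hypG hstd hFe)
  intro γ
  rw [rhoT_embG t hstd γ, Matrix.mul_inv_rev, dsum_inv' one_ne_zero hE, inv_one]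
  have h1 : rhoT t Λ γ = E * rhoT s Λ γ * E⁻¹ := hEt γ γ.2
  have h3 : dsum (1 : ℂ) (E * rhoT s Λ γ * E⁻¹) =
      dsum 1 E * dsum 1 (rhoT s Λ γ) * dsum 1 E⁻¹ := by
    rw [dsum_mul, dsum_mul, one_mul, one_mul]
  rw [h1, h3]
  simp only [Matrix.mul_assoc]

/-- The metric on the hyperplane at a place where the piece preserves a definite form. -/
theorem slice_const (hm : 1 ≤ m) {Λ : Subgroup (SUGroup m)} (hL : IsLattice Λ) (hR : Rec Λ)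
    {g : SUGroup (m + 1)} {G : Subgroup (SUGroup (m + 1))} (hstd : ∀ γ ∈ Λ, emb g γ ∈ G)
    (t : ℂ ≃+* ℂ) {Z : Mat (m + 1)} (hZ : Z.PosDef)
    (hZt : ∀ γ ∈ Λ, γ.toMatrix.map t * Z * (γ.toMatrix.map t)ᴴ = Z)
    {F : Vec (m + 1) → Mat (m + 2)} (hF : Harm F) (hFp : Pol F)
    (hFe : Equi (rhoT t G) F) :
    ∃ l a : ℂ, 0 < l ∧ 0 < a ∧ ∀ w ∈ Cone m, F (HM.hyp g w) =
      g.toMatrix.map t * dsum l (a • Z) * (g.toMatrix.map t)ᴴ := by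
  have h := slice_cf hm hL hR hstd t t (E := 1) isUnit_one
    (fun γ _ => by rw [inv_one, Matrix.one_mul, Matrix.mul_one])
    (harm_const hZ) (Pol.const _) (fun γ w _ => (hZt γ γ.2).symm) hF hFp hFe
  obtain ⟨l, a, hl, ha, hFw⟩ := h
  refine ⟨l, a, hl, ha, fun w hw => ?_⟩
  have h1 := hFw w hw
  rwa [dsum_one, Matrix.mul_one] at h1

/-- **The metric on the hyperplane of an arithmetic piece.** -/
theorem piece_slices (hm : 2 ≤ m) {Λ : Subgroup (SUGroup m)} (hL : IsLattice Λ)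
    (hA : IsArith m Λ) :
    ∃ (K : Subfield ℂ) (Λ' : Subgroup (SUGroup m)), IsCM K ∧ Λ' ≤ Λ ∧ Λ'.relIndex Λ ≠ 0 ∧
      IsLattice Λ' ∧ Rec Λ' ∧ IsArith m Λ' ∧ (∀ γ ∈ Λ', γ.toMatrix.trace ∈ K) ∧
      ∀ (g : SUGroup (m + 1)) (G : Subgroup (SUGroup (m + 1))), (∀ γ ∈ Λ', emb g γ ∈ G) →
      ∀ (t : ℂ ≃+* ℂ) (F : Vec (m + 1) → Mat (m + 2)), HarmG F → Equi (rhoT t G) F →
      ((∀ x : K, t (x : ℂ) = x) → ∃ (E : Mat (m + 1)) (l a : ℂ), IsUnit E ∧ 0 < l ∧ 0 < a ∧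
        (∀ γ ∈ Λ', γ.toMatrix.map t = E * γ.toMatrix * E⁻¹) ∧
        ∀ w ∈ Cone m, F (HM.hyp g w) = (g.toMatrix.map t * dsum 1 E) * dsum l (a • std w) *
          (g.toMatrix.map t * dsum 1 E)ᴴ) ∧
      ((∀ x : K, t (x : ℂ) = cj (x : ℂ)) → ∃ (E : Mat (m + 1)) (l a : ℂ), IsUnit E ∧
        0 < l ∧ 0 < a ∧ (∀ γ ∈ Λ', γ.toMatrix.map t = E * γ.toMatrix.map cj * E⁻¹) ∧
        ∀ w ∈ Cone m, F (HM.hyp g w) = (g.toMatrix.map t * dsum 1 E) *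
          dsum l (a • (std w).map cj) * (g.toMatrix.map t * dsum 1 E)ᴴ) ∧
      ((¬ ∀ x : K, t (x : ℂ) = x) → (¬ ∀ x : K, t (x : ℂ) = cj (x : ℂ)) →
        ∃ (Z : Mat (m + 1)) (l a : ℂ), Z.PosDef ∧ 0 < l ∧ 0 < a ∧
        (∀ γ ∈ Λ', γ.toMatrix.map t * Z * (γ.toMatrix.map t)ᴴ = Z) ∧
        ∀ w ∈ Cone m, F (HM.hyp g w) = g.toMatrix.map t * dsum l (a • Z) *
          (g.toMatrix.map t)ᴴ) := by
  obtain ⟨K, Λ', hK, hle, hfin, hA', htr, h⟩ := piece_types hA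
  have hL' := isLattice_of_relIndex hL hle hfin
  have hR' : Rec Λ' := rec_of_lattice hm hL' (fgg_of_isArith hA')
  refine ⟨K, Λ', hK, hle, hfin, hL', hR', hA', htr, fun g G hstd t F hF hFe => ?_⟩
  obtain ⟨h1, h2, h3⟩ := h t
  refine ⟨fun ht => ?_, fun ht => ?_, fun ht ht' => ?_⟩
  · obtain ⟨E, hE, hEt⟩ := h1 ht
    obtain ⟨l, a, hl, ha, hFw⟩ := slice_cf (by omega) hL' hR' hstd t (RingEquiv.refl ℂ) hE
      (fun γ hγ => by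
        rw [hEt γ hγ]
        congr 2)
      harm_std pol_std_inv (equi_std Λ') hF.toHarm hF.gr hFe
    exact ⟨E, l, a, hE, hl, ha, hEt, hFw⟩
  · obtain ⟨E, hE, hEt⟩ := h2 ht
    obtain ⟨l, a, hl, ha, hFw⟩ := slice_cf (by omega) hL' hR' hstd t cj hE hEt
      harm_std.cj pol_std_cj_inv (equi_std_cj Λ') hF.toHarm hF.gr hFe
    exact ⟨E, l, a, hE, hl, ha, hEt, hFw⟩
  · obtain ⟨Z, hZ, hZt⟩ := h3 ht ht'
    obtain ⟨l, a, hl, ha, hFw⟩ := slice_const (by omega) hL' hR' hstd t hZ hZt hF.toHarm hF.gr hFe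
    exact ⟨Z, l, a, hZ, hl, ha, hZt, hFw⟩

end Pool.Agent.Lib.MP_5d4057_al.CF
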