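import Pool.Agent.Lib.MP_5d4057_al.CF.Pol
import Pool.Agent.Lib.MP_5d4057_al.RC.Orth
import Pool.Agent.Lib.MP_5d4057_al.TW.Defs

/-!
# CF: the map `T` of a connected configuration

On the hyperplane of a piece of type S the metric is `N - (2a/q) U v (U v)ᴴ`, and its derivative is
`-q⁻¹ (T pr_v ξ) (U v)ᴴ`. The form `N` and the line of `T` are the same for hyperplanes which meet,
and `T` intertwines the conjugate with the identity up to scalars.
-/

set_option autoImplicit false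

namespace Pool.Agent.Lib.MP_5d4057_al.CF

open Matrix Filter Topology Pool.Agent.Lib.MP_5d4057_al
  Pool.Agent.Lib.MP_5d4057_al.Hyb Pool.Agent.Lib.MP_5d4057_al.HM Pool.Agent.Lib.MP_5d4057_al.RC

open scoped ComplexOrder MatrixOrder Matrix.Norms.L2Operator

variable {m p : ℕ}

/-- The hyperplanes of `g` and `g'` meet in the image of the isometry `j₀`. -/
structure MeetJ (p : ℕ) (g g' : SUGroup (m + 1)) (j₀ : Vec p →ₗ[ℂ] Vec (m + 1)) : Prop where
  hp : 1 ≤ p
  inj : Function.Injective j₀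
  q_eq : ∀ w, q (j₀ w) = q w
  left : ∀ w, ∃ x, j₀ w = HM.hyp g x
  right : ∀ w, ∃ x, j₀ w = HM.hyp g' x

theorem MeetJ.symm {g g' : SUGroup (m + 1)} {j₀ : Vec p →ₗ[ℂ] Vec (m + 1)} (h : MeetJ p g g' j₀) :
    MeetJ p g' g j₀ :=
  ⟨h.hp, h.inj, h.q_eq, h.right, h.left⟩

theorem q_hyp (g : SUGroup (m + 1)) (w : Vec m) : q (HM.hyp g w) = q w := by
  rw [hyp_apply, q_act, q_inc]

/-- The values of the metric on a hyperplane of type S. -/
structure Sval (F : Vec (m + 1) → Mat (m + 2)) (g : SUGroup (m + 1)) (N U : Mat (m + 2)) (a : ℂ) :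
    Prop where
  ha : 0 < a
  unit : IsUnit U
  nu : IsUnit N
  nh : Nᴴ = N
  val : ∀ w ∈ Cone m, (q w : ℂ) • F (HM.hyp g w) = (q w : ℂ) • N -
    (2 * a) • vecMulVec (U *ᵥ HM.hyp g w) (star (U *ᵥ HM.hyp g w))

theorem mulVec_inj_of_unit {n : ℕ} {U : Mat n} (hU : IsUnit U) {x y : Fin n → ℂ}
    (h : U *ᵥ x = U *ᵥ y) : x = y := by
  have e1 : U⁻¹ * U = 1 := nonsing_inv_mul _ ((isUnit_iff_isUnit_det _).1 hU)
  have h1 := congrArg (fun v => U⁻¹ *ᵥ v) h
  simp only [mulVec_mulVec, e1, one_mulVec] at h1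
  exact h1

theorem star_pos' {z : ℂ} (hz : 0 < z) : star z = z := by
  rw [Complex.star_def, Complex.conj_eq_iff_im]
  exact (Complex.lt_def.1 hz).2.symm

theorem Sval.of_slice {F : Vec (m + 1) → Mat (m + 2)} {g : SUGroup (m + 1)} {Q : Mat (m + 2)}
    (hQ : IsUnit Q) {l a : ℂ} (hl : 0 < l) (ha : 0 < a)
    (h : ∀ w ∈ Cone m, F (HM.hyp g w) = Q * dsum l (a • std w) * Qᴴ) :
    Sval F g (Q * dsum l (a • J m) * Qᴴ) (Q * (g⁻¹).toMatrix) a := by
  have hQ' : IsUnit Qᴴ := (isUnit_conjTranspose Q).2 hQ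
  have hJu : dsum l (a • J m) * dsum l⁻¹ (a⁻¹ • J m) = 1 := by
    rw [dsum_mul, Matrix.smul_mul, Matrix.mul_smul, J_J, smul_smul, mul_inv_cancel₀ hl.ne',
      mul_inv_cancel₀ ha.ne', one_smul, dsum_one]
  refine ⟨ha, ?_, ?_, ?_, ?_⟩
  · refine hQ.mul ?_
    exact IsUnit.of_mul_eq_one _ (toMatrix_inv_mul g)
  · exact (hQ.mul (IsUnit.of_mul_eq_one _ hJu)).mul hQ'
  · rw [conjTranspose_mul, conjTranspose_mul, conjTranspose_conjTranspose, dsum_conjTranspose,
      conjTranspose_smul, J_herm, star_pos' hl, star_pos' ha, Matrix.mul_assoc]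
  · intro w hw
    have hq := q_ne hw
    have h1 : (Q * (g⁻¹).toMatrix) *ᵥ HM.hyp g w = Q *ᵥ inc m w := by
      rw [hyp_apply, act, ← mulVec_mulVec]
      congr 1
      rw [mulVec_mulVec, toMatrix_inv_mul, one_mulVec]
    have h2 : (q w : ℂ) • dsum l (a • std w) = (q w : ℂ) • dsum l (a • J m) -
        (2 * a) • vecMulVec (inc m w) (star (inc m w)) := by
      rw [← dsum_zero_vm, ← smul_dsum_zero, smul_dsum, smul_dsum, std]
      ext i j
      refine Fin.cases ?_ (fun i => ?_) i <;> refine Fin.cases ?_ (fun j => ?_) j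
      · simp
      · simp
      · simp
      · rw [Matrix.sub_apply, dsum_succ_succ, dsum_succ_succ, dsum_succ_succ]
        simp only [Matrix.smul_apply, Matrix.add_apply, smul_eq_mul]
        field_simp
        ring
    rw [h w hw, h1, ← Matrix.smul_mul, ← Matrix.mul_smul, h2, Matrix.mul_sub, Matrix.sub_mul,
      Matrix.mul_smul, Matrix.smul_mul, Matrix.mul_smul, Matrix.smul_mul, mul_vecMulVec,
      vecMulVec_mul, ← star_mulVec]

section

variable {F : Vec (m + 1) → Mat (m + 2)} {g g' s : SUGroup (m + 1)} {N U N' U' T T' A : Mat (m + 2)}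
  {a a' : ℂ} {j₀ : Vec p →ₗ[ℂ] Vec (m + 1)}

/-- Two hyperplanes of type S which meet. -/
theorem Sval.two (S : Sval F g N U a) (S' : Sval F g' N' U' a') (M : MeetJ p g g' j₀) :
    N = N' ∧ ∃ c : ℂ, c ≠ 0 ∧ (∀ w, U *ᵥ j₀ w = c • (U' *ᵥ j₀ w)) ∧ a * (c * star c) = a' := by
  have h := polar (R := N - N') (j := U.mulVecLin.comp j₀) (j' := U'.mulVecLin.comp j₀) (a := a)
    (a' := a') M.hp (fun x y hxy => M.inj (mulVec_inj_of_unit S'.unit hxy)) S.ha.ne' S'.ha.ne' (by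
      intro w hw
      obtain ⟨x, hx⟩ := M.left w
      obtain ⟨x', hx'⟩ := M.right w
      have hqx : q x = q w := by rw [← q_hyp g, ← hx, M.q_eq]
      have hqx' : q x' = q w := by rw [← q_hyp g', ← hx', M.q_eq]
      have hx1 : x ∈ Cone m := by
        show q x < 0
        rw [hqx]
        exact hw
      have hx1' : x' ∈ Cone m := by
        show q x' < 0
        rw [hqx']
        exact hw
      have h1 := S.val x hx1
      have h2 := S'.val x' hx1'
      rw [hqx, ← hx] at h1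
      rw [hqx', ← hx'] at h2
      rw [h1] at h2
      show _ = (2 * a) • vecMulVec (U *ᵥ j₀ w) (star (U *ᵥ j₀ w)) -
        (2 * a') • vecMulVec (U' *ᵥ j₀ w) (star (U' *ᵥ j₀ w))
      rw [smul_sub]
      have h3 := congrArg (fun X => X + (2 * a) • vecMulVec (U *ᵥ j₀ w) (star (U *ᵥ j₀ w)) -
        (q w : ℂ) • N') h2
      simp only [sub_add_cancel] at h3
      rw [h3]
      abel)
  obtain ⟨h1, c, hc0, hc, hca⟩ := h
  exact ⟨sub_eq_zero.1 h1, c, hc0, fun w => hc w, hca⟩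

/-- The elements which preserve a hyperplane of type S. -/
theorem Sval.equi (hm : 1 ≤ m) (S : Sval F g N U a)
    (hs : ∀ w, ∃ w', act s (HM.hyp g w) = HM.hyp g w')
    (hF : ∀ v ∈ Cone (m + 1), F (act s v) = A * F v * Aᴴ) :
    A * N * Aᴴ = N ∧ ∃ α : ℂ, α * star α = 1 ∧
      ∀ w, A *ᵥ (U *ᵥ HM.hyp g w) = α • (U *ᵥ act s (HM.hyp g w)) := by
  obtain ⟨hl, hhl⟩ : ∃ hl : Vec m →ₗ[ℂ] Vec (m + 1), hl = (HM.hyp g).toLinearMap := ⟨_, rfl⟩
  have hhl' : ∀ w, hl w = HM.hyp g w := fun w => by rw [hhl]; rfl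
  have hinj : ∀ x y, HM.hyp g x = HM.hyp g y → x = y := by
    intro x y hxy
    rw [hyp_apply, hyp_apply] at hxy
    have h1 := congrArg (act g⁻¹) hxy
    rw [← act_mul, ← act_mul, inv_mul_cancel, act_one, act_one] at h1
    funext i
    have h2 := congrFun h1 i.succ
    rwa [inc_succ, inc_succ] at h2
  have hacti : ∀ x y, act s x = act s y → x = y := by
    intro x y hxy
    have h1 := congrArg (act s⁻¹) hxy
    rwa [← act_mul, ← act_mul, inv_mul_cancel, act_one, act_one] at h1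
  have h := polar (R := A * N * Aᴴ - N) (j := (A * U).mulVecLin.comp hl)
    (j' := (U * s.toMatrix).mulVecLin.comp hl) (a := a)
    (a' := a) hm (fun x y hxy => by
      have h1 : (U * s.toMatrix) *ᵥ hl x = (U * s.toMatrix) *ᵥ hl y := hxy
      rw [← mulVec_mulVec, ← mulVec_mulVec, hhl', hhl'] at h1
      exact hinj _ _ (hacti _ _ (mulVec_inj_of_unit S.unit h1))) S.ha.ne' S.ha.ne' (by
      intro w hw
      obtain ⟨w', hw'⟩ := hs w
      have hqx : q w' = q w := by rw [← q_hyp g, ← hw', q_act, q_hyp]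
      have hx1 : w' ∈ Cone m := by
        show q w' < 0
        rw [hqx]
        exact hw
      have h1 := S.val w hw
      have h2 := S.val w' hx1
      rw [hqx, ← hw', hF _ (hyp_mem g hw)] at h2
      have h3 : (q w : ℂ) • (A * F (HM.hyp g w) * Aᴴ) = (q w : ℂ) • (A * N * Aᴴ) -
          (2 * a) • vecMulVec (A *ᵥ (U *ᵥ HM.hyp g w)) (star (A *ᵥ (U *ᵥ HM.hyp g w))) := by
        rw [← Matrix.smul_mul, ← Matrix.mul_smul, h1, Matrix.mul_sub, Matrix.sub_mul,
          Matrix.mul_smul, Matrix.smul_mul, Matrix.mul_smul, Matrix.smul_mul, mul_vecMulVec,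
          vecMulVec_mul, ← star_mulVec]
      rw [h3] at h2
      show _ = (2 * a) • vecMulVec ((A * U) *ᵥ hl w) (star ((A * U) *ᵥ hl w)) -
        (2 * a) • vecMulVec ((U * s.toMatrix) *ᵥ hl w) (star ((U * s.toMatrix) *ᵥ hl w))
      rw [hhl', ← mulVec_mulVec, ← mulVec_mulVec, smul_sub]
      have h4 := congrArg (fun X => X +
        (2 * a) • vecMulVec (A *ᵥ (U *ᵥ HM.hyp g w)) (star (A *ᵥ (U *ᵥ HM.hyp g w))) -
        (q w : ℂ) • N) h2
      simp only [sub_add_cancel] at h4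
      rw [h4]
      show _ = _ - (2 * a) • vecMulVec (U *ᵥ act s (HM.hyp g w)) (star (U *ᵥ act s (HM.hyp g w)))
      abel)
  obtain ⟨h1, c, hc0, hc, hca⟩ := h
  refine ⟨sub_eq_zero.1 h1, c, ?_, fun w => ?_⟩
  · have h2 : a * (c * star c) = a * 1 := by rw [hca, mul_one]
    exact mul_left_cancel₀ S.ha.ne' h2
  · have h2 : (A * U) *ᵥ hl w = c • ((U * s.toMatrix) *ᵥ hl w) := hc w
    rw [hhl', ← mulVec_mulVec, ← mulVec_mulVec] at h2
    exact h2

/-- The values and the derivatives of the metric on a hyperplane of type S. -/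
structure Sder (F : Vec (m + 1) → Mat (m + 2)) (g : SUGroup (m + 1)) (N U : Mat (m + 2)) (a : ℂ)
    (T : Mat (m + 2)) : Prop extends Sval F g N U a where
  tu : ∀ w, T *ᵥ HM.hyp g w = (2 * a) • (U *ᵥ HM.hyp g w)
  ker : ∀ x, T *ᵥ x = 0 → ∃ c : ℂ, x = c • act g (nrm m)
  der : ∀ w ∈ Cone m, ∀ ξ, pz F (HM.hyp g w) ξ =
    (-(q w : ℂ)⁻¹) • vecMulVec (T *ᵥ prj (HM.hyp g w) ξ) (star (U *ᵥ HM.hyp g w))

theorem vecMulVec_right_cancel {n : ℕ} {x x' y : Fin n → ℂ} (hy : y ≠ 0)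
    (h : vecMulVec x (star y) = vecMulVec x' (star y)) : x = x' := by
  obtain ⟨i, hi⟩ := Function.ne_iff.1 hy
  funext k
  have h1 := congrFun (congrFun h k) i
  rw [vecMulVec_apply, vecMulVec_apply, Pi.star_apply] at h1
  exact mul_right_cancel₀ (star_ne_zero.2 hi) h1

/-- Two matrices which agree on a vector and on its orthogonal complement. -/
theorem ext_prj {n : ℕ} {v : Vec n} {X Y : Mat (n + 1)} (h1 : X *ᵥ v = Y *ᵥ v)
    (h2 : ∀ ξ, X *ᵥ prj v ξ = Y *ᵥ prj v ξ) : X = Y := by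
  have h3 : ∀ ξ, X *ᵥ ξ = Y *ᵥ ξ := by
    intro ξ
    have h4 : ξ = prj v ξ + (herm v ξ * (q v : ℂ)⁻¹) • v := by
      rw [prj, sub_add_cancel]
    rw [h4, mulVec_add, mulVec_add, h2, mulVec_smul, mulVec_smul, h1]
  ext i k
  have h5 := congrFun (h3 (Pi.single k 1)) i
  rwa [mulVec_single_one, mulVec_single_one] at h5

/-- The maps `T` of two hyperplanes of type S which meet are proportional. -/
theorem Sder.two (S : Sder F g N U a T) (S' : Sder F g' N' U' a' T') (M : MeetJ p g g' j₀) :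
    ∃ c : ℂ, c ≠ 0 ∧ T' = c • T := by
  obtain ⟨-, c, hc0, hc, hca⟩ := S.toSval.two S'.toSval M
  have hb := base_mem p
  obtain ⟨x, hx⟩ := M.left (base p)
  obtain ⟨x', hx'⟩ := M.right (base p)
  have hqx : q x = q (base p) := by rw [← q_hyp g, ← hx, M.q_eq]
  have hqx' : q x' = q (base p) := by rw [← q_hyp g', ← hx', M.q_eq]
  have hx1 : x ∈ Cone m := by
    show q x < 0
    rw [hqx]
    exact hb
  have hx1' : x' ∈ Cone m := by
    show q x' < 0
    rw [hqx']
    exact hb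
  have hq0 : (q (base p) : ℂ) ≠ 0 := q_ne hb
  have hd := S.der x hx1
  have hd' := S'.der x' hx1'
  have ht := S.tu x
  have ht' := S'.tu x'
  rw [← hx] at hd ht
  rw [← hx'] at hd' ht'
  rw [hqx] at hd
  rw [hqx'] at hd'
  have hU := hc (base p)
  have hj0 : j₀ (base p) ≠ 0 := by
    intro h0
    have h1 := M.q_eq (base p)
    rw [h0] at h1
    have h2 : q (base p) < 0 := hb
    rw [← h1, q, herm, mulVec_zero, dotProduct_zero] at h2
    exact lt_irrefl _ h2
  have hU0 : U' *ᵥ j₀ (base p) ≠ 0 := by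
    intro h0
    apply hj0
    refine mulVec_inj_of_unit S'.unit ?_
    rw [h0, mulVec_zero]
  refine ⟨star c, star_ne_zero.2 hc0, (ext_prj (v := j₀ (base p)) ?_ fun ξ => ?_).symm⟩
  · rw [smul_mulVec, ht, ht', hU, smul_smul, smul_smul]
    congr 1
    linear_combination 2 * hca
  · have h1 := hd ξ
    rw [hd' ξ] at h1
    have h2 : -((q (base p) : ℂ))⁻¹ ≠ 0 := neg_ne_zero.2 (inv_ne_zero hq0)
    have h3 := smul_right_injective _ h2 h1
    rw [hU, star_smul, Matrix.vecMulVec_smul, ← Matrix.smul_vecMulVec] at h3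
    rw [smul_mulVec]
    exact (vecMulVec_right_cancel hU0 h3).symm

/-- The map `T` is invertible if there are two different hyperplanes. -/
theorem unit_of_two (S : Sder F g N U a T) (S' : Sder F g' N' U' a' T') {c : ℂ}
    (hT : T' = c • T) (hne : ∀ ζ : ℂ, act g' (nrm m) ≠ ζ • act g (nrm m)) : IsUnit T := by
  rw [isUnit_iff_isUnit_det, isUnit_iff_ne_zero]
  intro hd
  obtain ⟨x, hx, hTx⟩ := Matrix.exists_mulVec_eq_zero_iff.2 hd
  obtain ⟨d, hd1⟩ := S.ker x hTx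
  obtain ⟨d', hd2⟩ := S'.ker x (by rw [hT, smul_mulVec, hTx, smul_zero])
  have hd'0 : d' ≠ 0 := by
    rintro rfl
    rw [zero_smul] at hd2
    exact hx hd2
  refine hne (d'⁻¹ * d) ?_
  rw [← smul_smul, ← hd1, hd2, smul_smul, inv_mul_cancel₀ hd'0, one_smul]

/-- The map `T` intertwines, up to a scalar. -/
theorem Sder.equi (hm : 1 ≤ m) (S : Sder F g N U a T) (hFd : ∀ v ∈ Cone (m + 1),
      DifferentiableAt ℝ F v)
    (hs : ∀ w, ∃ w', act s (HM.hyp g w) = HM.hyp g w')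
    (hF : ∀ v ∈ Cone (m + 1), F (act s v) = A * F v * Aᴴ) :
    ∃ α : ℂ, A * T = α • (T * s.toMatrix) ∧ (A * U = U * s.toMatrix → α = 1) := by
  obtain ⟨-, α, hα, hAU⟩ := S.toSval.equi hm hs hF
  have hb := base_mem m
  have hv := hyp_mem g hb
  obtain ⟨v, hvd⟩ : ∃ v, v = HM.hyp g (base m) := ⟨_, rfl⟩
  obtain ⟨w', hw'⟩ := hs (base m)
  have hqw : q w' = q (base m) := by rw [← q_hyp g, ← hw', q_act, q_hyp]
  have hw1 : w' ∈ Cone m := by
    show q w' < 0
    rw [hqw]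
    exact hb
  have hd := S.der _ hb
  have hd' := S.der _ hw1
  have ht := S.tu (base m)
  have ht' := S.tu w'
  rw [← hw', ← hvd] at hd' ht'
  rw [hqw] at hd'
  have hAv := hAU (base m)
  rw [← hvd] at hd ht hAv hv
  have hv0 : v ≠ 0 := by
    intro h0
    have h2 : q v < 0 := hv
    rw [h0, q, herm, mulVec_zero, dotProduct_zero] at h2
    exact lt_irrefl _ h2
  have hsv0 : act s v ≠ 0 := by
    intro h0
    have h1 := congrArg (act s⁻¹) h0
    rw [← act_mul, inv_mul_cancel, act_one, act, mulVec_zero] at h1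
    exact hv0 h1
  have hUs0 : U *ᵥ act s v ≠ 0 := by
    intro h0
    apply hsv0
    refine mulVec_inj_of_unit S.unit ?_
    rw [h0, mulVec_zero]
  have hq0 : (q (base m) : ℂ) ≠ 0 := q_ne hb
  -- equivariance of the derivative
  have hpz : ∀ ξ, pz F (act s v) (act s ξ) = A * pz F v ξ * Aᴴ := by
    intro ξ
    have h1 : HasZ (fun u => F (actC s u)) v ξ _ _ :=
      (hasZ (hFd _ (act_mem s hv)) (actC s ξ)).comp_lin (actC s)
    have h2 : HasZ (fun u => A * F u * Aᴴ) v ξ _ _ :=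
      (hasZ (hFd _ hv) ξ).clm (ContinuousLinearMap.mulLeftRight ℂ (Mat (m + 2)) A Aᴴ)
    have h3 : (fun u => F (actC s u)) =ᶠ[𝓝 v] fun u => A * F u * Aᴴ := by
      filter_upwards [mem_nhds_cone hv] with u hu
      exact hF u hu
    have h4 := pz_congr h3 ξ
    rw [h1.pz, h2.pz] at h4
    exact h4
  have hprj : ∀ ξ, prj (act s v) (act s ξ) = act s (prj v ξ) := by
    intro ξ
    rw [prj, prj, herm_act, q_act, act, act, act, mulVec_sub, mulVec_smul]
  refine ⟨α, ?_, ?_⟩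
  · refine ext_prj (v := v) ?_ fun ξ => ?_
    · rw [smul_mulVec, ← mulVec_mulVec, ← mulVec_mulVec]
      show A *ᵥ (T *ᵥ v) = α • (T *ᵥ act s v)
      rw [ht, ht', mulVec_smul, hAv, smul_comm]
    · have h1 := hpz ξ
      rw [hd' (act s ξ), hd ξ, hprj, Matrix.mul_smul, Matrix.smul_mul, mul_vecMulVec,
        vecMulVec_mul, ← star_mulVec, hAv, star_smul, Matrix.vecMulVec_smul] at h1
      have h2 : -((q (base m) : ℂ))⁻¹ ≠ 0 := neg_ne_zero.2 (inv_ne_zero hq0)
      have h5 : vecMulVec (T *ᵥ act s (prj v ξ)) (star (U *ᵥ act s v)) =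
          vecMulVec (star α • (A *ᵥ (T *ᵥ prj v ξ))) (star (U *ᵥ act s v)) := by
        rw [Matrix.smul_vecMulVec]
        exact smul_right_injective _ h2 h1
      have h3 := vecMulVec_right_cancel hUs0 h5
      rw [smul_mulVec, ← mulVec_mulVec, ← mulVec_mulVec]
      show A *ᵥ (T *ᵥ prj v ξ) = α • (T *ᵥ act s (prj v ξ))
      rw [h3, smul_smul, hα, one_smul]
  · intro hAUs
    have h1 : A *ᵥ (U *ᵥ v) = U *ᵥ act s v := by
      rw [mulVec_mulVec, hAUs, ← mulVec_mulVec]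
      rfl
    rw [h1] at hAv
    have h2 : (1 - α) • (U *ᵥ act s v) = 0 := by
      rw [sub_smul, one_smul, ← hAv, sub_self]
    have h3 := (smul_eq_zero.1 h2).resolve_right hUs0
    exact (sub_eq_zero.1 h3).symm

theorem act_inv_act {n : ℕ} (x : SUGroup n) (v : Vec n) : act x⁻¹ (act x v) = v := by
  rw [← act_mul, inv_mul_cancel, act_one]

theorem act_act_inv {n : ℕ} (x : SUGroup n) (v : Vec n) : act x (act x⁻¹ v) = v := by
  rw [← act_mul, mul_inv_cancel, act_one]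

theorem hyp_mul (x g : SUGroup (m + 1)) (w : Vec m) :
    HM.hyp (x * g) w = act x (HM.hyp g w) := by
  rw [hyp_apply, hyp_apply, act_mul]

/-- The values on a translate. -/
theorem Sval.trans (S : Sval F g N U a) (hA : IsUnit A)
    (hF : ∀ v ∈ Cone (m + 1), F (act s v) = A * F v * Aᴴ) :
    Sval F (s * g) (A * N * Aᴴ) (A * U * (s⁻¹).toMatrix) a := by
  refine ⟨S.ha, (hA.mul S.unit).mul (IsUnit.of_mul_eq_one _ (toMatrix_inv_mul s)),
    (hA.mul S.nu).mul ((isUnit_conjTranspose A).2 hA), ?_, ?_⟩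
  · rw [conjTranspose_mul, conjTranspose_mul, conjTranspose_conjTranspose, S.nh, Matrix.mul_assoc]
  · intro w hw
    have h1 : (A * U * (s⁻¹).toMatrix) *ᵥ HM.hyp (s * g) w = A *ᵥ (U *ᵥ HM.hyp g w) := by
      rw [hyp_mul, ← mulVec_mulVec, ← mulVec_mulVec]
      congr 2
      exact act_inv_act s _
    rw [h1, hyp_mul, hF _ (hyp_mem g hw), ← Matrix.smul_mul, ← Matrix.mul_smul, S.val w hw,
      Matrix.mul_sub, Matrix.sub_mul, Matrix.mul_smul, Matrix.smul_mul, Matrix.mul_smul,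
      Matrix.smul_mul, mul_vecMulVec, vecMulVec_mul, ← star_mulVec]

/-- The values and the derivatives on a translate. -/
theorem Sder.trans (S : Sder F g N U a T) (hA : IsUnit A)
    (hFd : ∀ v ∈ Cone (m + 1), DifferentiableAt ℝ F v)
    (hF : ∀ v ∈ Cone (m + 1), F (act s v) = A * F v * Aᴴ) :
    Sder F (s * g) (A * N * Aᴴ) (A * U * (s⁻¹).toMatrix) a (A * T * (s⁻¹).toMatrix) := by
  have hT : ∀ y, (A * T * (s⁻¹).toMatrix) *ᵥ y = A *ᵥ (T *ᵥ act s⁻¹ y) := by
    intro y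
    rw [← mulVec_mulVec, ← mulVec_mulVec]
    rfl
  have hU : ∀ y, (A * U * (s⁻¹).toMatrix) *ᵥ y = A *ᵥ (U *ᵥ act s⁻¹ y) := by
    intro y
    rw [← mulVec_mulVec, ← mulVec_mulVec]
    rfl
  refine { toSval := S.toSval.trans hA hF, tu := ?_, ker := ?_, der := ?_ }
  · intro w
    rw [hT, hU, hyp_mul, act_inv_act, S.tu, mulVec_smul]
  · intro y hy
    rw [hT] at hy
    have h1 : T *ᵥ act s⁻¹ y = 0 := by
      refine mulVec_inj_of_unit hA ?_
      rw [hy, mulVec_zero]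
    obtain ⟨c, hc⟩ := S.ker _ h1
    refine ⟨c, ?_⟩
    have h2 := congrArg (act s) hc
    rw [act_act_inv, act_smul, ← act_mul] at h2
    exact h2
  · intro w hw ξ
    have hv := hyp_mem g hw
    obtain ⟨v, hvd⟩ : ∃ v, v = HM.hyp g w := ⟨_, rfl⟩
    have hd := S.der w hw (act s⁻¹ ξ)
    rw [← hvd] at hd hv
    rw [hT, hU, hyp_mul, ← hvd, act_inv_act]
    have h1 : HasZ (fun u => F (actC s u)) v (act s⁻¹ ξ) _ _ :=
      (hasZ (hFd _ (act_mem s hv)) (actC s (act s⁻¹ ξ))).comp_lin (actC s)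
    have h2 : HasZ (fun u => A * F u * Aᴴ) v (act s⁻¹ ξ) _ _ :=
      (hasZ (hFd _ hv) (act s⁻¹ ξ)).clm
        (ContinuousLinearMap.mulLeftRight ℂ (Mat (m + 2)) A Aᴴ)
    have h3 : (fun u => F (actC s u)) =ᶠ[𝓝 v] fun u => A * F u * Aᴴ := by
      filter_upwards [mem_nhds_cone hv] with u hu
      exact hF u hu
    have h4 := pz_congr h3 (act s⁻¹ ξ)
    rw [h1.pz, h2.pz] at h4
    have h5 : pz F (act s v) (act s (act s⁻¹ ξ)) = A * pz F v (act s⁻¹ ξ) * Aᴴ := h4
    have h6 : act s⁻¹ (prj (act s v) ξ) = prj v (act s⁻¹ ξ) := by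
      have h7 : herm (act s v) ξ = herm v (act s⁻¹ ξ) := by
        conv_lhs => rw [← act_act_inv s ξ]
        rw [herm_act]
      rw [prj, prj, q_act, h7, act, act, mulVec_sub, mulVec_smul]
      congr 2
      exact act_inv_act s v
    rw [act_act_inv] at h5
    rw [h5, hd, h6, Matrix.mul_smul, Matrix.smul_mul, mul_vecMulVec, vecMulVec_mul, ← star_mulVec]

end

end Pool.Agent.Lib.MP_5d4057_al.CF
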