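import Pool.Agent.Lib.MP_5d4057_al.CF.Reg
import Pool.Agent.Lib.MP_5d4057_al.HM.AppEmb

/-!
# CF: the conjugates of an arithmetic group

For an automorphism `t` of `ℂ` and an arithmetic group `Λ` over the CM field `K`: if `t` is the
identity on `K` then `t` is inner on a subgroup of finite index, if `t` is conjugation on `K` then it
is conjugation up to an inner automorphism, otherwise the conjugate preserves a definite form.
-/

set_option autoImplicit false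

namespace Pool.Agent.Lib.MP_5d4057_al.CF

open Matrix Pool.Agent.Lib.MP_5d4057_al Pool.Agent.Lib.MP_5d4057_al.Hyb
  Pool.Agent.Lib.MP_5d4057_al.HM

open scoped ComplexOrder

variable {m : ℕ} {K : Subfield ℂ}

section reg

variable {A : Subalgebra K (Matrix (Fin (m + 1)) (Fin (m + 1)) ℂ)} {d : ℕ}
  {b : Fin d → Matrix (Fin (m + 1)) (Fin (m + 1)) ℂ}
  {c : Matrix (Fin (m + 1)) (Fin (m + 1)) ℂ →ₗ[ℂ] (Fin d → ℂ)}

theorem map_mul' {p q r : ℕ} (t : ℂ ≃+* ℂ) (X : Matrix (Fin p) (Fin q) ℂ)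
    (Y : Matrix (Fin q) (Fin r) ℂ) : (X * Y).map t = X.map t * Y.map t :=
  Matrix.map_mul (f := t.toRingHom)

theorem Reg.pc_map (h : Reg K (A : Set _) d b c) (t : ℂ ≃+* ℂ)
    (a : Matrix (Fin (m + 1)) (Fin (m + 1)) ℂ) (l : Fin (m + 1)) :
    (pc c l).map t * a.map t = (lm b c a).map t * (pc c l).map t := by
  rw [← map_mul', ← map_mul', h.pc_mul]

/-- An automorphism which fixes `K` is inner on `A`. -/
theorem Reg.inner (h : Reg K (A : Set _) d b c) (t : ℂ ≃+* ℂ) (ht : ∀ x : K, t (x : ℂ) = x) :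
    ∃ E : Matrix (Fin (m + 1)) (Fin (m + 1)) ℂ, IsUnit E ∧ ∀ a ∈ A, a.map t = E * a * E⁻¹ := by
  obtain ⟨P, hP⟩ : ∃ P, P = (pc c (0 : Fin (m + 1))).map t := ⟨_, rfl⟩
  have hPa : ∀ a ∈ A, P * a.map t = lm b c a * P := by
    intro a ha
    rw [hP, h.pc_map]
    congr 1
    ext i j
    exact ht ⟨_, h.lm_mem ha i j⟩
  -- a left inverse of `P`
  have hev : ∃ L : Matrix (Fin (m + 1)) (Fin d) ℂ, L * P = 1 := by
    refine ⟨(ev b (Pi.single 0 1)).map t, ?_⟩
    rw [hP, ← map_mul', h.ev_pc, Pi.single_eq_same, one_smul]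
    exact Matrix.map_one t (map_zero t) (map_one t)
  obtain ⟨L, hL⟩ := hev
  obtain ⟨e, he⟩ : ∃ e : Fin (m + 1) → ℂ, e = Pi.single 0 1 := ⟨_, rfl⟩
  have hv : P *ᵥ e ≠ 0 := by
    intro h0
    have h1 : L *ᵥ (P *ᵥ e) = e := by rw [mulVec_mulVec, hL, one_mulVec]
    rw [h0, mulVec_zero, he] at h1
    have h2 := congrFun h1 0
    simp at h2
  obtain ⟨X, hX⟩ : ∃ X, X = ∑ i, (P *ᵥ e) i • b i := ⟨_, rfl⟩
  have hcX : c X = P *ᵥ e := by rw [hX]; exact h.coord _
  have hX0 : X ≠ 0 := by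
    intro h0
    rw [h0, map_zero] at hcX
    exact hv hcX.symm
  obtain ⟨u, hu⟩ : ∃ u, X *ᵥ u ≠ 0 := by
    by_contra hcon
    push Not at hcon
    apply hX0
    ext i j
    have h1 := congrFun (hcon (Pi.single j 1)) i
    rwa [mulVec_single_one] at h1
  obtain ⟨E', hE'⟩ : ∃ E', E' = ev b u * P := ⟨_, rfl⟩
  have hE'e : E' *ᵥ e ≠ 0 := by
    rw [hE', ← mulVec_mulVec, ← hcX, h.ev_mulVec]
    exact hu
  have hE'a : ∀ a ∈ A, E' * a.map t = a * E' := by
    intro a ha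
    rw [hE', Matrix.mul_assoc, hPa a ha, ← Matrix.mul_assoc, h.ev_mul, Matrix.mul_assoc]
  have hdet : E'.det ≠ 0 := by
    intro hd
    obtain ⟨w, hw, hEw⟩ := Matrix.exists_mulVec_eq_zero_iff.2 hd
    obtain ⟨j, hj⟩ := Function.ne_iff.1 hw
    apply hE'e
    obtain ⟨M, hM⟩ : ∃ M : Matrix (Fin (m + 1)) (Fin (m + 1)) ℂ, M = single 0 j (w j)⁻¹ :=
      ⟨_, rfl⟩
    have hMw : M *ᵥ w = e := by
      rw [hM, he]
      ext i
      rw [mulVec, dotProduct]
      simp only [single_apply]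
      by_cases hi : 0 = i
      · subst hi
        simp only [true_and, ite_mul, zero_mul, Pi.single_eq_same]
        rw [Finset.sum_ite_eq]
        simp only [Finset.mem_univ, if_true]
        exact inv_mul_cancel₀ hj
      · have : i ≠ 0 := fun h => hi h.symm
        simp [hi, this]
    have hexp : M = ∑ i, t (c (M.map t.symm) i) • (b i).map t := by
      have h1 := congrArg (fun Y : Matrix (Fin (m + 1)) (Fin (m + 1)) ℂ => Y.map t)
        (h.exp (M.map t.symm))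
      have h2 : (M.map t.symm).map t = M := by
        ext i j
        simp [Matrix.map_apply]
      simp only [h2] at h1
      rw [← h1]
      ext i j
      simp only [Matrix.map_apply, Matrix.sum_apply, Matrix.smul_apply, smul_eq_mul, map_sum,
        map_mul]
      rw [h1]
    rw [← hMw, hexp, Matrix.sum_mulVec, Matrix.mulVec_sum]
    refine Finset.sum_eq_zero fun i _ => ?_
    rw [smul_mulVec, mulVec_smul, mulVec_mulVec, hE'a _ (h.mem i), ← mulVec_mulVec, hEw,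
      mulVec_zero, smul_zero]
  have hu' : IsUnit E'.det := isUnit_iff_ne_zero.2 hdet
  refine ⟨E'⁻¹, isUnit_nonsing_inv_iff.2 ((isUnit_iff_isUnit_det _).2 hu'), fun a ha => ?_⟩
  rw [nonsing_inv_nonsing_inv _ hu', Matrix.mul_assoc, ← hE'a a ha, ← Matrix.mul_assoc,
    nonsing_inv_mul _ hu', Matrix.one_mul]

/-- The Gram matrix of the trace form. -/
noncomputable def rgram (b : Fin d → Matrix (Fin (m + 1)) (Fin (m + 1)) ℂ) :
    Matrix (Fin d) (Fin d) ℂ :=
  fun i j => (adjoint m (b i) * b j).trace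

theorem adjoint_smul' (z : ℂ) (a : Matrix (Fin (m + 1)) (Fin (m + 1)) ℂ) :
    adjoint m (z • a) = star z • adjoint m a := by
  rw [adjoint, conjTranspose_smul, Matrix.mul_smul, Matrix.smul_mul, adjoint]

theorem adjoint_sum' {ι : Type} (s : Finset ι) (f : ι → Matrix (Fin (m + 1)) (Fin (m + 1)) ℂ) :
    adjoint m (∑ i ∈ s, f i) = ∑ i ∈ s, adjoint m (f i) := by
  rw [adjoint, conjTranspose_sum, Finset.mul_sum, Finset.sum_mul]
  rfl

theorem adjoint_mul' (a a' : Matrix (Fin (m + 1)) (Fin (m + 1)) ℂ) :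
    adjoint m (a * a') = adjoint m a' * adjoint m a := by
  have hJ : J m * J m = 1 := J_J
  rw [adjoint, adjoint, adjoint, conjTranspose_mul]
  calc J m * (a'ᴴ * aᴴ) * J m = J m * a'ᴴ * 1 * (aᴴ * J m) := by
        simp only [Matrix.mul_assoc, Matrix.one_mul]
    _ = J m * a'ᴴ * (J m * J m) * (aᴴ * J m) := by rw [hJ]
    _ = _ := by simp only [Matrix.mul_assoc]

theorem adjoint_adjoint' (a : Matrix (Fin (m + 1)) (Fin (m + 1)) ℂ) :
    adjoint m (adjoint m a) = a := by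
  have hJ : J m * J m = 1 := J_J
  rw [adjoint, adjoint, conjTranspose_mul, conjTranspose_mul, conjTranspose_conjTranspose, J_herm]
  calc J m * (J m * (a * J m)) * J m = (J m * J m) * a * (J m * J m) := by
        simp only [Matrix.mul_assoc]
    _ = a := by rw [hJ, Matrix.one_mul, Matrix.mul_one]

theorem adjoint_mul_self (γ : SUGroup m) : adjoint m γ.toMatrix * γ.toMatrix = 1 := by
  have hJ : J m * J m = 1 := J_J
  rw [adjoint, Matrix.mul_assoc, Matrix.mul_assoc, ← Matrix.mul_assoc γ.toMatrixᴴ, pres, hJ]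

theorem star_rgram (i j : Fin d) : star (rgram b i j) = rgram b j i := by
  rw [rgram, rgram, ← trace_conjTranspose, conjTranspose_mul, adjoint, conjTranspose_mul,
    conjTranspose_mul, conjTranspose_conjTranspose, J_herm, adjoint, Matrix.mul_assoc (J m),
    Matrix.mul_assoc (J m), Matrix.trace_mul_comm (J m)]
  simp only [Matrix.mul_assoc]

theorem rgram_mulVec (y z : Fin d → ℂ) :
    star y ⬝ᵥ rgram b *ᵥ z = (adjoint m (∑ i, y i • b i) * ∑ j, z j • b j).trace := by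
  rw [adjoint_sum', Finset.sum_mul, Matrix.trace_sum, dotProduct]
  refine Finset.sum_congr rfl fun i _ => ?_
  rw [Finset.mul_sum, Matrix.trace_sum, adjoint_smul', mulVec, dotProduct, Finset.mul_sum]
  refine Finset.sum_congr rfl fun j _ => ?_
  rw [Matrix.smul_mul, Matrix.mul_smul, trace_smul, trace_smul, smul_eq_mul, smul_eq_mul,
    Pi.star_apply, rgram]
  ring

theorem Reg.rgram_inv (h : Reg K (A : Set _) d b c) (γ : SUGroup m) :
    (lm b c γ.toMatrix)ᴴ * rgram b * lm b c γ.toMatrix = rgram b := by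
  ext i j
  have h1 : ((lm b c γ.toMatrix)ᴴ * rgram b * lm b c γ.toMatrix) i j =
      star (fun k => lm b c γ.toMatrix k i) ⬝ᵥ rgram b *ᵥ (fun k => lm b c γ.toMatrix k j) := by
    rw [Matrix.mul_assoc, Matrix.mul_apply]
    rfl
  have h2 : ∀ i, ∑ k, lm b c γ.toMatrix k i • b k = γ.toMatrix * b i := fun i => h.exp _
  rw [h1, rgram_mulVec, h2, h2, adjoint_mul']
  show _ = (adjoint m (b i) * b j).trace
  congr 1
  calc adjoint m (b i) * adjoint m γ.toMatrix * (γ.toMatrix * b j)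
      = adjoint m (b i) * ((adjoint m γ.toMatrix * γ.toMatrix) * b j) := by
        simp only [Matrix.mul_assoc]
    _ = _ := by rw [adjoint_mul_self, Matrix.one_mul]

theorem Reg.rgram_det (h : Reg K (A : Set _) d b c) : (rgram b).det ≠ 0 := by
  intro hd
  obtain ⟨y, hy, hGy⟩ := Matrix.exists_mulVec_eq_zero_iff.2 hd
  apply hy
  obtain ⟨X, hX⟩ : ∃ X, X = ∑ i, y i • b i := ⟨_, rfl⟩
  have h1 : ∀ z : Fin d → ℂ, (adjoint m (∑ i, z i • b i) * X).trace = 0 := by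
    intro z
    rw [hX, ← rgram_mulVec, hGy, dotProduct_zero]
  have h2 : (Xᴴ * X).trace = 0 := by
    have h3 := h1 (c (adjoint m Xᴴ))
    rwa [h.exp, adjoint_adjoint'] at h3
  have h4 : X = 0 := Matrix.trace_conjTranspose_mul_self_eq_zero_iff.1 h2
  have h5 := h.coord y
  rw [← hX, h4, map_zero] at h5
  exact h5.symm

/-- At the other places the trace form is definite. -/
theorem Reg.rgram_pos (h : Reg K (A : Set _) d b c) (hU : IsUnitaryForm m K A) (t : ℂ ≃+* ℂ)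
    (h1 : ¬ ∀ x : K, t (x : ℂ) = x) (h2 : ¬ ∀ x : K, t (x : ℂ) = (starRingEnd ℂ) (x : ℂ)) :
    ((rgram b).map t).PosDef := by
  have hcm := hU.cm
  obtain ⟨τ, hτ⟩ : ∃ τ : K →+* ℂ, τ = t.toRingHom.comp K.subtype := ⟨_, rfl⟩
  have hτa : ∀ x : K, τ x = t (x : ℂ) := fun x => by rw [hτ]; rfl
  have hst : ∀ x : ℂ, x ∈ K → t (star x) = star (t x) := by
    intro x hx
    have h3 := hcm.2.2.2 τ ⟨x, hx⟩ ⟨_, hcm.2.2.1 x hx⟩ rfl
    rw [hτa, hτa] at h3
    exact h3
  have hGK : ∀ i j, rgram b i j ∈ K := fun i j =>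
    h.trace_mem (A.mul_mem (hU.adj _ (h.mem i)) (h.mem j))
  have hherm : ((rgram b).map t).IsHermitian := by
    ext i j
    rw [conjTranspose_apply, Matrix.map_apply, Matrix.map_apply, ← hst _ (hGK j i), star_rgram]
  have hpos : ∀ a ∈ A, 0 ≤ (t ((adjoint m a * a).trace)).re := by
    rcases hU.pos τ with h3 | h3 | h3
    · exact absurd (fun x => by rw [← hτa]; exact h3 x) h1
    · exact absurd (fun x => by rw [← hτa]; exact h3 x) h2
    · intro a ha
      have h4 := h3 a ha ⟨_, h.trace_mem (A.mul_mem (hU.adj _ ha) ha)⟩ rfl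
      rwa [hτa] at h4
  have hval : ∀ z : Fin d → K, 0 ≤ (star (fun i => τ (z i)) ⬝ᵥ
      ((rgram b).map t) *ᵥ fun i => τ (z i)).re := by
    intro z
    have h3 : star (fun i => τ (z i)) ⬝ᵥ ((rgram b).map t) *ᵥ (fun i => τ (z i)) =
        t (star (fun i => (z i : ℂ)) ⬝ᵥ rgram b *ᵥ fun i => (z i : ℂ)) := by
      rw [dotProduct, dotProduct, map_sum]
      refine Finset.sum_congr rfl fun i _ => ?_
      rw [map_mul, mulVec, mulVec, dotProduct, dotProduct, map_sum, Pi.star_apply, Pi.star_apply,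
        hst _ (z i).2, hτa]
      congr 1
      refine Finset.sum_congr rfl fun j _ => ?_
      rw [map_mul, hτa, Matrix.map_apply]
    rw [h3, rgram_mulVec]
    refine hpos _ (sum_mem fun i _ => ?_)
    exact A.smul_mem (h.mem i) (z i)
  have hall : ∀ y : Fin d → ℂ, 0 ≤ (star y ⬝ᵥ ((rgram b).map t) *ᵥ y).re := by
    have hdr : DenseRange (fun z : Fin d → K => fun i => τ (z i)) :=
      DenseRange.piMap fun _ => dense_embedding hcm τ
    have hcl : IsClosed {y : Fin d → ℂ | 0 ≤ (star y ⬝ᵥ ((rgram b).map t) *ᵥ y).re} := by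
      refine isClosed_le continuous_const ?_
      exact Complex.continuous_re.comp
        (continuous_star.dotProduct (continuous_const.matrix_mulVec continuous_id))
    intro y
    exact hcl.closure_subset_iff.2 (by rintro _ ⟨z, rfl⟩; exact hval z) (hdr y)
  have hsemi : ((rgram b).map t).PosSemidef := by
    refine Matrix.PosSemidef.of_dotProduct_mulVec_nonneg hherm fun y => ?_
    have h3 : star y ⬝ᵥ ((rgram b).map t) *ᵥ y =
        ((star y ⬝ᵥ ((rgram b).map t) *ᵥ y).re : ℂ) := by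
      refine Complex.ext rfl ?_
      rw [Complex.ofReal_im]
      exact hherm.im_star_dotProduct_mulVec_self y
    rw [h3]
    exact_mod_cast hall y
  refine hsemi.posDef_iff_det_ne_zero.2 ?_
  have h4 : ((rgram b).map t).det = t (rgram b).det := (RingHom.map_det t.toRingHom _).symm
  rw [h4]
  exact (map_ne_zero t).2 h.rgram_det

/-- At the other places there is an invariant definite form. -/
theorem Reg.compact (h : Reg K (A : Set _) d b c) (hU : IsUnitaryForm m K A) (t : ℂ ≃+* ℂ)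
    (h1 : ¬ ∀ x : K, t (x : ℂ) = x) (h2 : ¬ ∀ x : K, t (x : ℂ) = (starRingEnd ℂ) (x : ℂ)) :
    ∃ Z : Matrix (Fin (m + 1)) (Fin (m + 1)) ℂ, Z.PosDef ∧ ∀ γ : SUGroup m, γ.toMatrix ∈ A →
      γ.toMatrix.map t * Z * (γ.toMatrix.map t)ᴴ = Z := by
  have hcm := hU.cm
  obtain ⟨τ, hτ⟩ : ∃ τ : K →+* ℂ, τ = t.toRingHom.comp K.subtype := ⟨_, rfl⟩
  have hτa : ∀ x : K, τ x = t (x : ℂ) := fun x => by rw [hτ]; rfl
  have hst : ∀ x : ℂ, x ∈ K → t (star x) = star (t x) := by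
    intro x hx
    have h3 := hcm.2.2.2 τ ⟨x, hx⟩ ⟨_, hcm.2.2.1 x hx⟩ rfl
    rw [hτa, hτa] at h3
    exact h3
  have hG := h.rgram_pos hU t h1 h2
  obtain ⟨P, hP⟩ : ∃ P, P = (pc c (0 : Fin (m + 1))).map t := ⟨_, rfl⟩
  obtain ⟨L, hL⟩ : ∃ L : Matrix (Fin (m + 1)) (Fin d) ℂ, L * P = 1 := by
    refine ⟨(ev b (Pi.single 0 1)).map t, ?_⟩
    rw [hP, ← map_mul', h.ev_pc, Pi.single_eq_same, one_smul]
    exact Matrix.map_one t (map_zero t) (map_one t)
  have hPi : Function.Injective P.mulVec := by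
    intro x y hxy
    have h3 : L *ᵥ (P *ᵥ x) = L *ᵥ (P *ᵥ y) := congrArg (fun v => L *ᵥ v) hxy
    rwa [mulVec_mulVec, mulVec_mulVec, hL, one_mulVec, one_mulVec] at h3
  have hZ' : (Pᴴ * (rgram b).map t * P).PosDef := hG.conjTranspose_mul_mul_same hPi
  obtain ⟨Z', hZ'd⟩ : ∃ Z', Z' = Pᴴ * (rgram b).map t * P := ⟨_, rfl⟩
  rw [← hZ'd] at hZ'
  refine ⟨Z'⁻¹, hZ'.inv, fun γ hγ => ?_⟩
  obtain ⟨R, hR⟩ : ∃ R, R = (lm b c γ.toMatrix).map t := ⟨_, rfl⟩
  have hPR : P * γ.toMatrix.map t = R * P := by rw [hP, hR, h.pc_map]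
  have hRG : Rᴴ * (rgram b).map t * R = (rgram b).map t := by
    have h3 : Rᴴ = ((lm b c γ.toMatrix)ᴴ).map t := by
      ext i j
      rw [hR, conjTranspose_apply, Matrix.map_apply, Matrix.map_apply, conjTranspose_apply,
        hst _ (h.lm_mem hγ j i)]
    rw [h3, hR, ← map_mul', ← map_mul', h.rgram_inv]
  have h3 : (γ.toMatrix.map t)ᴴ * Z' * γ.toMatrix.map t = Z' := by
    calc (γ.toMatrix.map t)ᴴ * Z' * γ.toMatrix.map t
        = (P * γ.toMatrix.map t)ᴴ * (rgram b).map t * (P * γ.toMatrix.map t) := by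
          rw [hZ'd, conjTranspose_mul]
          simp only [Matrix.mul_assoc]
      _ = Pᴴ * (Rᴴ * (rgram b).map t * R) * P := by
          rw [hPR, conjTranspose_mul]
          simp only [Matrix.mul_assoc]
      _ = Z' := by rw [hRG, hZ'd]
  have hu := (isUnit_iff_isUnit_det _).1 hZ'.isUnit
  obtain ⟨g, hg⟩ : ∃ g, g = γ.toMatrix.map t := ⟨_, rfl⟩
  rw [← hg] at h3 ⊢
  have h5 : (Z'⁻¹ * gᴴ * Z') * g = 1 := by
    calc (Z'⁻¹ * gᴴ * Z') * g = Z'⁻¹ * (gᴴ * Z' * g) := by simp only [Matrix.mul_assoc]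
      _ = 1 := by rw [h3, nonsing_inv_mul _ hu]
  have h6 : g * (Z'⁻¹ * gᴴ * Z') = 1 := mul_eq_one_comm.1 h5
  calc g * Z'⁻¹ * gᴴ = g * (Z'⁻¹ * gᴴ * Z') * Z'⁻¹ := by
        simp only [Matrix.mul_assoc]
        rw [mul_nonsing_inv _ hu, Matrix.mul_one]
    _ = Z'⁻¹ := by rw [h6, Matrix.one_mul]

end reg

/-- **The conjugates of an arithmetic group.** -/
theorem piece_types {Λ : Subgroup (SUGroup m)} (hA : IsArith m Λ) :
    ∃ (K : Subfield ℂ) (Λ' : Subgroup (SUGroup m)), IsCM K ∧ Λ' ≤ Λ ∧ Λ'.relIndex Λ ≠ 0 ∧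
      IsArith m Λ' ∧ (∀ γ ∈ Λ', γ.toMatrix.trace ∈ K) ∧ ∀ t : ℂ ≃+* ℂ,
      ((∀ x : K, t (x : ℂ) = x) → ∃ E : Mat (m + 1), IsUnit E ∧
        ∀ γ ∈ Λ', γ.toMatrix.map t = E * γ.toMatrix * E⁻¹) ∧
      ((∀ x : K, t (x : ℂ) = cj (x : ℂ)) → ∃ E : Mat (m + 1), IsUnit E ∧
        ∀ γ ∈ Λ', γ.toMatrix.map t = E * γ.toMatrix.map cj * E⁻¹) ∧
      ((¬ ∀ x : K, t (x : ℂ) = x) → (¬ ∀ x : K, t (x : ℂ) = cj (x : ℂ)) →
        ∃ Z : Mat (m + 1), Z.PosDef ∧
          ∀ γ ∈ Λ', γ.toMatrix.map t * Z * (γ.toMatrix.map t)ᴴ = Z) := by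
  obtain ⟨K, A, O, hU, hO, hc⟩ := hA
  obtain ⟨d, b, c, h⟩ := exists_reg A hU.rank hU.span
  have hle : Λ ⊓ unitPoints m O ≤ Λ := inf_le_left
  have hfin : (Λ ⊓ unitPoints m O).relIndex Λ ≠ 0 := by
    rw [Subgroup.inf_relIndex_left]
    exact hc.2
  have hmem : ∀ γ ∈ Λ ⊓ unitPoints m O, γ.toMatrix ∈ A := fun γ hγ => hO.sub _ hγ.2.1
  have hcomm : Subgroup.Commensurable (Λ ⊓ unitPoints m O) (unitPoints m O) := by
    refine ⟨?_, ?_⟩
    · rw [Subgroup.inf_relIndex_right]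
      exact hc.1
    · rw [Subgroup.relIndex_eq_one.2 inf_le_right]
      exact one_ne_zero
  refine ⟨K, Λ ⊓ unitPoints m O, hU.cm, hle, hfin, ⟨K, A, O, hU, hO, hcomm⟩,
    fun γ hγ => h.trace_mem (hmem γ hγ), fun t => ⟨fun ht => ?_, fun ht => ?_, fun h1 h2 => ?_⟩⟩
  · obtain ⟨E, hE, hEa⟩ := h.inner t ht
    exact ⟨E, hE, fun γ hγ => hEa _ (hmem γ hγ)⟩
  · obtain ⟨E, hE, hEa⟩ := h.inner (t.trans cj) (fun x => by
      show cj (t (x : ℂ)) = x
      rw [ht x, cj_apply, cj_apply, Complex.conj_conj])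
    have hEd : E.det ≠ 0 := ((isUnit_iff_isUnit_det E).1 hE).ne_zero
    refine ⟨E.map cj, tm_unit cj hEd, fun γ hγ => ?_⟩
    have h3 := hEa _ (hmem γ hγ)
    have h4 : γ.toMatrix.map t = (γ.toMatrix.map (t.trans cj)).map cj := by
      ext i j
      show t (γ.toMatrix i j) = cj (cj (t (γ.toMatrix i j)))
      rw [cj_apply, cj_apply, Complex.conj_conj]
    rw [h4, h3, tm_mul, tm_mul, tm_inv cj hEd]
  · obtain ⟨Z, hZ, hZi⟩ := h.compact hU t h1 h2
    exact ⟨Z, hZ, fun γ hγ => hZi γ (hmem γ hγ)⟩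

end Pool.Agent.Lib.MP_5d4057_al.CF
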